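import Pool.Agent.Lib_2b501e.Support

open MeasureTheory Metric Set
open scoped RealInnerProductSpace Topology

namespace MP2b501e

lemma improve {Rs Δ e : E3} {η d C : ℝ} (hR : Rs ≠ 0) (he : e = -(‖Rs‖⁻¹ • Rs))
    (hη : 0 < η) (h1 : η * d ≤ ⟪e, Δ⟫) (h2 : ‖Δ‖ ≤ η * C) (hsmall : η * C ^ 2 < 2 * ‖Rs‖ * d) :
    ‖Rs + Δ‖ < ‖Rs‖ := by
  have hn : 0 < ‖Rs‖ := norm_pos_iff.2 hR
  have h3 : ⟪Rs, Δ⟫ = -(‖Rs‖ * ⟪e, Δ⟫) := by
    rw [he, inner_neg_left, real_inner_smul_left]
    field_simp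
  have h4 : ‖Rs + Δ‖ ^ 2 = ‖Rs‖ ^ 2 + 2 * ⟪Rs, Δ⟫ + ‖Δ‖ ^ 2 := norm_add_sq_real Rs Δ
  have h5 : ‖Δ‖ ^ 2 ≤ (η * C) ^ 2 := by
    apply pow_le_pow_left₀ (norm_nonneg _) h2
  have h6 : (η * C) ^ 2 < 2 * ‖Rs‖ * (η * d) := by
    have := mul_lt_mul_of_pos_left hsmall hη
    calc (η * C) ^ 2 = η * (η * C ^ 2) := by ring
      _ < η * (2 * ‖Rs‖ * d) := this
      _ = _ := by ring
  have h7 : 2 * ‖Rs‖ * (η * d) ≤ 2 * ‖Rs‖ * ⟪e, Δ⟫ := by gcongr
  have h8 : ‖Rs + Δ‖ ^ 2 < ‖Rs‖ ^ 2 := by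
    rw [h4, h3]; nlinarith
  exact lt_of_pow_lt_pow_left₀ 2 hn.le h8

/-- Exact zero of the moment by minimization over cut depths. -/
theorem exists_zero {ι : Type} [Fintype ι] [DecidableEq ι] (a b : ι → ℝ) (hab : ∀ i, a i ≤ b i)
    (n : ι → ℝ → E3) (v : ι → ℝ → ℝ) (x : ι → E3) {V τ c0 : ℝ} (hV : 0 ≤ V) (hτ : 0 ≤ τ)
    (hcn : ∀ i, ContinuousOn (n i) (Icc (a i) (b i)))
    (hcv : ∀ i, ContinuousOn (v i) (Icc (a i) (b i)))
    (hvb : ∀ i, v i (b i) = 0) (hnb : ∀ i, n i (b i) = 0) (hva : ∀ i, v i (a i) = V)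
    (hmono : ∀ i, ∀ g ∈ Icc (a i) (b i), ∀ g' ∈ Icc (a i) (b i), g ≤ g' → v i g' ≤ v i g)
    (hnv : ∀ i, ∀ g ∈ Icc (a i) (b i), ∀ g' ∈ Icc (a i) (b i), g ≤ g' →
      ‖(n i g - n i g') + (v i g - v i g') • x i‖ ≤ τ * (v i g - v i g'))
    (A : E3) (hA : ‖A‖ ≤ V * (c0 - τ - 2 * τ * Fintype.card ι))
    (hdir : ∀ e : E3, ‖e‖ = 1 → (∃ i, ⟪x i, e⟫ ≤ -c0) ∨ 2 * τ * V * Fintype.card ι ≤ ⟪A, e⟫)
    (hc0 : τ < c0) :
    ∃ g : ι → ℝ, (∀ i, g i ∈ Icc (a i) (b i)) ∧ A + ∑ i, n i (g i) = 0 := by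
  classical
  set S : Set (ι → ℝ) := Set.pi univ fun i => Icc (a i) (b i) with hS
  have hScomp : IsCompact S := isCompact_univ_pi fun i => isCompact_Icc
  have hSne : S.Nonempty := ⟨a, fun i _ => left_mem_Icc.2 (hab i)⟩
  set Rf : (ι → ℝ) → E3 := fun g => A + ∑ i, n i (g i) with hRf
  have hRc : ContinuousOn (fun g => ‖Rf g‖) S := by
    apply ContinuousOn.norm
    apply ContinuousOn.add continuousOn_const
    apply continuousOn_finsetSum
    intro i _
    apply (hcn i).comp (continuous_apply i).continuousOn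
    intro g hg
    exact hg i (mem_univ i)
  obtain ⟨g, hgS, hmin⟩ := hScomp.exists_isMinOn hSne hRc
  have hgI : ∀ i, g i ∈ Icc (a i) (b i) := fun i => hgS i (mem_univ i)
  refine ⟨g, hgI, ?_⟩
  by_contra hne
  change Rf g ≠ 0 at hne
  set e : E3 := -(‖Rf g‖⁻¹ • Rf g) with he
  have hRn : 0 < ‖Rf g‖ := norm_pos_iff.2 hne
  have hen : ‖e‖ = 1 := by
    rw [he, norm_neg, norm_smul, norm_inv, norm_norm, inv_mul_cancel₀ hRn.ne']
  have hRe : ⟪Rf g, e⟫ = -‖Rf g‖ := by
    rw [he, inner_neg_right, real_inner_smul_right, real_inner_self_eq_norm_sq]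
    field_simp
  -- values of v
  have hv0 : ∀ i, 0 ≤ v i (g i) := by
    intro i
    have := hmono i (g i) (hgI i) (b i) (right_mem_Icc.2 (hab i)) (hgI i).2
    rwa [hvb] at this
  have hvV : ∀ i, v i (g i) ≤ V := by
    intro i
    have := hmono i (a i) (left_mem_Icc.2 (hab i)) (g i) (hgI i) (hgI i).1
    rwa [hva] at this
  have hupd : ∀ (i : ι) (g' : ℝ), Rf (Function.update g i g') = Rf g + (n i g' - n i (g i)) := by
    intro i g'
    simp only [hRf]
    have : ∑ j, n j (Function.update g i g' j) - ∑ j, n j (g j) = n i g' - n i (g i) := by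
      rw [← Finset.sum_sub_distrib]
      rw [Finset.sum_eq_single i]
      · simp
      · intro j _ hj
        simp [Function.update_of_ne hj]
      · intro h; exact absurd (Finset.mem_univ i) h
    rw [← this]; abel
  have hno : ∀ (i : ι) (g' : ℝ), g' ∈ Icc (a i) (b i) → ‖Rf g‖ ≤ ‖Rf g + (n i g' - n i (g i))‖ := by
    intro i g' hg'
    rw [← hupd]
    apply hmin
    intro j _
    by_cases hj : j = i
    · subst hj; simpa using hg'
    · simpa [Function.update_of_ne hj] using hgI j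
  -- lower bound for each contribution
  have hnb' : ∀ i, v i (g i) * (-⟪x i, e⟫ - τ) ≤ ⟪n i (g i), e⟫ := by
    intro i
    have h1 := hnv i (g i) (hgI i) (b i) (right_mem_Icc.2 (hab i)) (hgI i).2
    rw [hnb, hvb, sub_zero, sub_zero] at h1
    have h2 := real_inner_le_norm (-(n i (g i) + v i (g i) • x i)) e
    rw [norm_neg, hen, mul_one, inner_neg_left, inner_add_left, real_inner_smul_left] at h2
    nlinarith
  have hlow : ∀ i, ⟪x i, e⟫ < -τ → v i (g i) = V := by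
    intro i hi
    by_contra hneV
    have hlt : v i (g i) < V := lt_of_le_of_ne (hvV i) hneV
    set d : ℝ := -⟪x i, e⟫ - τ with hd
    have hd0 : 0 < d := by linarith
    set C : ℝ := ‖x i‖ + τ with hC
    -- choose a slightly larger volume
    set η0 : ℝ := min (V - v i (g i)) (‖Rf g‖ * d / (C ^ 2 + 1)) with hη0
    have hη0pos : 0 < η0 := by
      apply lt_min (by linarith)
      positivity
    have hIVT : Icc (v i (g i)) (v i (a i)) ⊆ v i '' Icc (a i) (g i) :=
      intermediate_value_Icc' (hgI i).1 ((hcv i).mono (Icc_subset_Icc le_rfl (hgI i).2))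
    have hmem : v i (g i) + η0 ∈ Icc (v i (g i)) (v i (a i)) := by
      rw [hva]
      refine ⟨by linarith, ?_⟩
      have := min_le_left (V - v i (g i)) (‖Rf g‖ * d / (C ^ 2 + 1))
      linarith
    obtain ⟨g', hg', hg'v⟩ := hIVT hmem
    have hg'I : g' ∈ Icc (a i) (b i) := ⟨hg'.1, hg'.2.trans (hgI i).2⟩
    have h1 := hnv i g' hg'I (g i) (hgI i) hg'.2
    rw [hg'v, add_sub_cancel_left] at h1
    have h2 : η0 * d ≤ ⟪e, n i g' - n i (g i)⟫ := by
      have h3 := real_inner_le_norm (-((n i g' - n i (g i)) + η0 • x i)) e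
      rw [norm_neg, hen, mul_one, inner_neg_left, inner_add_left, real_inner_smul_left] at h3
      rw [real_inner_comm]
      rw [hd]
      nlinarith
    have h4 : ‖n i g' - n i (g i)‖ ≤ η0 * C := by
      have h5 : n i g' - n i (g i) = ((n i g' - n i (g i)) + η0 • x i) - η0 • x i := by abel
      have h6 : ‖η0 • x i‖ = η0 * ‖x i‖ := by
        rw [norm_smul, Real.norm_eq_abs, abs_of_pos hη0pos]
      rw [h5]
      refine (norm_sub_le _ _).trans ?_
      rw [h6, hC]; linarith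
    have h7 : η0 * C ^ 2 < 2 * ‖Rf g‖ * d := by
      have h8 : η0 ≤ ‖Rf g‖ * d / (C ^ 2 + 1) := min_le_right _ _
      rw [le_div_iff₀ (by positivity)] at h8
      have : 0 < ‖Rf g‖ * d := by positivity
      nlinarith
    exact absurd (improve hne he hη0pos h2 h4 h7) (not_lt.2 (hno i g' hg'I))
  have hhigh : ∀ i, τ < ⟪x i, e⟫ → v i (g i) = 0 := by
    intro i hi
    by_contra hne0
    have hlt : 0 < v i (g i) := lt_of_le_of_ne (hv0 i) (Ne.symm hne0)
    set d : ℝ := ⟪x i, e⟫ - τ with hd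
    have hd0 : 0 < d := by linarith
    set C : ℝ := ‖x i‖ + τ with hC
    set η0 : ℝ := min (v i (g i)) (‖Rf g‖ * d / (C ^ 2 + 1)) with hη0
    have hη0pos : 0 < η0 := by
      apply lt_min (by linarith)
      positivity
    have hIVT : Icc (v i (b i)) (v i (g i)) ⊆ v i '' Icc (g i) (b i) :=
      intermediate_value_Icc' (hgI i).2 ((hcv i).mono (Icc_subset_Icc (hgI i).1 le_rfl))
    have hmem : v i (g i) - η0 ∈ Icc (v i (b i)) (v i (g i)) := by
      rw [hvb]
      refine ⟨?_, by linarith⟩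
      have := min_le_left (v i (g i)) (‖Rf g‖ * d / (C ^ 2 + 1))
      linarith
    obtain ⟨g', hg', hg'v⟩ := hIVT hmem
    have hg'I : g' ∈ Icc (a i) (b i) := ⟨(hgI i).1.trans hg'.1, hg'.2⟩
    have h1 := hnv i (g i) (hgI i) g' hg'I hg'.1
    rw [hg'v, sub_sub_cancel] at h1
    have h2 : η0 * d ≤ ⟪e, n i g' - n i (g i)⟫ := by
      have h3 := real_inner_le_norm ((n i (g i) - n i g') + η0 • x i) e
      rw [hen, mul_one, inner_add_left, real_inner_smul_left, inner_sub_left] at h3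
      rw [real_inner_comm, inner_sub_left]
      rw [hd]
      nlinarith
    have h4 : ‖n i g' - n i (g i)‖ ≤ η0 * C := by
      have h5 : n i g' - n i (g i) = η0 • x i - ((n i (g i) - n i g') + η0 • x i) := by abel
      have h6 : ‖η0 • x i‖ = η0 * ‖x i‖ := by
        rw [norm_smul, Real.norm_eq_abs, abs_of_pos hη0pos]
      rw [h5]
      refine (norm_sub_le _ _).trans ?_
      rw [h6, hC]; linarith
    have h7 : η0 * C ^ 2 < 2 * ‖Rf g‖ * d := by
      have h8 : η0 ≤ ‖Rf g‖ * d / (C ^ 2 + 1) := min_le_right _ _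
      rw [le_div_iff₀ (by positivity)] at h8
      have : 0 < ‖Rf g‖ * d := by positivity
      nlinarith
    exact absurd (improve hne he hη0pos h2 h4 h7) (not_lt.2 (hno i g' hg'I))
  -- each contribution is at least -2 τ V
  have hcontr : ∀ i, -(2 * τ * V) ≤ ⟪n i (g i), e⟫ := by
    intro i
    refine le_trans ?_ (hnb' i)
    rcases lt_or_ge (⟪x i, e⟫) (-τ) with h | h
    · have : 0 ≤ v i (g i) * (-⟪x i, e⟫ - τ) := mul_nonneg (hv0 i) (by linarith)
      have : 0 ≤ 2 * τ * V := by positivity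
      linarith
    · rcases lt_or_ge τ (⟪x i, e⟫) with h' | h'
      · rw [hhigh i h', zero_mul]
        have : 0 ≤ 2 * τ * V := by positivity
        linarith
      · have h1 : v i (g i) * (2 * τ) ≤ V * (2 * τ) := by
          apply mul_le_mul_of_nonneg_right (hvV i); linarith
        have h2 : v i (g i) * (-(2 * τ)) ≤ v i (g i) * (-⟪x i, e⟫ - τ) := by
          apply mul_le_mul_of_nonneg_left _ (hv0 i); linarith
        linarith
  have hsum : ⟪Rf g, e⟫ = ⟪A, e⟫ + ∑ i, ⟪n i (g i), e⟫ := by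
    simp only [hRf, inner_add_left, sum_inner]
  rcases hdir e hen with ⟨j, hj⟩ | hAe
  · have hjV : v j (g j) = V := hlow j (by linarith)
    have h1 : V * (c0 - τ) ≤ ⟪n j (g j), e⟫ := by
      refine le_trans ?_ (hnb' j)
      rw [hjV]
      apply mul_le_mul_of_nonneg_left _ hV
      linarith
    have h2 : V * (c0 - τ) - 2 * τ * V * Fintype.card ι ≤ ∑ i, ⟪n i (g i), e⟫ := by
      rw [← Finset.add_sum_erase _ _ (Finset.mem_univ j)]
      have h3 : ∑ i ∈ Finset.univ.erase j, (-(2 * τ * V)) ≤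
          ∑ i ∈ Finset.univ.erase j, ⟪n i (g i), e⟫ := Finset.sum_le_sum fun i _ => hcontr i
      rw [Finset.sum_const, nsmul_eq_mul] at h3
      have h4 : ((Finset.univ.erase j).card : ℝ) ≤ Fintype.card ι := by
        exact_mod_cast Finset.card_le_univ _
      have h5 : ((Finset.univ.erase j).card : ℝ) * (2 * τ * V) ≤
          Fintype.card ι * (2 * τ * V) := mul_le_mul_of_nonneg_right h4 (by positivity)
      linarith
    have h6 : -‖A‖ ≤ ⟪A, e⟫ := by
      have := real_inner_le_norm (-A) e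
      rw [norm_neg, hen, mul_one, inner_neg_left] at this
      linarith
    rw [hRe] at hsum
    nlinarith
  · have h3 : ∑ _i : ι, (-(2 * τ * V)) ≤ ∑ i, ⟪n i (g i), e⟫ :=
      Finset.sum_le_sum fun i _ => hcontr i
    rw [Finset.sum_const, nsmul_eq_mul, Finset.card_univ] at h3
    rw [hRe] at hsum
    nlinarith

end MP2b501e
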