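import Pool.Agent.Lib_2b501e.Support

open MeasureTheory Metric Set
open scoped RealInnerProductSpace Topology Pointwise

namespace MP2b501e

/-- first moment -/
noncomputable def mom (K : Set E3) : E3 := ∫ x in K, x

/-- volume as a real number -/
noncomputable def vol (K : Set E3) : ℝ := (volume : Measure E3).real K

lemma centroid_eq (K : Set E3) : centroid K = (vol K)⁻¹ • mom K := by
  rw [centroid, setAverage_eq]; rfl

lemma centroid_eq_zero {K : Set E3} (h : mom K = 0) : centroid K = 0 := by
  rw [centroid_eq, h, smul_zero]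

lemma integrableOn_id' {S : Set E3} (hb : Bornology.IsBounded S) :
    IntegrableOn (fun x : E3 => x) S volume := by
  obtain ⟨R, hR⟩ := hb.subset_closedBall (0 : E3)
  exact (continuousOn_id.integrableOn_compact (isCompact_closedBall (0:E3) R)).mono_set hR

lemma integrableOn_of_cont {F : Type*} [NormedAddCommGroup F] {f : E3 → F} (hf : Continuous f)
    {S : Set E3} (hb : Bornology.IsBounded S) : IntegrableOn f S volume := by
  obtain ⟨R, hR⟩ := hb.subset_closedBall (0 : E3)
  exact (hf.continuousOn.integrableOn_compact (isCompact_closedBall (0:E3) R)).mono_set hR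

lemma volume_lt_top {S : Set E3} (hb : Bornology.IsBounded S) : (volume : Measure E3) S < ⊤ :=
  hb.measure_lt_top

lemma vol_nonneg (S : Set E3) : 0 ≤ vol S := measureReal_nonneg

lemma vol_mono {A B : Set E3} (h : A ⊆ B) (hb : Bornology.IsBounded B) : vol A ≤ vol B :=
  measureReal_mono h (volume_lt_top hb).ne

lemma vol_sdiff {A B : Set E3} (h : A ⊆ B) (hA : MeasurableSet A) (hb : Bornology.IsBounded B) :
    vol (B \ A) = vol B - vol A := by
  have := measureReal_sdiff (μ := (volume : Measure E3)) h hA (volume_lt_top hb).ne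
  exact this

lemma mom_sdiff {A B : Set E3} (h : A ⊆ B) (hA : MeasurableSet A) (hb : Bornology.IsBounded B) :
    mom (B \ A) = mom B - mom A :=
  setIntegral_sdiff hA (integrableOn_id' hb) h

lemma norm_mom_le {S : Set E3} {C : ℝ} (hb : Bornology.IsBounded S) (h : ∀ x ∈ S, ‖x‖ ≤ C) :
    ‖mom S‖ ≤ C * vol S :=
  norm_setIntegral_le_of_norm_le_const (volume_lt_top hb) h

lemma vol_smul {c : ℝ} (hc : 0 ≤ c) (S : Set E3) : vol (c • S) = c ^ 3 * vol S := by
  unfold vol
  rw [measureReal_def, Measure.addHaar_smul, ENNReal.toReal_mul, ENNReal.toReal_ofReal (abs_nonneg _),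
    measureReal_def]
  have : Module.finrank ℝ E3 = 3 := by simp [E3]
  rw [this, abs_of_nonneg (by positivity)]

lemma inner_mom {S : Set E3} (hb : Bornology.IsBounded S) (e : E3) :
    ⟪mom S, e⟫ = ∫ x in S, ⟪x, e⟫ := by
  rw [mom, real_inner_comm, ← integral_inner (integrableOn_id' hb)]
  apply integral_congr_ae
  filter_upwards with x
  rw [real_inner_comm]

/-- hyperplanes have measure zero -/
lemma volume_hyperplane {u : E3} (hu : u ≠ 0) (g : ℝ) :
    (volume : Measure E3) {y | ⟪y, u⟫ = g} = 0 := by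
  have hn : ‖u‖ ^ 2 ≠ 0 := by
    have : 0 < ‖u‖ := norm_pos_iff.2 hu
    positivity
  set s : AffineSubspace ℝ E3 :=
    AffineSubspace.mk' ((g / ‖u‖ ^ 2) • u) (Submodule.span ℝ {u})ᗮ with hs
  have hset : {y : E3 | ⟪y, u⟫ = g} = (s : Set E3) := by
    ext y
    rw [SetLike.mem_coe, hs, AffineSubspace.mem_mk', Submodule.mem_orthogonal_singleton_iff_inner_right]
    simp only [vsub_eq_sub, inner_sub_right, real_inner_smul_right, real_inner_self_eq_norm_sq]
    rw [div_mul_cancel₀ _ hn]
    constructor
    · intro h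
      change ⟪y, u⟫ = g at h
      rw [real_inner_comm, h, sub_self]
    · intro h
      change ⟪y, u⟫ = g
      rw [real_inner_comm]
      linarith
  rw [hset]
  apply Measure.addHaar_affineSubspace
  intro htop
  have h1 : ((g / ‖u‖ ^ 2) • u + u) ∈ s := by rw [htop]; trivial
  rw [hs, AffineSubspace.mem_mk', Submodule.mem_orthogonal_singleton_iff_inner_right] at h1
  simp only [vsub_eq_sub, add_sub_cancel_left, real_inner_self_eq_norm_sq] at h1
  exact hn h1

lemma continuous_cut {F : Type*} [NormedAddCommGroup F] [NormedSpace ℝ F] {P : Set E3}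
    {f : E3 → F} (hf : IntegrableOn f P volume) {u : E3} (hu : u ≠ 0) :
    Continuous fun g : ℝ => ∫ y in P ∩ {y | g < ⟪y, u⟫}, f y := by
  have hmeas : ∀ g : ℝ, MeasurableSet {y : E3 | g < ⟪y, u⟫} := fun g =>
    measurableSet_lt measurable_const (by fun_prop)
  have heq : (fun g : ℝ => ∫ y in P ∩ {y | g < ⟪y, u⟫}, f y) =
      fun g : ℝ => ∫ y in P, indicator {y | g < ⟪y, u⟫} f y := by
    ext g
    rw [setIntegral_indicator (hmeas g)]
  rw [heq, continuous_iff_continuousAt]
  intro g0
  apply continuousAt_of_dominated (bound := fun y => ‖f y‖)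
  · filter_upwards with g
    exact hf.aestronglyMeasurable.indicator (hmeas g)
  · filter_upwards with g
    filter_upwards with y
    exact norm_indicator_le_norm_self _ _
  · exact hf.norm
  · have h0 : ∀ᵐ y ∂(volume.restrict P : Measure E3), ⟪y, u⟫ ≠ g0 := by
      apply ae_restrict_of_ae
      rw [ae_iff]
      simpa using volume_hyperplane hu g0
    filter_upwards [h0] with y hy
    rcases lt_or_gt_of_ne hy with h | h
    · have : (fun g : ℝ => indicator {y | g < ⟪y, u⟫} f y) =ᶠ[𝓝 g0] fun _ => 0 := by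
        filter_upwards [eventually_gt_nhds h] with g hg
        apply indicator_of_notMem
        simp only [Set.mem_ofPred_eq, not_lt]
        exact hg.le
      exact continuousAt_const.congr this.symm
    · have : (fun g : ℝ => indicator {y | g < ⟪y, u⟫} f y) =ᶠ[𝓝 g0] fun _ => f y := by
        filter_upwards [eventually_lt_nhds h] with g hg
        apply indicator_of_mem
        exact hg
      exact continuousAt_const.congr this.symm

/-- cut-off cap -/
def cap (P : Set E3) (u : E3) (g : ℝ) : Set E3 := P ∩ {y | g < ⟪y, u⟫}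

lemma measurableSet_cap {P : Set E3} (hP : MeasurableSet P) (u : E3) (g : ℝ) :
    MeasurableSet (cap P u g) :=
  hP.inter (measurableSet_lt measurable_const (by fun_prop))

lemma cap_anti {P : Set E3} (u : E3) {g g' : ℝ} (h : g ≤ g') : cap P u g' ⊆ cap P u g :=
  fun _ hy => ⟨hy.1, h.trans_lt hy.2⟩

lemma continuous_vol_cap {P : Set E3} (hb : Bornology.IsBounded P)
    {u : E3} (hu : u ≠ 0) : Continuous fun g => vol (cap P u g) := by
  have h := continuous_cut (f := fun _ : E3 => (1:ℝ)) (P := P)
    (integrableOn_of_cont continuous_const hb) hu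
  have : (fun g => vol (cap P u g)) = fun g : ℝ => ∫ _y in P ∩ {y | g < ⟪y, u⟫}, (1:ℝ) := by
    ext g
    rw [setIntegral_const, smul_eq_mul, mul_one]
    rfl
  rw [this]
  exact h

lemma continuous_mom_cap {P : Set E3} (hb : Bornology.IsBounded P)
    {u : E3} (hu : u ≠ 0) : Continuous fun g => mom (cap P u g) :=
  continuous_cut (integrableOn_id' hb) hu

/-- increments of the moment of a cap are nearly parallel to the point -/
lemma cap_increment {P : Set E3} (hP : MeasurableSet P) (hb : Bornology.IsBounded P) {u x : E3}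
    {τ : ℝ} {g g' : ℝ} (hgg : g ≤ g') (hcap : cap P u g ⊆ closedBall x τ) :
    ‖(mom (cap P u g) - mom (cap P u g')) - (vol (cap P u g) - vol (cap P u g')) • x‖ ≤
      τ * (vol (cap P u g) - vol (cap P u g')) := by
  have hbc : Bornology.IsBounded (cap P u g) := hb.subset inter_subset_left
  have hD := measurableSet_cap hP u g'
  rw [← mom_sdiff (cap_anti u hgg) hD hbc, ← vol_sdiff (cap_anti u hgg) hD hbc]
  set D := cap P u g \ cap P u g' with hDdef
  have hbD : Bornology.IsBounded D := hbc.subset sdiff_subset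
  have h1 : vol D • x = ∫ _y in D, x := by
    rw [setIntegral_const]; rfl
  rw [h1, mom, ← integral_sub (integrableOn_id' hbD) (integrableOn_of_cont continuous_const hbD)]
  apply norm_setIntegral_le_of_norm_le_const (volume_lt_top hbD)
  intro y hy
  have := hcap hy.1
  rwa [mem_closedBall, dist_eq_norm] at this

/-- moment after removing pairwise disjoint caps -/
lemma mom_remove {ι : Type} [Fintype ι] {P : Set E3} (hP : MeasurableSet P)
    (hb : Bornology.IsBounded P) (u : ι → E3) (g : ι → ℝ)
    (hdisj : Pairwise (Function.onFun Disjoint fun i => cap P (u i) (g i))) :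
    mom {y ∈ P | ∀ i, ⟪y, u i⟫ ≤ g i} = mom P - ∑ i, mom (cap P (u i) (g i)) := by
  have hset : {y ∈ P | ∀ i, ⟪y, u i⟫ ≤ g i} = P \ ⋃ i, cap P (u i) (g i) := by
    ext y
    simp only [Set.mem_ofPred_eq, mem_sdiff, mem_iUnion, cap, mem_inter_iff, not_exists, not_and,
      not_lt]
    constructor
    · rintro ⟨h1, h2⟩
      exact ⟨h1, fun i _ => h2 i⟩
    · rintro ⟨h1, h2⟩
      exact ⟨h1, fun i => h2 i h1⟩
  have hsub : (⋃ i, cap P (u i) (g i)) ⊆ P := iUnion_subset fun i => inter_subset_left
  rw [hset, mom_sdiff hsub (MeasurableSet.iUnion fun i => measurableSet_cap hP _ _) hb]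
  congr 1
  exact integral_iUnion_fintype (fun i => measurableSet_cap hP _ _) hdisj
    fun i => integrableOn_id' (hb.subset inter_subset_left)

/-- sandwich estimate -/
lemma mom_sandwich {A B : Set E3} {κ C : ℝ} (hκ : 0 ≤ κ) (hAB : A ⊆ B) (hBA : B ⊆ (1 + κ) • A)
    (hA : MeasurableSet A) (hbA : Bornology.IsBounded A) (hC : ∀ x ∈ B, ‖x‖ ≤ C) (hC0 : 0 ≤ C) :
    ‖mom B - mom A‖ ≤ C * (((1 + κ) ^ 3 - 1) * vol A) := by
  have hbB : Bornology.IsBounded B := (hbA.smul₀ (1 + κ)).subset hBA
  rw [← mom_sdiff hAB hA hbB]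
  refine (norm_mom_le (hbB.subset sdiff_subset) fun x hx => hC x hx.1).trans ?_
  apply mul_le_mul_of_nonneg_left _ hC0
  rw [vol_sdiff hAB hA hbB]
  have := vol_mono hBA (hbA.smul₀ (1 + κ))
  rw [vol_smul (by linarith)] at this
  linarith

end MP2b501e
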