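import Pool.Agent.Lib_2b501e.MonoCrit
import Pool.Agent.Lib_2b501e.Minim
import Pool.Agent.Lib_2b501e.Mom

open MeasureTheory Metric Set
open scoped RealInnerProductSpace Topology Pointwise

namespace MP2b501e

/-- `x` is exposed with outer unit normal `u`, and is not the foot point of its supporting
plane. -/
structure Exp (K : Set E3) (u x : E3) : Prop where
  unit : ‖u‖ = 1
  mem : x ∈ K
  lt : ∀ y ∈ K, y ≠ x → ⟪y, u⟫ < ⟪x, u⟫
  ne : x ≠ ⟪x, u⟫ • u

namespace Exp

variable {K : Set E3} {r R : ℝ} {u x : E3}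

lemma le (h : Exp K u x) {y : E3} (hy : y ∈ K) : ⟪y, u⟫ ≤ ⟪x, u⟫ := by
  rcases eq_or_ne y x with rfl | hne
  · exact le_rfl
  · exact (h.lt y hy hne).le

lemma hs_eq (b : Body K r R) (h : Exp K u x) : hs K u = ⟪x, u⟫ :=
  le_antisymm (hs_le b.nonempty fun _ hy => h.le hy) (inner_le_hs b.compact h.mem u)

lemma ne_zero (h : Exp K u x) : u ≠ 0 := by
  rintro rfl
  simpa using h.unit

lemma inner_pos (b : Body K r R) (h : Exp K u x) : 0 < ⟪x, u⟫ := by
  rw [← h.hs_eq b]; exact b.hs_pos h.ne_zero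

lemma exists_cap (b : Body K r R) (h : Exp K u x) {τ : ℝ} (hτ : 0 < τ) :
    ∃ a, a < ⟪x, u⟫ ∧ ∀ y ∈ K, a < ⟪y, u⟫ → ‖y - x‖ < τ := by
  have hcomp : IsCompact (K \ ball x τ) := b.compact.diff isOpen_ball
  rcases (K \ ball x τ).eq_empty_or_nonempty with he | hne
  · refine ⟨⟪x, u⟫ - 1, by linarith, fun y hy _ => ?_⟩
    by_contra hcon
    have : y ∈ K \ ball x τ := ⟨hy, by rw [mem_ball, dist_eq_norm]; exact hcon⟩
    rw [he] at this
    exact this
  · obtain ⟨z, hz, hmax⟩ := hcomp.exists_isMaxOn hne (f := fun y => ⟪y, u⟫) (by fun_prop)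
    have hzx : z ≠ x := by
      rintro rfl
      exact hz.2 (mem_ball_self hτ)
    refine ⟨⟪z, u⟫, h.lt z hz.1 hzx, fun y hy hlt => ?_⟩
    by_contra hcon
    have : y ∈ K \ ball x τ := ⟨hy, by rw [mem_ball, dist_eq_norm]; exact hcon⟩
    exact absurd (hmax this) (not_le.2 hlt)

lemma foot_not_mem (h : Exp K u x) : ⟪x, u⟫ • u ∉ K := by
  intro hmem
  have h1 : ⟪⟪x, u⟫ • u, u⟫ = ⟪x, u⟫ := by
    rw [real_inner_smul_left, real_inner_self_eq_norm_sq, h.unit]; ring
  by_contra _
  have := h.lt _ hmem (Ne.symm h.ne)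
  rw [h1] at this
  exact lt_irrefl _ this

lemma data (b : Body K r R) (h : Exp K u x) {τ ε : ℝ} (hτ : 0 < τ) (hε : 0 < ε) :
    ∃ a : ℝ, 0 < a ∧ (1 - ε) * ⟪x, u⟫ ≤ a ∧ a < ⟪x, u⟫ ∧ ∃ κ0 : ℝ, 0 < κ0 ∧ ∀ κ : ℝ, 0 ≤ κ → κ ≤ κ0 →
      (∀ y ∈ (1 + κ) • K, a < ⟪y, u⟫ → ‖y - x‖ ≤ τ) ∧ a • u ∉ (1 + κ) • K := by
  obtain ⟨a1, ha1, hcap⟩ := h.exists_cap b (half_pos hτ)
  have hpos := h.inner_pos b
  have hR := b.R_pos
  -- openness of the complement along the ray
  have hopen : IsOpen {c : ℝ | c • u ∉ K} := by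
    have : Continuous fun c : ℝ => c • u := by fun_prop
    exact b.closed.isOpen_compl.preimage this
  obtain ⟨η, hη, hball⟩ := Metric.isOpen_iff.1 hopen _ h.foot_not_mem
  set m : ℝ := max (max a1 ((1 - ε) * ⟪x, u⟫)) (max 0 (⟪x, u⟫ - η)) with hm
  have hmlt : m < ⟪x, u⟫ := by
    rw [hm]
    refine max_lt (max_lt ha1 ?_) (max_lt hpos ?_)
    · nlinarith
    · linarith
  set a : ℝ := (m + ⟪x, u⟫) / 2 with ha
  have hma : m < a := by rw [ha]; linarith
  have hax : a < ⟪x, u⟫ := by rw [ha]; linarith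
  have hm0 : 0 ≤ m := (le_max_left 0 _).trans (le_max_right _ _)
  have hm1 : a1 ≤ m := (le_max_left _ _).trans (le_max_left _ _)
  have hm2 : (1 - ε) * ⟪x, u⟫ ≤ m := (le_max_right _ _).trans (le_max_left _ _)
  have hm3 : ⟪x, u⟫ - η ≤ m := (le_max_right _ _).trans (le_max_right _ _)
  have ha0 : 0 < a := by linarith
  refine ⟨a, ha0, by linarith, hax, ?_⟩
  -- choose κ0
  refine ⟨min (τ / (2 * R)) ((a - m) / (m + 1)), ?_, ?_⟩
  · apply lt_min
    · positivity
    · apply div_pos (by linarith) (by linarith)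
  intro κ hκ0 hκ
  have hκ1 : κ ≤ τ / (2 * R) := hκ.trans (min_le_left _ _)
  have hκ2 : κ ≤ (a - m) / (m + 1) := hκ.trans (min_le_right _ _)
  rw [le_div_iff₀ (by positivity)] at hκ1
  rw [le_div_iff₀ (by linarith)] at hκ2
  have hm4 : m * (1 + κ) ≤ a := by nlinarith
  have h1κ : 0 < 1 + κ := by linarith
  constructor
  · rintro _ ⟨z, hz, rfl⟩ hlt
    simp only [real_inner_smul_left] at hlt
    have hzx : ‖z - x‖ < τ / 2 := by
      apply hcap z hz
      have : m * (1 + κ) < (1 + κ) * ⟪z, u⟫ := hm4.trans_lt hlt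
      have : m < ⟪z, u⟫ := by nlinarith
      linarith
    have hzn := b.norm_le hz
    calc ‖(1 + κ) • z - x‖ = ‖(z - x) + κ • z‖ := by congr 1; module
      _ ≤ ‖z - x‖ + ‖κ • z‖ := norm_add_le _ _
      _ ≤ τ / 2 + κ * R := by
          rw [norm_smul, Real.norm_eq_abs, abs_of_nonneg hκ0]
          gcongr
      _ ≤ τ := by nlinarith
  · rintro ⟨z, hz, hze⟩
    simp only at hze
    have hz' : (a / (1 + κ)) • u ∈ K := by
      have : z = (a / (1 + κ)) • u := by
        rw [div_eq_inv_mul, mul_smul, ← hze, smul_smul, inv_mul_cancel₀ h1κ.ne', one_smul]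
      rwa [← this]
    refine @hball (a / (1 + κ)) ?_ hz'
    rw [mem_ball, Real.dist_eq, abs_lt]
    have h5 : m ≤ a / (1 + κ) := by rw [le_div_iff₀ h1κ]; exact hm4
    have h6 : a / (1 + κ) ≤ a := div_le_self ha0.le (by linarith)
    constructor
    · rcases eq_or_lt_of_le h5 with h7 | h7
      · -- strictness
        have h8 : ⟪x, u⟫ - η ≤ m := hm3
        by_contra hcon
        rw [not_lt] at hcon
        -- then m = ⟪x,u⟫ - η = a/(1+κ), so a ≤ m(1+κ)
        have h9 : a = m * (1 + κ) := by rw [h7]; field_simp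
        have h10 : (a - m) = m * κ := by rw [h9]; ring
        have h11 : κ * (m + 1) ≤ m * κ := by rw [← h10]; exact hκ2
        have h12 : κ ≤ 0 := by nlinarith
        have h13 : κ = 0 := le_antisymm h12 hκ0
        rw [h13] at h10
        linarith
      · linarith
    · linarith

end Exp

lemma Body.vol_cap_pos {K : Set E3} {r R : ℝ} (b : Body K r R) {u x : E3} (hx : x ∈ K) {a : ℝ}
    (ha : a < ⟪x, u⟫) : 0 < vol (cap K u a) := by
  have hopen : IsOpen (interior K ∩ {y | a < ⟪y, u⟫}) :=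
    isOpen_interior.inter (isOpen_lt continuous_const (by fun_prop))
  have hne : (interior K ∩ {y | a < ⟪y, u⟫}).Nonempty := by
    have hxc : x ∈ closure (interior K) := by rw [b.closure_interior]; exact hx
    have := mem_closure_iff.1 hxc {y | a < ⟪y, u⟫} (isOpen_lt continuous_const (by fun_prop)) ha
    rwa [inter_comm] at this
  have h1 : 0 < (volume : Measure E3) (interior K ∩ {y | a < ⟪y, u⟫}) := hopen.measure_pos _ hne
  have h2 : interior K ∩ {y | a < ⟪y, u⟫} ⊆ cap K u a := fun y hy => ⟨interior_subset hy.1, hy.2⟩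
  have hb : Bornology.IsBounded (cap K u a) := b.bounded.subset inter_subset_left
  unfold vol
  rw [measureReal_def]
  exact ENNReal.toReal_pos (h1.trans_le (measure_mono h2)).ne' (volume_lt_top hb).ne

lemma Body.smul_mono {K : Set E3} {r R : ℝ} (b : Body K r R) {c d : ℝ} (hc : 0 ≤ c) (hcd : c ≤ d) :
    c • K ⊆ d • K := by
  rintro _ ⟨z, hz, rfl⟩
  rcases eq_or_lt_of_le (hc.trans hcd) with h | h
  · have hc0 : c = 0 := le_antisymm (by rw [h]; exact hcd) hc
    subst hc0
    exact ⟨z, hz, by simp [← h]⟩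
  · refine ⟨(c / d) • z, b.smul_mem hz (div_nonneg hc h.le) ((div_le_one h).2 hcd), ?_⟩
    simp only [smul_smul]
    rw [mul_div_cancel₀ _ h.ne']

/-- The core approximation theorem. -/
theorem approx_core {K : Set E3} {r R : ℝ} (b : Body K r R) {ι : Type} [Fintype ι] [DecidableEq ι]
    (u x : ι → E3) (hexp : ∀ i, Exp K (u i) (x i)) (hinj : Function.Injective x)
    {c0 τ : ℝ} (hτ : 0 < τ) (hτ1 : τ + 2 * τ * Fintype.card ι ≤ c0 / 2)
    (hsys : ∀ κ > 0, ∃ (T : Finset (E3 × ℝ)) (root : E3 × ℝ), MonoSys T root ∧ K ⊆ Poly T ∧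
      Poly T ⊆ (1 + κ) • K ∧ ∃ V, 0 < V ∧ V ≤ κ ∧ ‖mom (Poly T)‖ ≤ V * (c0 / 2) ∧
      ∀ e : E3, ‖e‖ = 1 → (∃ i, ⟪x i, e⟫ ≤ -c0) ∨
        2 * τ * V * Fintype.card ι ≤ ⟪mom (Poly T), e⟫)
    {ε : ℝ} (hε : 0 < ε) (hε1 : ε < 1) :
    ∃ (T : Finset (E3 × ℝ)) (root : E3 × ℝ), MonoSys T root ∧ mom (Poly T) = 0 ∧
      (1 - ε) • K ⊆ Poly T ∧ Poly T ⊆ (1 + ε) • K := by
  classical
  -- separation
  obtain ⟨τ', hτ'0, hτ'τ, hsep⟩ : ∃ τ' > 0, τ' ≤ τ ∧ ∀ i j, i ≠ j → 3 * τ' ≤ ‖x i - x j‖ := by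
    have : ∃ s > 0, ∀ p ∈ (Finset.univ : Finset (ι × ι)), p.1 ≠ p.2 → s ≤ ‖x p.1 - x p.2‖ := by
      induction (Finset.univ : Finset (ι × ι)) using Finset.induction_on with
      | empty => exact ⟨1, one_pos, by simp⟩
      | insert p s _ ih =>
        obtain ⟨t, ht, hs⟩ := ih
        by_cases hp : p.1 = p.2
        · refine ⟨t, ht, fun q hq hne => ?_⟩
          rcases Finset.mem_insert.1 hq with rfl | hq
          · exact absurd hp hne
          · exact hs q hq hne
        · have hpos : 0 < ‖x p.1 - x p.2‖ := norm_pos_iff.2 (sub_ne_zero.2 (hinj.ne hp))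
          refine ⟨min t ‖x p.1 - x p.2‖, lt_min ht hpos, fun q hq hne => ?_⟩
          rcases Finset.mem_insert.1 hq with rfl | hq
          · exact min_le_right _ _
          · exact (min_le_left _ _).trans (hs q hq hne)
    obtain ⟨s, hs, hsp⟩ := this
    refine ⟨min τ (s / 3), lt_min hτ (by positivity), min_le_left _ _, fun i j hij => ?_⟩
    have h1 := hsp (i, j) (Finset.mem_univ _) hij
    have h2 := min_le_right τ (s / 3)
    simp only at h1
    linarith
  choose a ha0 haε halt κ0 hκ0 hdata using fun i => (hexp i).data b hτ'0 hε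
  have hVpos : ∀ i, 0 < vol (cap K (u i) (a i)) := fun i =>
    b.vol_cap_pos (hexp i).mem (halt i)
  obtain ⟨κ, hκpos, hκε, hκle⟩ : ∃ κ > 0, κ ≤ ε ∧ ∀ i, κ ≤ κ0 i ∧ κ ≤ vol (cap K (u i) (a i)) := by
    have : ∀ s : Finset ι, ∃ κ > 0, κ ≤ ε ∧ ∀ i ∈ s, κ ≤ κ0 i ∧ κ ≤ vol (cap K (u i) (a i)) := by
      intro s
      induction s using Finset.induction_on with
      | empty => exact ⟨ε, hε, le_rfl, by simp⟩
      | insert j s _ ih =>
        obtain ⟨t, ht, hte, hs⟩ := ih
        refine ⟨min t (min (κ0 j) (vol (cap K (u j) (a j)))),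
          lt_min ht (lt_min (hκ0 j) (hVpos j)), (min_le_left _ _).trans hte, fun i hi => ?_⟩
        rcases Finset.mem_insert.1 hi with rfl | hi
        · exact ⟨(min_le_right _ _).trans (min_le_left _ _),
            (min_le_right _ _).trans (min_le_right _ _)⟩
        · exact ⟨(min_le_left _ _).trans (hs i hi).1, (min_le_left _ _).trans (hs i hi).2⟩
    obtain ⟨κ, h1, h2, h3⟩ := this Finset.univ
    exact ⟨κ, h1, h2, fun i => h3 i (Finset.mem_univ i)⟩
  obtain ⟨T, root, hmono, hKP, hPK, V, hV0, hVκ, hmomP, hdir⟩ := hsys κ hκpos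
  set P := Poly T with hP
  have hPmeas : MeasurableSet P := (isClosed_poly T).measurableSet
  have hPb : Bornology.IsBounded P := (b.bounded.smul₀ (1 + κ)).subset hPK
  set bb : ι → ℝ := fun i => (1 + κ) * ⟪x i, u i⟫ with hbb
  have hPle : ∀ i, ∀ y ∈ P, ⟪y, u i⟫ ≤ bb i := by
    intro i y hy
    obtain ⟨z, hz, rfl⟩ := hPK hy
    simp only [real_inner_smul_left]
    exact mul_le_mul_of_nonneg_left ((hexp i).le hz) (by linarith)
  have hcapb : ∀ i, cap P (u i) (bb i) = ∅ := by
    intro i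
    ext y
    simp only [cap, mem_inter_iff, Set.mem_ofPred_eq, mem_empty_iff_false, iff_false, not_and, not_lt]
    exact hPle i y
  have habb : ∀ i, a i ≤ bb i := by
    intro i
    have h1 := halt i
    have h2 := (hexp i).inner_pos b
    simp only [hbb]
    nlinarith
  have hcontv : ∀ i, Continuous fun g => vol (cap P (u i) g) := fun i =>
    continuous_vol_cap hPb (hexp i).ne_zero
  have hcontn : ∀ i, Continuous fun g => -mom (cap P (u i) g) := fun i =>
    (continuous_mom_cap hPb (hexp i).ne_zero).neg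
  have hcapball : ∀ i g, a i ≤ g → cap P (u i) g ⊆ closedBall (x i) τ' := by
    intro i g hg y hy
    rw [mem_closedBall, dist_eq_norm]
    exact (hdata i κ hκpos.le (hκle i).1).1 y (hPK hy.1) (hg.trans_lt hy.2)
  -- equal capacities
  have hcapV : ∀ i, ∃ a', a' ∈ Icc (a i) (bb i) ∧ vol (cap P (u i) a') = V := by
    intro i
    have hIVT : Icc (vol (cap P (u i) (bb i))) (vol (cap P (u i) (a i))) ⊆
        (fun g => vol (cap P (u i) g)) '' Icc (a i) (bb i) :=
      intermediate_value_Icc' (habb i) (hcontv i).continuousOn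
    have hmem : V ∈ Icc (vol (cap P (u i) (bb i))) (vol (cap P (u i) (a i))) := by
      constructor
      · rw [hcapb]; simpa [vol] using hV0.le
      · refine (hVκ.trans (hκle i).2).trans ?_
        apply vol_mono _ (hPb.subset inter_subset_left)
        intro y hy
        exact ⟨hKP hy.1, hy.2⟩
    obtain ⟨g, hg, hgV⟩ := hIVT hmem
    exact ⟨g, hg, hgV⟩
  choose a' ha'I ha'V using hcapV
  obtain ⟨g, hgI, hgzero⟩ := exists_zero a' bb (fun i => (ha'I i).2)
    (fun i g => -mom (cap P (u i) g)) (fun i g => vol (cap P (u i) g)) x (V := V) (τ := τ)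
    (c0 := c0) hV0.le hτ.le (fun i => (hcontn i).continuousOn) (fun i => (hcontv i).continuousOn)
    (fun i => by simp only [hcapb]; simp [vol]) (fun i => by simp only [hcapb]; simp [mom])
    ha'V (fun i g _ g' _ h => vol_mono (cap_anti _ h) (hPb.subset inter_subset_left))
    (by
      intro i g hg g' _ hgg
      have h1 := cap_increment hPmeas hPb (u := u i) (x := x i) hgg
        (hcapball i g ((ha'I i).1.trans hg.1))
      have h2 : 0 ≤ vol (cap P (u i) g) - vol (cap P (u i) g') :=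
        sub_nonneg.2 (vol_mono (cap_anti _ hgg) (hPb.subset inter_subset_left))
      have h3 : (-mom (cap P (u i) g) - -mom (cap P (u i) g')) +
          (vol (cap P (u i) g) - vol (cap P (u i) g')) • x i =
          -((mom (cap P (u i) g) - mom (cap P (u i) g')) -
          (vol (cap P (u i) g) - vol (cap P (u i) g')) • x i) := by abel
      rw [h3, norm_neg]
      exact h1.trans (mul_le_mul_of_nonneg_right hτ'τ h2))
    (mom P) (hmomP.trans (mul_le_mul_of_nonneg_left (by linarith) hV0.le)) hdir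
    (by
      have : 0 ≤ 2 * τ * Fintype.card ι := by positivity
      linarith)
  have hga : ∀ i, a i ≤ g i := fun i => (ha'I i).1.trans (hgI i).1
  -- the final system
  set T' : Finset (E3 × ℝ) := T ∪ Finset.univ.image (fun i => (u i, g i)) with hT'
  have hPoly : Poly T' = {y ∈ P | ∀ i, ⟪y, u i⟫ ≤ g i} := by
    ext y
    simp only [Poly, Set.mem_ofPred_eq, hT', Finset.mem_union, Finset.mem_image, Finset.mem_univ,
      true_and]
    constructor
    · intro h
      refine ⟨fun p hp => h p (Or.inl hp), fun i => ?_⟩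
      have := h (u i, g i) (Or.inr ⟨i, rfl⟩)
      rwa [real_inner_comm] at this
    · rintro ⟨h1, h2⟩ p (hp | ⟨i, rfl⟩)
      · exact h1 p hp
      · rw [real_inner_comm]; exact h2 i
  refine ⟨T', root, ⟨?_, ?_, ?_, ?_⟩, ?_, ?_, ?_⟩
  · exact Finset.mem_union_left _ hmono.root_mem
  · intro p hp
    rcases Finset.mem_union.1 hp with hp | hp
    · exact hmono.unit p hp
    · obtain ⟨i, _, rfl⟩ := Finset.mem_image.1 hp
      exact (hexp i).unit
  · intro p hp
    rcases Finset.mem_union.1 hp with hp | hp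
    · exact hmono.pos p hp
    · obtain ⟨i, _, rfl⟩ := Finset.mem_image.1 hp
      exact (ha0 i).trans_le (hga i)
  · intro p hp
    rcases Finset.mem_union.1 hp with hp | hp
    · rcases hmono.succ p hp with h | ⟨q, hq, h⟩
      · exact Or.inl h
      · exact Or.inr ⟨q, Finset.mem_union_left _ hq, h⟩
    · obtain ⟨i, _, rfl⟩ := Finset.mem_image.1 hp
      right
      have hnot : g i • u i ∉ P := by
        intro hmem
        have h1 := hPK hmem
        apply (hdata i κ hκpos.le (hκle i).1).2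
        obtain ⟨z, hz, hze⟩ := h1
        simp only at hze
        have hgpos : 0 < g i := (ha0 i).trans_le (hga i)
        refine ⟨(a i / g i) • z, b.smul_mem hz (div_nonneg (ha0 i).le hgpos.le)
          ((div_le_one hgpos).2 (hga i)), ?_⟩
        simp only
        rw [smul_comm, hze, smul_smul, div_mul_cancel₀ _ hgpos.ne']
      simp only [hP, Poly, Set.mem_ofPred_eq, not_forall, not_le] at hnot
      obtain ⟨q, hq, hlt⟩ := hnot
      refine ⟨q, Finset.mem_union_left _ hq, ?_⟩
      rw [real_inner_smul_right, real_inner_comm] at hlt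
      exact hlt
  · rw [hPoly, mom_remove hPmeas hPb]
    · rw [Finset.sum_neg_distrib, ← sub_eq_add_neg] at hgzero
      exact hgzero
    · intro i j hij
      rw [Function.onFun, Set.disjoint_left]
      intro y hyi hyj
      have h1 := hcapball i _ (hga i) hyi
      have h2 := hcapball j _ (hga j) hyj
      rw [mem_closedBall, dist_eq_norm] at h1 h2
      have h3 := hsep i j hij
      have h4 : ‖x i - x j‖ ≤ ‖y - x j‖ + ‖y - x i‖ := by
        have : x i - x j = (y - x j) - (y - x i) := by abel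
        rw [this]; exact norm_sub_le _ _
      linarith
  · rw [hPoly]
    rintro _ ⟨z, hz, rfl⟩
    simp only
    refine ⟨hKP (b.smul_mem hz (by linarith) (by linarith)), fun i => ?_⟩
    rw [real_inner_smul_left]
    have h1 := mul_le_mul_of_nonneg_left ((hexp i).le hz) (sub_pos.2 hε1).le
    exact h1.trans ((haε i).trans (hga i))
  · rw [hPoly]
    intro y hy
    exact b.smul_mono (by linarith) (by linarith) (hPK hy.1)

end MP2b501e
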