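import Pool.Agent.Lib_2b501e.Approx

open MeasureTheory Metric Set
open scoped RealInnerProductSpace Topology Pointwise

namespace MP2b501e

/-- The body cut out by the planes with heights `ψ (hs K u)`. -/
def Wf (K : Set E3) (ψ : ℝ → ℝ) : Set E3 := {y | ∀ u : E3, ‖u‖ = 1 → ⟪y, u⟫ ≤ ψ (hs K u)}

/-- Admissible reparametrizations. -/
structure Adm (ψ : ℝ → ℝ) : Prop where
  slope : ∀ a b, b ≤ a → (a - b) / 2 ≤ ψ a - ψ b
  lip : ∀ a b, b ≤ a → ψ a - ψ b ≤ 2 * (a - b)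
  ge : ∀ a, a ≤ ψ a

lemma Adm.mono {ψ : ℝ → ℝ} (h : Adm ψ) {a b : ℝ} (hab : a ≤ b) : ψ a ≤ ψ b := by
  have := h.slope b a hab
  linarith

lemma adm_id : Adm id := ⟨fun a b h => by simp only [id]; linarith,
  fun a b h => by simp only [id]; linarith, fun a => le_rfl⟩

lemma adm_abs {s r : ℝ} (h0 : 0 ≤ s) (h1 : s ≤ 1 / 2) : Adm fun t => t + s * |t - r| := by
  have key : ∀ a b : ℝ, b ≤ a → |(|a - r| - |b - r|)| ≤ a - b := by
    intro a b hab
    have := abs_abs_sub_abs_le (a - r) (b - r)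
    rwa [sub_sub_sub_cancel_right, abs_of_nonneg (sub_nonneg.2 hab)] at this
  refine ⟨fun a b h => ?_, fun a b h => ?_, fun a => ?_⟩
  · have h2 := (abs_le.1 (key a b h)).1
    have h3 : s * (-(a - b)) ≤ s * (|a - r| - |b - r|) := mul_le_mul_of_nonneg_left h2 h0
    have h4 : s * (a - b) ≤ 1 / 2 * (a - b) := mul_le_mul_of_nonneg_right h1 (sub_nonneg.2 h)
    linarith
  · have h2 := (abs_le.1 (key a b h)).2
    have h3 : s * (|a - r| - |b - r|) ≤ s * (a - b) := mul_le_mul_of_nonneg_left h2 h0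
    have h4 : s * (a - b) ≤ 1 / 2 * (a - b) := mul_le_mul_of_nonneg_right h1 (sub_nonneg.2 h)
    linarith [sub_nonneg.2 h]
  · have : 0 ≤ s * |a - r| := by positivity
    linarith

lemma exists_net {μ : ℝ} (hμ : 0 < μ) : ∃ N : Finset E3, (∀ u ∈ N, ‖u‖ = 1) ∧
    ∀ v : E3, ‖v‖ = 1 → ∃ u ∈ N, ‖u - v‖ ≤ μ := by
  obtain ⟨t, hts, htf, hcov⟩ := (isCompact_sphere (0 : E3) 1).finite_cover_balls hμ
  refine ⟨htf.toFinset, fun u hu => ?_, fun v hv => ?_⟩
  · simpa using hts (htf.mem_toFinset.1 hu)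
  · have : v ∈ ⋃ x ∈ t, ball x μ := hcov (by simpa using hv)
    simp only [mem_iUnion] at this
    obtain ⟨u, hu, hvu⟩ := this
    refine ⟨u, htf.mem_toFinset.2 hu, ?_⟩
    rw [mem_ball, dist_eq_norm, norm_sub_rev] at hvu
    exact hvu.le

namespace Body

variable {K : Set E3} {r R : ℝ}

lemma hs_unit_le (b : Body K r R) {u : E3} (hu : ‖u‖ = 1) : hs K u ≤ R := by
  have := b.hs_le_mul u; rwa [hu, mul_one] at this

lemma le_hs_unit (b : Body K r R) {u : E3} (hu : ‖u‖ = 1) : r ≤ hs K u := by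
  have := b.le_hs u; rwa [hu, mul_one] at this

lemma subset_wf (b : Body K r R) {ψ : ℝ → ℝ} (hψ : Adm ψ) : K ⊆ Wf K ψ :=
  fun _ hy _ _ => (inner_le_hs b.compact hy _).trans (hψ.ge _)

lemma wf_id (b : Body K r R) : Wf K id = K := by
  ext y
  rw [b.mem_iff]
  rfl

lemma norm_le_of_forall {C : ℝ} (hC : 0 ≤ C) {y : E3}
    (h : ∀ u : E3, ‖u‖ = 1 → ⟪y, u⟫ ≤ C) : ‖y‖ ≤ C := by
  rcases eq_or_ne y 0 with rfl | hy
  · simpa using hC
  · have := h (nrm y) (norm_nrm hy)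
    rw [nrm, real_inner_smul_right, real_inner_self_eq_norm_sq] at this
    have hn : 0 < ‖y‖ := norm_pos_iff.2 hy
    calc ‖y‖ = ‖y‖⁻¹ * ‖y‖ ^ 2 := by field_simp
      _ ≤ C := this

lemma body_wf (b : Body K r R) {ψ : ℝ → ℝ} (hψ : Adm ψ) : Body (Wf K ψ) r (ψ R) := by
  have hψR : 0 ≤ ψ R := b.R_pos.le.trans (hψ.ge R)
  have hsub : Wf K ψ ⊆ closedBall 0 (ψ R) := by
    intro y hy
    rw [mem_closedBall_zero_iff]
    exact norm_le_of_forall hψR fun u hu => (hy u hu).trans (hψ.mono (b.hs_unit_le hu))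
  have hclosed : IsClosed (Wf K ψ) := by
    have : Wf K ψ = ⋂ u : E3, ⋂ _ : ‖u‖ = 1, {y : E3 | ⟪y, u⟫ ≤ ψ (hs K u)} := by
      ext y; simp [Wf]
    rw [this]
    apply isClosed_iInter; intro u
    apply isClosed_iInter; intro _
    exact isClosed_le (by fun_prop) (by fun_prop)
  refine ⟨(isCompact_closedBall _ _).of_isClosed_subset hclosed hsub, ?_, b.rpos,
    b.ball_sub.trans (b.subset_wf hψ), hsub⟩
  intro x hx y hy s t hs' ht hst u hu
  rw [inner_add_left, real_inner_smul_left, real_inner_smul_left]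
  calc _ ≤ s * ψ (hs K u) + t * ψ (hs K u) :=
        add_le_add (mul_le_mul_of_nonneg_left (hx u hu) hs') (mul_le_mul_of_nonneg_left (hy u hu) ht)
    _ = ψ (hs K u) := by rw [← add_mul, hst, one_mul]

/-- Baseline polyhedra. -/
theorem baseline (b : Body K r R) (hC : CH K) {ψ : ℝ → ℝ} (hψ : Adm ψ) {κ : ℝ} (hκ : 0 < κ) :
    ∃ (T : Finset (E3 × ℝ)) (root : E3 × ℝ), MonoSys T root ∧ Wf K ψ ⊆ Poly T ∧
      Poly T ⊆ (1 + κ) • Wf K ψ := by
  classical
  have hR := b.R_pos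
  have hr := b.rpos
  set B : ℝ := 2 * ψ (R + 1) with hB
  have hψR1 : R + 1 ≤ ψ (R + 1) := hψ.ge _
  have hB0 : 0 < B := by rw [hB]; linarith
  set ε : ℝ := min 1 (κ * r / 4) with hε
  have hε0 : 0 < ε := lt_min one_pos (by positivity)
  have hε1 : ε ≤ 1 := min_le_left _ _
  have hε2 : ε ≤ κ * r / 4 := min_le_right _ _
  set μ : ℝ := min (1 / 2) (κ * r / (2 * (2 * R + B))) with hμ
  have hμ0 : 0 < μ := lt_min (by norm_num) (by positivity)
  have hμ1 : μ ≤ 1 / 2 := min_le_left _ _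
  have hμ2 : μ * (2 * R + B) ≤ κ * r / 2 := by
    have := min_le_right (1 / 2) (κ * r / (2 * (2 * R + B)))
    rw [← hμ, le_div_iff₀ (by positivity)] at this
    linarith
  obtain ⟨N, hN1, hN2⟩ := exists_net hμ0
  obtain ⟨u0, hu0, hmin⟩ := (isCompact_sphere (0 : E3) 1).exists_isMinOn
    (by obtain ⟨u, hu⟩ := exists_unit; exact ⟨u, by simpa using hu⟩)
    b.continuous_hs.continuousOn
  have hu0' : ‖u0‖ = 1 := by simpa using hu0
  have hmin' : ∀ u : E3, ‖u‖ = 1 → hs K u0 ≤ hs K u := fun u hu => hmin (by simpa using hu)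
  have hΛ : 0 ≤ ψ (R + 1) := by linarith
  obtain ⟨T0, hT0, hTN⟩ := b.exists_psys hC hΛ hu0' hmin' hε0 N hN1
  have hmono := hT0.monoSys hψ.slope
    (fun p hp => by
      have h1 := b.le_hs_unit (hT0.good p hp).1
      have h2 := (hT0.good p hp).2.1
      have h3 := hψ.ge p.2
      linarith)
    (fun p hp => hψ.mono ((hT0.good p hp).2.2.trans (by linarith))) hΛ
  refine ⟨_, _, hmono, ?_, ?_⟩
  · intro y hy p hp
    obtain ⟨q, hq, rfl⟩ := Finset.mem_image.1 hp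
    simp only
    rw [real_inner_comm]
    exact (hy q.1 (hT0.good q hq).1).trans (hψ.mono (hT0.good q hq).2.1)
  · intro x hx
    have hplane : ∀ u ∈ N, ⟪x, u⟫ ≤ ψ (hs K u + ε) := by
      intro u hu
      have := hx (u, ψ (hs K u + ε)) (Finset.mem_image.2 ⟨_, hTN u hu, rfl⟩)
      rwa [real_inner_comm] at this
    have hxB : ‖x‖ ≤ B := by
      have h1 : ∀ v : E3, ‖v‖ = 1 → ⟪x, v⟫ ≤ ψ (R + 1) + ‖x‖ * μ := by
        intro v hv
        obtain ⟨u, hu, huv⟩ := hN2 v hv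
        have h2 := hplane u hu
        have h3 : ψ (hs K u + ε) ≤ ψ (R + 1) :=
          hψ.mono (add_le_add (b.hs_unit_le (hN1 u hu)) hε1)
        have h4 : ⟪x, v - u⟫ ≤ ‖x‖ * μ := by
          refine (real_inner_le_norm _ _).trans ?_
          rw [norm_sub_rev]
          exact mul_le_mul_of_nonneg_left huv (norm_nonneg _)
        rw [inner_sub_right] at h4
        linarith
      have h5 := norm_le_of_forall (by positivity) h1
      have h6 : ‖x‖ * μ ≤ ‖x‖ * (1 / 2) := mul_le_mul_of_nonneg_left hμ1 (norm_nonneg _)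
      rw [hB]; linarith
    have hmain : ∀ v : E3, ‖v‖ = 1 → ⟪x, v⟫ ≤ (1 + κ) * ψ (hs K v) := by
      intro v hv
      obtain ⟨u, hu, huv⟩ := hN2 v hv
      have h2 := hplane u hu
      have h4 : ⟪x, v - u⟫ ≤ B * μ := by
        refine (real_inner_le_norm _ _).trans ?_
        rw [norm_sub_rev]
        exact mul_le_mul hxB huv (norm_nonneg _) hB0.le
      rw [inner_sub_right] at h4
      have h5 : hs K u ≤ hs K v + R * μ := by
        have := b.hs_sub_le u v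
        have h6 : R * ‖u - v‖ ≤ R * μ := mul_le_mul_of_nonneg_left huv hR.le
        linarith
      have h7 : ψ (hs K u + ε) ≤ ψ (hs K v + (R * μ + ε)) := hψ.mono (by linarith)
      have h8 := hψ.lip (hs K v + (R * μ + ε)) (hs K v) (by
        have : 0 ≤ R * μ := by positivity
        linarith)
      have h9 : r ≤ ψ (hs K v) := (b.le_hs_unit hv).trans (hψ.ge _)
      have h10 : κ * r ≤ κ * ψ (hs K v) := mul_le_mul_of_nonneg_left h9 hκ.le
      nlinarith
    refine ⟨(1 + κ)⁻¹ • x, fun v hv => ?_, ?_⟩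
    · rw [real_inner_smul_left, inv_mul_le_iff₀ (by linarith)]
      exact hmain v hv
    · simp only
      rw [smul_smul, mul_inv_cancel₀ (by linarith), one_smul]

/-- Baseline polyhedra with moment close to that of the body. -/
theorem baseline_mom (b : Body K r R) (hC : CH K) {ψ : ℝ → ℝ} (hψ : Adm ψ) {κ : ℝ}
    (hκ : 0 < κ) :
    ∃ (T : Finset (E3 × ℝ)) (root : E3 × ℝ), MonoSys T root ∧ Wf K ψ ⊆ Poly T ∧
      Poly T ⊆ (1 + κ) • Wf K ψ ∧ ‖mom (Poly T) - mom (Wf K ψ)‖ ≤ κ := by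
  have bw := b.body_wf hψ
  set C : ℝ := 2 * ψ R with hC'
  have hψR : 0 < ψ R := bw.R_pos
  have hC0 : 0 < C := by positivity
  set κ' : ℝ := min (min 1 κ) (κ / (7 * (C * vol (Wf K ψ)) + 1)) with hκ'
  have hv := vol_nonneg (Wf K ψ)
  have hκ'0 : 0 < κ' := lt_min (lt_min one_pos hκ) (by positivity)
  have hκ'1 : κ' ≤ 1 := (min_le_left _ _).trans (min_le_left _ _)
  have hκ'2 : κ' ≤ κ := (min_le_left _ _).trans (min_le_right _ _)
  have hκ'3 : κ' * (7 * (C * vol (Wf K ψ)) + 1) ≤ κ := by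
    have := min_le_right (min 1 κ) (κ / (7 * (C * vol (Wf K ψ)) + 1))
    rwa [← hκ', le_div_iff₀ (by positivity)] at this
  obtain ⟨T, root, h1, h2, h3⟩ := b.baseline hC hψ hκ'0
  refine ⟨T, root, h1, h2, h3.trans (bw.smul_mono (by linarith) (by linarith)), ?_⟩
  have h4 := mom_sandwich hκ'0.le h2 h3 bw.measurableSet bw.bounded (C := C) (by
    intro x hx
    obtain ⟨z, hz, rfl⟩ := h3 hx
    simp only
    rw [norm_smul, Real.norm_eq_abs, abs_of_pos (by linarith)]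
    have := bw.norm_le hz
    exact mul_le_mul (by linarith) this (norm_nonneg _) (by norm_num)) hC0.le
  refine h4.trans ?_
  have h5 : (1 + κ') ^ 3 - 1 ≤ 7 * κ' := by nlinarith [mul_nonneg hκ'0.le hκ'0.le, hκ'0]
  have h6 : ((1 + κ') ^ 3 - 1) * vol (Wf K ψ) ≤ 7 * κ' * vol (Wf K ψ) :=
    mul_le_mul_of_nonneg_right h5 hv
  have h7 := mul_le_mul_of_nonneg_left h6 hC0.le
  nlinarith

end Body

end MP2b501e
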