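import Pool.Agent.Lib_2b501e.Cap

open MeasureTheory Metric Set
open scoped RealInnerProductSpace Topology Pointwise

namespace MP2b501e

/-- `K` contains the ball of radius `ρ` and its support function equals `ρ` near `e` and
near `-e`. -/
structure Patch (K : Set E3) (r R ρ κ : ℝ) (e : E3) : Prop where
  b : Body K r R
  unit : ‖e‖ = 1
  ρpos : 0 < ρ
  ball : closedBall (0 : E3) ρ ⊆ K
  κpos : 0 < κ
  κle : κ ≤ 1
  cap : ∀ u : E3, ‖u‖ = 1 → 1 - κ < |⟪u, e⟫| → hs K u = ρ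

/-- `K` with conical bumps at `e` and `-e`. -/
def Bump (K : Set E3) (e : E3) (c : ℝ) : Set E3 :=
  {x | ∀ u : E3, ‖u‖ = 1 → |⟪u, e⟫| ≤ c → ⟪x, u⟫ ≤ hs K u}

lemma bump_neg (K : Set E3) (e : E3) (c : ℝ) : Bump K (-e) c = Bump K e c := by
  simp [Bump]

/-- a point whose inner products with nearby unit vectors are at most `ρ`, with equality at `w`,
is `ρ • w`. -/
lemma eq_of_local_max {y w : E3} {ρ : ℝ} (hw : ‖w‖ = 1) (hρ : 0 < ρ)
    (hloc : ∀ᶠ u in 𝓝 w, ‖u‖ = 1 → ⟪y, u⟫ ≤ ρ) (heq : ⟪y, w⟫ = ρ) : y = ρ • w := by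
  by_contra hne
  set z : E3 := y - ρ • w with hz
  have hz0 : z ≠ 0 := sub_ne_zero.2 hne
  have hzn : 0 < ‖z‖ := norm_pos_iff.2 hz0
  have hww : ⟪w, w⟫ = 1 := by rw [real_inner_self_eq_norm_sq, hw]; norm_num
  have hzw : ⟪z, w⟫ = 0 := by
    rw [hz, inner_sub_left, heq, real_inner_smul_left, hww]; ring
  have hyz : ⟪y, z⟫ = ‖z‖ ^ 2 := by
    have : y = z + ρ • w := by rw [hz]; abel
    rw [this, inner_add_left, real_inner_self_eq_norm_sq, real_inner_smul_left,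
      real_inner_comm, hzw]
    ring
  have hnorm : ∀ t : ℝ, ‖w + t • z‖ ^ 2 = 1 + t ^ 2 * ‖z‖ ^ 2 := by
    intro t
    rw [norm_add_sq_real, hw, real_inner_smul_right, real_inner_comm, hzw, norm_smul,
      mul_pow, Real.norm_eq_abs, sq_abs]
    ring
  have hne0 : ∀ t : ℝ, w + t • z ≠ 0 := by
    intro t h0
    have := hnorm t
    rw [h0, norm_zero] at this
    nlinarith [sq_nonneg (t * ‖z‖)]
  have hcont : Filter.Tendsto (fun t : ℝ => nrm (w + t • z)) (𝓝 0) (𝓝 w) := by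
    have h1 : ContinuousAt (fun t : ℝ => nrm (w + t • z)) 0 := by
      have h2 : ContinuousAt (fun t : ℝ => ‖w + t • z‖⁻¹) 0 := by
        apply ContinuousAt.inv₀
        · fun_prop
        · exact norm_ne_zero_iff.2 (hne0 0)
      have h3 : ContinuousAt (fun t : ℝ => w + t • z) 0 := by fun_prop
      exact h2.smul h3
    have h4 : nrm (w + (0:ℝ) • z) = w := by rw [zero_smul, add_zero, nrm_of_unit hw]
    rw [ContinuousAt, h4] at h1
    exact h1
  have hev := hcont.eventually hloc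
  rw [Metric.eventually_nhds_iff] at hev
  obtain ⟨ε, hε, hev⟩ := hev
  set t : ℝ := min (ε / 2) (1 / ρ) with ht
  have ht0 : 0 < t := lt_min (by linarith) (by positivity)
  have ht1 : t ≤ ε / 2 := min_le_left _ _
  have ht2 : t * ρ ≤ 1 := by
    have := min_le_right (ε / 2) (1 / ρ)
    rw [← ht, le_div_iff₀ hρ] at this
    exact this
  have h5 := hev (y := t) (by rw [Real.dist_eq, sub_zero, abs_of_pos ht0]; linarith)
    (norm_nrm (hne0 t))
  have hnp : 0 < ‖w + t • z‖ := norm_pos_iff.2 (hne0 t)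
  rw [nrm, real_inner_smul_right, inner_add_right, heq, real_inner_smul_right, hyz,
    inv_mul_le_iff₀ hnp] at h5
  -- ρ + t z² ≤ ρ‖w+tz‖ ≤ ρ (1 + t² z²/2)
  have h6 : ‖w + t • z‖ ≤ 1 + t ^ 2 * ‖z‖ ^ 2 / 2 := by
    apply le_of_sq_le_sq _ (by positivity)
    rw [hnorm]
    nlinarith [sq_nonneg (t ^ 2 * ‖z‖ ^ 2)]
  have h7 : ‖w + t • z‖ * ρ ≤ (1 + t ^ 2 * ‖z‖ ^ 2 / 2) * ρ :=
    mul_le_mul_of_nonneg_right h6 hρ.le
  have h8 : 0 < t * ‖z‖ ^ 2 := by positivity
  have h9 : t ^ 2 * ‖z‖ ^ 2 / 2 * ρ = (t * ‖z‖ ^ 2) * (t * ρ) / 2 := by ring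
  nlinarith

/-- similarly for comparison with a fixed point -/
lemma eq_of_local_le {y q w : E3} (hw : ‖w‖ = 1)
    (hloc : ∀ᶠ u in 𝓝 w, ‖u‖ = 1 → ⟪y, u⟫ ≤ ⟪q, u⟫) (heq : ⟪y, w⟫ = ⟪q, w⟫) : y = q := by
  by_contra hne
  set z : E3 := y - q with hz
  have hz0 : z ≠ 0 := sub_ne_zero.2 hne
  have hzn : 0 < ‖z‖ := norm_pos_iff.2 hz0
  have hzw : ⟪z, w⟫ = 0 := by
    rw [hz, inner_sub_left, heq, sub_self]
  have hne0 : ∀ t : ℝ, w + t • z ≠ 0 := by
    intro t h0
    have h1 : ⟪w + t • z, w⟫ = 0 := by rw [h0, inner_zero_left]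
    rw [inner_add_left, real_inner_smul_left, hzw, real_inner_self_eq_norm_sq, hw] at h1
    norm_num at h1
  have hcont : Filter.Tendsto (fun t : ℝ => nrm (w + t • z)) (𝓝 0) (𝓝 w) := by
    have h1 : ContinuousAt (fun t : ℝ => nrm (w + t • z)) 0 := by
      have h2 : ContinuousAt (fun t : ℝ => ‖w + t • z‖⁻¹) 0 := by
        apply ContinuousAt.inv₀
        · fun_prop
        · exact norm_ne_zero_iff.2 (hne0 0)
      have h3 : ContinuousAt (fun t : ℝ => w + t • z) 0 := by fun_prop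
      exact h2.smul h3
    have h4 : nrm (w + (0:ℝ) • z) = w := by rw [zero_smul, add_zero, nrm_of_unit hw]
    rw [ContinuousAt, h4] at h1
    exact h1
  have hev := hcont.eventually hloc
  rw [Metric.eventually_nhds_iff] at hev
  obtain ⟨ε, hε, hev⟩ := hev
  have h5 := hev (y := ε / 2) (by rw [Real.dist_eq, sub_zero, abs_of_pos (by linarith)]; linarith)
    (norm_nrm (hne0 _))
  have hnp : 0 < ‖w + (ε / 2) • z‖ := norm_pos_iff.2 (hne0 _)
  rw [nrm, real_inner_smul_right, real_inner_smul_right] at h5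
  have h6 := le_of_mul_le_mul_left h5 (by positivity)
  have h7 : ⟪z, w + (ε / 2) • z⟫ ≤ 0 := by rw [hz, inner_sub_left]; linarith
  rw [inner_add_right, hzw, real_inner_smul_right, real_inner_self_eq_norm_sq] at h7
  have : 0 < ε / 2 * ‖z‖ ^ 2 := by positivity
  linarith

/-- decomposition of a unit vector in a cap into rim vectors -/
lemma exists_rim {e : E3} (he : ‖e‖ = 1) {c : ℝ} (hc0 : 0 < c) (hc1 : c < 1) {u : E3}
    (hu : ‖u‖ = 1) (hcu : c ≤ ⟪u, e⟫) :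
    ∃ u1 u2 : E3, ∃ β1 β2 : ℝ, ‖u1‖ = 1 ∧ ‖u2‖ = 1 ∧ ⟪u1, e⟫ = c ∧ ⟪u2, e⟫ = c ∧
      0 ≤ β1 ∧ 0 ≤ β2 ∧ u = β1 • u1 + β2 • u2 ∧ β1 + β2 = ⟪u, e⟫ / c := by
  have hee : ⟪e, e⟫ = 1 := by rw [real_inner_self_eq_norm_sq, he]; norm_num
  set a := ⟪u, e⟫ with ha
  have ha1 : a ≤ 1 := by
    have := real_inner_le_norm u e
    rwa [hu, he, mul_one] at this
  set v : E3 := u - a • e with hv
  have hvn : ‖v‖ ^ 2 = 1 - a ^ 2 := by
    rw [hv, norm_sub_sq_real, hu, norm_smul, he, real_inner_smul_right, ← ha, Real.norm_eq_abs,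
      mul_one, sq_abs]
    ring
  have hve : ⟪v, e⟫ = 0 := by
    rw [hv, inner_sub_left, real_inner_smul_left, hee, ← ha]; ring
  obtain ⟨w, hw1, hw2, hvw⟩ : ∃ w : E3, ‖w‖ = 1 ∧ ⟪w, e⟫ = 0 ∧ v = ‖v‖ • w := by
    rcases eq_or_ne v 0 with h0 | h0
    · obtain ⟨w, hw1, hw2⟩ := exists_perp e
      exact ⟨w, hw1, hw2, by rw [h0]; simp⟩
    · refine ⟨nrm v, norm_nrm h0, ?_, (smul_nrm v).symm⟩
      rw [nrm, real_inner_smul_left, hve, mul_zero]
  set σ : ℝ := Real.sqrt (1 - c ^ 2) with hσ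
  have hσ2 : σ ^ 2 = 1 - c ^ 2 := Real.sq_sqrt (by nlinarith)
  have hσ0 : 0 < σ := Real.sqrt_pos.2 (by nlinarith)
  have hvσ : ‖v‖ ≤ σ := by
    apply le_of_sq_le_sq _ hσ0.le
    rw [hvn, hσ2]
    nlinarith
  have hnorm : ∀ τ : ℝ, τ ^ 2 = σ ^ 2 → ‖c • e + τ • w‖ = 1 := by
    intro τ hτ
    have h1 : ‖c • e + τ • w‖ ^ 2 = 1 := by
      rw [norm_add_sq_real, norm_smul, norm_smul, he, hw1, real_inner_smul_left,
        real_inner_smul_right, real_inner_comm, hw2, Real.norm_eq_abs, Real.norm_eq_abs,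
        mul_one, mul_one, sq_abs, sq_abs, hτ, hσ2]
      ring
    have h2 := norm_nonneg (c • e + τ • w)
    nlinarith
  have hin : ∀ τ : ℝ, ⟪c • e + τ • w, e⟫ = c := by
    intro τ
    rw [inner_add_left, real_inner_smul_left, real_inner_smul_left, hee, hw2]; ring
  have h1 : 1 ≤ a / c := by rw [le_div_iff₀ hc0]; linarith
  have h2 : ‖v‖ / σ ≤ 1 := by rw [div_le_one hσ0]; exact hvσ
  have h3 : 0 ≤ ‖v‖ / σ := by positivity
  refine ⟨c • e + σ • w, c • e + (-σ) • w, (a / c + ‖v‖ / σ) / 2, (a / c - ‖v‖ / σ) / 2,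
    hnorm _ rfl, hnorm _ (by ring), hin _, hin _, by linarith, by linarith, ?_, by ring⟩
  have h4 : u = a • e + ‖v‖ • w := by rw [← hvw, hv]; abel
  have e1 : (a / c + ‖v‖ / σ) / 2 * c + (a / c - ‖v‖ / σ) / 2 * c = a := by field_simp; ring
  have e2 : (a / c + ‖v‖ / σ) / 2 * σ + (a / c - ‖v‖ / σ) / 2 * (-σ) = ‖v‖ := by
    field_simp; ring
  conv_lhs => rw [h4, ← e1, ← e2]
  module

namespace Patch

variable {K : Set E3} {r R ρ κ : ℝ} {e : E3}

lemma neg (p : Patch K r R ρ κ e) : Patch K r R ρ κ (-e) :=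
  ⟨p.b, by rw [norm_neg]; exact p.unit, p.ρpos, p.ball, p.κpos, p.κle, fun u hu h =>
    p.cap u hu (by rwa [inner_neg_right, abs_neg] at h)⟩

lemma bρ (p : Patch K r R ρ κ e) : Body K ρ R :=
  ⟨p.b.compact, p.b.convex, p.ρpos, p.ball, p.b.sub_ball⟩

lemma le_hs (p : Patch K r R ρ κ e) {u : E3} (hu : ‖u‖ = 1) : ρ ≤ hs K u :=
  p.bρ.le_hs_unit hu

variable {c : ℝ}

lemma sub_bump (p : Patch K r R ρ κ e) : K ⊆ Bump K e c :=
  fun _ hx u _ _ => inner_le_hs p.b.compact hx u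

lemma cpos (p : Patch K r R ρ κ e) (hc : 1 - κ < c) : 0 < c := by
  have := p.κle
  linarith

lemma q_mem (p : Patch K r R ρ κ e) (hc : 1 - κ < c) : (ρ / c) • e ∈ Bump K e c := by
  intro u hu hue
  have hc0 := p.cpos hc
  rw [real_inner_smul_left, real_inner_comm]
  refine le_trans ?_ (p.le_hs hu)
  have h1 : ⟪u, e⟫ ≤ c := (le_abs_self _).trans hue
  have := p.ρpos
  calc ρ / c * ⟪u, e⟫ ≤ ρ / c * c := mul_le_mul_of_nonneg_left h1 (by positivity)
    _ = ρ := by field_simp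

lemma le_cap (p : Patch K r R ρ κ e) (hc : 1 - κ < c) (hc1 : c < 1) {x u : E3}
    (hx : x ∈ Bump K e c) (hu : ‖u‖ = 1) (hcu : c ≤ ⟪u, e⟫) : ⟪x, u⟫ ≤ ρ / c * ⟪u, e⟫ := by
  have hc0 := p.cpos hc
  obtain ⟨u1, u2, β1, β2, h1, h2, h3, h4, h5, h6, h7, h8⟩ := exists_rim p.unit hc0 hc1 hu hcu
  have k1 : ⟪x, u1⟫ ≤ ρ := by
    have := hx u1 h1 (by rw [h3, abs_of_pos hc0])
    rwa [p.cap u1 h1 (by rw [h3, abs_of_pos hc0]; exact hc)] at this
  have k2 : ⟪x, u2⟫ ≤ ρ := by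
    have := hx u2 h2 (by rw [h4, abs_of_pos hc0])
    rwa [p.cap u2 h2 (by rw [h4, abs_of_pos hc0]; exact hc)] at this
  have k3 : ⟪x, u⟫ = β1 * ⟪x, u1⟫ + β2 * ⟪x, u2⟫ := by
    rw [h7, inner_add_right, real_inner_smul_right, real_inner_smul_right]
  have k4 := mul_le_mul_of_nonneg_left k1 h5
  have k5 := mul_le_mul_of_nonneg_left k2 h6
  have k6 : ρ / c * ⟪u, e⟫ = (β1 + β2) * ρ := by rw [h8]; ring
  rw [k3, k6]
  linarith

lemma le_cap_abs (p : Patch K r R ρ κ e) (hc : 1 - κ < c) (hc1 : c < 1) {x u : E3}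
    (hx : x ∈ Bump K e c) (hu : ‖u‖ = 1) (hcu : c ≤ |⟪u, e⟫|) :
    ⟪x, u⟫ ≤ ρ / c * |⟪u, e⟫| := by
  rcases le_total 0 (⟪u, e⟫) with h | h
  · rw [abs_of_nonneg h] at hcu ⊢
    exact p.le_cap hc hc1 hx hu hcu
  · rw [abs_of_nonpos h] at hcu ⊢
    have := p.neg.le_cap hc hc1 (x := x) (u := u) (by rw [bump_neg]; exact hx) hu
      (by rw [inner_neg_right]; exact hcu)
    rwa [inner_neg_right] at this

lemma abs_inner_le (p : Patch K r R ρ κ e) {u : E3} (hu : ‖u‖ = 1) : |⟪u, e⟫| ≤ 1 := by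
  have := abs_real_inner_le_norm u e
  rwa [hu, p.unit, mul_one] at this

/-- The bumped set is close to `K`. -/
lemma bump_sub (p : Patch K r R ρ κ e) (hc : 1 - κ < c) (hc1 : c < 1) :
    Bump K e c ⊆ c⁻¹ • K := by
  have hc0 := p.cpos hc
  intro x hx
  refine ⟨c • x, ?_, ?_⟩
  · rw [p.b.mem_iff]
    intro u hu
    rw [real_inner_smul_left]
    have hh := p.le_hs hu
    have hρ := p.ρpos
    rcases le_total (|⟪u, e⟫|) c with h | h
    · have h1 := hx u hu h
      have h2 : c * ⟪x, u⟫ ≤ c * hs K u := mul_le_mul_of_nonneg_left h1 hc0.le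
      nlinarith
    · have h1 := p.le_cap_abs hc hc1 hx hu h
      have h2 : ρ / c * |⟪u, e⟫| ≤ ρ / c * 1 :=
        mul_le_mul_of_nonneg_left (p.abs_inner_le hu) (by positivity)
      have h3 : c * ⟪x, u⟫ ≤ c * (ρ / c * 1) := mul_le_mul_of_nonneg_left (h1.trans h2) hc0.le
      have h4 : c * (ρ / c * 1) = ρ := by field_simp
      linarith
  · simp only [smul_smul]
    rw [inv_mul_cancel₀ hc0.ne', one_smul]

lemma body_bump (p : Patch K r R ρ κ e) (hc : 1 - κ < c) (hc1 : c < 1) :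
    Body (Bump K e c) r (c⁻¹ * R) := by
  have hc0 := p.cpos hc
  have hsub : Bump K e c ⊆ closedBall 0 (c⁻¹ * R) := by
    intro x hx
    obtain ⟨z, hz, rfl⟩ := p.bump_sub hc hc1 hx
    rw [mem_closedBall_zero_iff]
    simp only
    rw [norm_smul, Real.norm_eq_abs, abs_of_pos (by positivity)]
    exact mul_le_mul_of_nonneg_left (p.b.norm_le hz) (by positivity)
  have hclosed : IsClosed (Bump K e c) := by
    have : Bump K e c = ⋂ u : E3, ⋂ _ : ‖u‖ = 1, ⋂ _ : |⟪u, e⟫| ≤ c,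
        {y : E3 | ⟪y, u⟫ ≤ hs K u} := by
      ext y; simp [Bump]
    rw [this]
    apply isClosed_iInter; intro u
    apply isClosed_iInter; intro _
    apply isClosed_iInter; intro _
    exact isClosed_le (by fun_prop) (by fun_prop)
  refine ⟨(isCompact_closedBall _ _).of_isClosed_subset hclosed hsub, ?_, p.b.rpos,
    p.b.ball_sub.trans p.sub_bump, hsub⟩
  intro x hx y hy s t hs' ht hst u hu hue
  rw [inner_add_left, real_inner_smul_left, real_inner_smul_left]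
  calc _ ≤ s * hs K u + t * hs K u :=
        add_le_add (mul_le_mul_of_nonneg_left (hx u hu hue) hs')
          (mul_le_mul_of_nonneg_left (hy u hu hue) ht)
    _ = hs K u := by rw [← add_mul, hst, one_mul]

lemma hs_bump_low (p : Patch K r R ρ κ e) (hc : 1 - κ < c) (hc1 : c < 1) {u : E3}
    (hu : ‖u‖ = 1) (h : |⟪u, e⟫| ≤ c) : hs (Bump K e c) u = hs K u := by
  have bb := p.body_bump hc hc1
  apply le_antisymm
  · exact hs_le bb.nonempty fun x hx => hx u hu h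
  · exact hs_mono bb.compact p.b.nonempty p.sub_bump u

lemma hs_bump_high (p : Patch K r R ρ κ e) (hc : 1 - κ < c) (hc1 : c < 1) {u : E3}
    (hu : ‖u‖ = 1) (h : c ≤ |⟪u, e⟫|) : hs (Bump K e c) u = ρ / c * |⟪u, e⟫| := by
  have bb := p.body_bump hc hc1
  apply le_antisymm
  · exact hs_le bb.nonempty fun x hx => p.le_cap_abs hc hc1 hx hu h
  · rcases le_total 0 (⟪u, e⟫) with h0 | h0
    · have := inner_le_hs bb.compact (p.q_mem hc) u
      rw [real_inner_smul_left, real_inner_comm] at this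
      rwa [abs_of_nonneg h0]
    · have h1 := p.neg.q_mem hc
      rw [bump_neg] at h1
      have := inner_le_hs bb.compact h1 u
      rw [real_inner_smul_left, real_inner_comm, inner_neg_right] at this
      rwa [abs_of_nonpos h0]

/-- connectivity is preserved -/
theorem CH_bump (p : Patch K r R ρ κ e) (hC : CH K) (hc : 1 - κ < c) (hc1 : c < 1) :
    CH (Bump K e c) := by
  have hc0 := p.cpos hc
  have hρ := p.ρpos
  intro t
  rcases le_or_gt t ρ with ht | ht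
  · have : subl (Bump K e c) t = ∅ := by
      ext u
      simp only [subl, Set.mem_ofPred_eq, mem_empty_iff_false, iff_false, not_and, not_lt]
      intro hu
      refine ht.trans ((p.le_hs hu).trans ?_)
      exact hs_mono (p.body_bump hc hc1).compact p.b.nonempty p.sub_bump u
    rw [this]
    exact isPreconnected_empty
  · set bb : ℝ := t * c / ρ with hbb
    have hcb : c < bb := by
      rw [hbb, lt_div_iff₀ hρ]; nlinarith
    have hset : subl (Bump K e c) t =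
        (subl K t ∩ {u | ⟪u, e⟫ < bb}) ∩ {u | ⟪u, -e⟫ < bb} := by
      ext u
      simp only [subl, Set.mem_ofPred_eq, mem_inter_iff, inner_neg_right]
      constructor
      · rintro ⟨hu, h1⟩
        have h2 : hs K u < t := lt_of_le_of_lt
          (hs_mono (p.body_bump hc hc1).compact p.b.nonempty p.sub_bump u) h1
        have h3 : |⟪u, e⟫| < bb := by
          rcases le_total (|⟪u, e⟫|) c with h | h
          · exact h.trans_lt hcb
          · rw [p.hs_bump_high hc hc1 hu h] at h1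
            rw [hbb, lt_div_iff₀ hρ]
            rw [div_mul_eq_mul_div, div_lt_iff₀ hc0] at h1
            linarith
        rw [abs_lt] at h3
        exact ⟨⟨⟨hu, h2⟩, h3.2⟩, by linarith⟩
      · rintro ⟨⟨⟨hu, h1⟩, h2⟩, h3⟩
        refine ⟨hu, ?_⟩
        have h4 : |⟪u, e⟫| < bb := abs_lt.2 ⟨by linarith, h2⟩
        rcases le_total (|⟪u, e⟫|) c with h | h
        · rw [p.hs_bump_low hc hc1 hu h]; exact h1
        · rw [p.hs_bump_high hc hc1 hu h, div_mul_eq_mul_div, div_lt_iff₀ hc0]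
          rw [hbb, lt_div_iff₀ hρ] at h4
          linarith
    have ha : 0 ≤ 1 - κ := by have := p.κle; linarith
    have hcapS : ∀ u : E3, ‖u‖ = 1 → 1 - κ < |⟪u, e⟫| → u ∈ subl K t := fun u hu h =>
      ⟨hu, by rw [p.cap u hu h]; exact ht⟩
    have h1 := IsPreconnected.remove_cap (hC t) p.unit ha (hc.trans hcb) (fun u hu => hu.1)
      (fun u hu h => hcapS u hu (h.trans_le (le_abs_self _)))
    have h2 := IsPreconnected.remove_cap h1 p.neg.unit ha (hc.trans hcb) (fun u hu => hu.1.1)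
      (fun u hu h => by
        rw [inner_neg_right] at h
        refine ⟨hcapS u hu (h.trans_le (neg_le_abs _)), ?_⟩
        change ⟪u, e⟫ < bb
        linarith)
    rw [hset]
    exact h2

end Patch

end MP2b501e
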