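import Pool.Agent.Lib_2b501e.Bump

open MeasureTheory Metric Set
open scoped RealInnerProductSpace Topology Pointwise

namespace MP2b501e

/-- the ball with one conical bump -/
def Jset (ρ : ℝ) (e : E3) (c : ℝ) : Set E3 := {x | ∀ u : E3, ‖u‖ = 1 → ⟪u, e⟫ ≤ c → ⟪x, u⟫ ≤ ρ}

/-- the bump itself -/
def Jb (ρ : ℝ) (e : E3) (c : ℝ) : Set E3 := Jset ρ e c \ closedBall 0 ρ

lemma isClosed_jset (ρ : ℝ) (e : E3) (c : ℝ) : IsClosed (Jset ρ e c) := by
  have : Jset ρ e c = ⋂ u : E3, ⋂ _ : ‖u‖ = 1, ⋂ _ : ⟪u, e⟫ ≤ c, {y : E3 | ⟪y, u⟫ ≤ ρ} := by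
    ext y; simp [Jset]
  rw [this]
  apply isClosed_iInter; intro u
  apply isClosed_iInter; intro _
  apply isClosed_iInter; intro _
  exact isClosed_le (by fun_prop) (by fun_prop)

lemma measurableSet_jb (ρ : ℝ) (e : E3) (c : ℝ) : MeasurableSet (Jb ρ e c) :=
  (isClosed_jset ρ e c).measurableSet.diff isClosed_closedBall.measurableSet

lemma mem_jb_neg {ρ : ℝ} {e : E3} {c : ℝ} {x : E3} : x ∈ Jb ρ (-e) c ↔ -x ∈ Jb ρ e c := by
  simp only [Jb, Jset, mem_sdiff, Set.mem_ofPred_eq, mem_closedBall_zero_iff, norm_neg]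
  constructor
  · rintro ⟨h1, h2⟩
    refine ⟨fun u hu hue => ?_, h2⟩
    have := h1 (-u) (by rwa [norm_neg]) (by rwa [inner_neg_neg])
    rwa [inner_neg_right, ← inner_neg_left] at this
  · rintro ⟨h1, h2⟩
    refine ⟨fun u hu hue => ?_, h2⟩
    have := h1 (-u) (by rwa [norm_neg]) (by rwa [inner_neg_left, ← inner_neg_right])
    rwa [inner_neg_neg] at this

lemma jb_inner {ρ : ℝ} (hρ : 0 < ρ) {e : E3} {c : ℝ} {x : E3} (hx : x ∈ Jb ρ e c) :
    x ≠ 0 ∧ c < ⟪nrm x, e⟫ := by
  have hxn : ρ < ‖x‖ := by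
    have := hx.2
    rw [mem_closedBall_zero_iff, not_le] at this
    exact this
  have hx0 : x ≠ 0 := by rintro rfl; rw [norm_zero] at hxn; linarith
  refine ⟨hx0, ?_⟩
  by_contra hcon
  have := hx.1 (nrm x) (norm_nrm hx0) (not_lt.1 hcon)
  rw [nrm, real_inner_smul_right, real_inner_self_eq_norm_sq] at this
  have hn : 0 < ‖x‖ := norm_pos_iff.2 hx0
  have h2 : ‖x‖⁻¹ * ‖x‖ ^ 2 = ‖x‖ := by field_simp
  linarith

namespace Patch

variable {K : Set E3} {r R ρ κ : ℝ} {e : E3} {c : ℝ}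

lemma jb_sub (p : Patch K r R ρ κ e) (hc : 1 - κ < c) : Jb ρ e c ⊆ Bump K e c \ K := by
  intro x hx
  have hc0 := p.cpos hc
  have hρ := p.ρpos
  obtain ⟨hx0, hxe⟩ := jb_inner hρ hx
  constructor
  · intro u hu hue
    exact (hx.1 u hu ((le_abs_self _).trans hue)).trans (p.le_hs hu)
  · intro hxK
    have h1 := inner_le_hs p.b.compact hxK (nrm x)
    rw [p.cap (nrm x) (norm_nrm hx0) (by
      rw [abs_of_pos (by linarith)]; linarith)] at h1
    rw [nrm, real_inner_smul_right, real_inner_self_eq_norm_sq] at h1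
    have hn : 0 < ‖x‖ := norm_pos_iff.2 hx0
    have h2 : ‖x‖⁻¹ * ‖x‖ ^ 2 = ‖x‖ := by field_simp
    have h3 := hx.2
    rw [mem_closedBall_zero_iff] at h3
    apply h3
    linarith

/-- local patch: support function near a cap direction -/
lemma eventually_cap (p : Patch K r R ρ κ e) {w : E3} (hw : 1 - κ < |⟪w, e⟫|) :
    ∀ᶠ u in 𝓝 w, ‖u‖ = 1 → hs K u = ρ := by
  have hcont : Continuous fun u : E3 => |⟪u, e⟫| := by fun_prop
  have := hcont.continuousAt.eventually (eventually_gt_nhds hw)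
  filter_upwards [this] with u hu hu1
  exact p.cap u hu1 hu

lemma face_cap (p : Patch K r R ρ κ e) {w y : E3} (hwn : ‖w‖ = 1) (hw : 1 - κ < |⟪w, e⟫|)
    (hy : y ∈ K) (heq : ⟪y, w⟫ = hs K w) : y = ρ • w := by
  apply eq_of_local_max hwn p.ρpos
  · filter_upwards [p.eventually_cap hw] with u hu hu1
    rw [← hu hu1]
    exact inner_le_hs p.b.compact hy u
  · rw [heq, p.cap w hwn hw]

lemma mem_jb_of (p : Patch K r R ρ κ e) (hc : 1 - κ < c) (_hc1 : c < 1) {x w : E3} {c' : ℝ}
    (hx : x ∈ Bump K e c) (hc'0 : 0 < c') (hc'1 : c' < 1) (hc'x : c' • x ∈ frontier K)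
    (hw : ‖w‖ = 1) (hn : hs K w = ⟪c' • x, w⟫) (hwe : c < ⟪w, e⟫) : x ∈ Jb ρ e c := by
  have hc0 := p.cpos hc
  have hρ := p.ρpos
  have hwe' : 1 - κ < |⟪w, e⟫| := by rw [abs_of_pos (by linarith)]; linarith
  have h1 : c' • x = ρ • w := p.face_cap hw hwe' (p.b.frontier_subset hc'x) hn.symm
  have hxw : x = (ρ / c') • w := by
    rw [div_eq_inv_mul, mul_smul, ← h1, smul_smul, inv_mul_cancel₀ hc'0.ne', one_smul]
  have hρc : ρ < ρ / c' := by rw [lt_div_iff₀ hc'0]; nlinarith
  have hww : ⟪w, w⟫ = 1 := by rw [real_inner_self_eq_norm_sq, hw]; norm_num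
  have hxw2 : ⟪x, w⟫ = ρ / c' := by rw [hxw, real_inner_smul_left, hww, mul_one]
  constructor
  · intro u hu hue
    by_contra hcon
    rw [not_le] at hcon
    -- the segment from w to u
    have hseg : ∀ l ∈ Icc (0:ℝ) 1, ρ < ⟪x, seg w u l⟫ := by
      intro l hl
      simp only [seg, inner_add_right, real_inner_smul_right, hxw2]
      rcases eq_or_lt_of_le hl.1 with h | h
      · rw [← h]; linarith
      · have e1 : l * ρ < l * ⟪x, u⟫ := mul_lt_mul_of_pos_left hcon h
        have e2 : (1 - l) * ρ ≤ (1 - l) * (ρ / c') :=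
          mul_le_mul_of_nonneg_left hρc.le (sub_nonneg.2 hl.2)
        linarith
    have hsegn : ∀ l ∈ Icc (0:ℝ) 1, ‖seg w u l‖ ≤ 1 := by
      intro l hl
      simp only [seg]
      refine (norm_add_le _ _).trans ?_
      rw [norm_smul, norm_smul, hw, hu, Real.norm_eq_abs, Real.norm_eq_abs,
        abs_of_nonneg (sub_nonneg.2 hl.2), abs_of_nonneg hl.1]
      linarith
    have hg : Continuous fun l => ⟪seg w u l, e⟫ - c * ‖seg w u l‖ := by
      have := continuous_seg w u
      fun_prop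
    have hIVT := intermediate_value_Icc' (zero_le_one' ℝ) hg.continuousOn
    obtain ⟨l, hl, hl0⟩ := hIVT (show (0:ℝ) ∈ _ by
      simp only [seg_zero, seg_one, hw, hu]
      constructor <;> linarith)
    simp only at hl0
    have hz0 : seg w u l ≠ 0 := by
      intro h0
      have := hseg l hl
      rw [h0, inner_zero_right] at this
      linarith
    have hzn : 0 < ‖seg w u l‖ := norm_pos_iff.2 hz0
    have h2 : ⟪nrm (seg w u l), e⟫ = c := by
      rw [nrm, real_inner_smul_left, inv_mul_eq_iff_eq_mul₀ hzn.ne']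
      linarith
    have h3 := hx (nrm (seg w u l)) (norm_nrm hz0) (by rw [h2, abs_of_pos hc0])
    rw [p.cap _ (norm_nrm hz0) (by rw [h2, abs_of_pos hc0]; exact hc), nrm,
      real_inner_smul_right, inv_mul_le_iff₀ hzn] at h3
    have h4 := hseg l hl
    have h5 := hsegn l hl
    have h6 : ‖seg w u l‖ * ρ ≤ 1 * ρ := mul_le_mul_of_nonneg_right h5 hρ.le
    linarith
  · rw [mem_closedBall_zero_iff, hxw, norm_smul, hw, mul_one, Real.norm_eq_abs,
      abs_of_pos (by positivity), not_le]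
    exact hρc

lemma bump_diff (p : Patch K r R ρ κ e) (hc : 1 - κ < c) (hc1 : c < 1) :
    Bump K e c \ K = Jb ρ e c ∪ Jb ρ (-e) c := by
  apply Subset.antisymm
  · rintro x ⟨hx, hxK⟩
    obtain ⟨c', hc'0, hc'1, hc'x⟩ := p.b.not_mem_exists hxK
    obtain ⟨w, hw, hn⟩ := p.b.exists_normal hc'x
    have hpos : 0 < hs K w := p.b.hs_pos (by rintro rfl; simp at hw)
    have hbig : c < |⟪w, e⟫| := by
      by_contra hcon
      have h1 := hx w hw (not_lt.1 hcon)
      rw [hn, real_inner_smul_left] at h1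
      rw [hn, real_inner_smul_left] at hpos
      have h2 : 0 < ⟪x, w⟫ := pos_of_mul_pos_right hpos hc'0.le
      nlinarith
    rcases le_total 0 (⟪w, e⟫) with h | h
    · left
      rw [abs_of_nonneg h] at hbig
      exact p.mem_jb_of hc hc1 hx hc'0 hc'1 hc'x hw hn hbig
    · right
      rw [abs_of_nonpos h, ← inner_neg_right] at hbig
      exact p.neg.mem_jb_of hc hc1 (by rw [bump_neg]; exact hx) hc'0 hc'1 hc'x hw hn hbig
  · apply union_subset (p.jb_sub hc)
    have := p.neg.jb_sub hc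
    rwa [bump_neg] at this

/-- the first moment stays zero -/
theorem mom_bump (p : Patch K r R ρ κ e) (hm : mom K = 0) (hc : 1 - κ < c) (hc1 : c < 1) :
    mom (Bump K e c) = 0 := by
  have bb := p.body_bump hc hc1
  have hρ := p.ρpos
  have h1 := mom_sdiff (p.sub_bump (c := c)) p.b.measurableSet bb.bounded
  rw [hm, sub_zero, p.bump_diff hc hc1] at h1
  rw [← h1]
  have hdisj : Disjoint (Jb ρ e c) (Jb ρ (-e) c) := by
    rw [Set.disjoint_left]
    intro x hx hx'
    have h2 := (jb_inner hρ hx).2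
    have h3 := (jb_inner hρ hx').2
    rw [inner_neg_right] at h3
    have := p.cpos hc
    linarith
  have hb1 : Bornology.IsBounded (Jb ρ e c) :=
    bb.bounded.subset ((p.jb_sub hc).trans sdiff_subset)
  have hb2 : Bornology.IsBounded (Jb ρ (-e) c) := by
    have := p.neg.jb_sub hc
    rw [bump_neg] at this
    exact bb.bounded.subset (this.trans sdiff_subset)
  have h4 : mom (Jb ρ e c ∪ Jb ρ (-e) c) = mom (Jb ρ e c) + mom (Jb ρ (-e) c) :=
    setIntegral_union hdisj (measurableSet_jb _ _ _) (integrableOn_id' hb1) (integrableOn_id' hb2)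
  have h5 : Jb ρ (-e) c = (LinearIsometryEquiv.neg ℝ (E := E3)) '' (Jb ρ e c) := by
    ext x
    rw [mem_jb_neg]
    constructor
    · intro h; exact ⟨-x, h, by simp⟩
    · rintro ⟨y, hy, rfl⟩; simpa using hy
  have h6 : mom (Jb ρ (-e) c) = -mom (Jb ρ e c) := by
    rw [h5, mom, (LinearIsometryEquiv.neg ℝ (E := E3)).measurePreserving.setIntegral_image_emb
      (LinearIsometryEquiv.neg ℝ (E := E3)).toHomeomorph.measurableEmbedding, mom,
      ← integral_neg]
    rfl
  rw [h4, h6, add_neg_cancel]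

/-- old exposed non-equilibrium points persist -/
theorem exp_bump (p : Patch K r R ρ κ e) (hc : 1 - κ < c) (hc1 : c < 1) {u x : E3}
    (h : Exp K u x) : Exp (Bump K e c) u x := by
  have hρ := p.ρpos
  have hue : |⟪u, e⟫| ≤ 1 - κ := by
    by_contra hcon
    rw [not_le] at hcon
    have h1 := p.face_cap h.unit hcon h.mem (h.hs_eq p.b).symm
    have h2 : ⟪x, u⟫ = ρ := by
      rw [← h.hs_eq p.b]; exact p.cap u h.unit hcon
    apply h.ne
    rw [h2]; exact h1
  have huc : |⟪u, e⟫| < c := by linarith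
  refine ⟨h.unit, p.sub_bump h.mem, fun y hy hyx => ?_, h.ne⟩
  have h1 := hy u h.unit huc.le
  rw [h.hs_eq p.b] at h1
  refine lt_of_le_of_ne h1 fun heq => ?_
  by_cases hyK : y ∈ K
  · exact absurd (h.lt y hyK hyx) (not_lt.2 heq.ge)
  · have h2 : y ∈ Jb ρ e c ∪ Jb ρ (-e) c := by
      rw [← p.bump_diff hc hc1]; exact ⟨hy, hyK⟩
    have hge : ρ ≤ ⟪y, u⟫ := by
      rw [heq, ← h.hs_eq p.b]; exact p.le_hs h.unit
    have key : ∀ f : E3, ⟪u, f⟫ < c → y ∈ Jb ρ f c → False := by
      intro f hf hyf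
      have h3 : ⟪y, u⟫ = ρ := le_antisymm (hyf.1 u h.unit hf.le) hge
      have h4 : y = ρ • u := by
        apply eq_of_local_max h.unit hρ _ h3
        have hcont : Continuous fun v : E3 => ⟪v, f⟫ := by fun_prop
        filter_upwards [hcont.continuousAt.eventually (eventually_lt_nhds hf)] with v hv hv1
        exact hyf.1 v hv1 hv.le
      apply hyf.2
      rw [mem_closedBall_zero_iff, h4, norm_smul, h.unit, mul_one, Real.norm_eq_abs,
        abs_of_pos hρ]
    rcases h2 with h2 | h2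
    · exact key e ((le_abs_self _).trans_lt huc) h2
    · exact key (-e) (by rw [inner_neg_right]; exact (neg_le_abs _).trans_lt huc) h2

/-- new exposed non-equilibrium point at the tip of the bump -/
theorem exp_tip (p : Patch K r R ρ κ e) (hc : 1 - κ < c) (hc1 : c < 1) :
    ∃ u, Exp (Bump K e c) u ((ρ / c) • e) := by
  have hρ := p.ρpos
  have hc0 := p.cpos hc
  have hee : ⟪e, e⟫ = 1 := by rw [real_inner_self_eq_norm_sq, p.unit]; norm_num
  obtain ⟨w, hw1, hw2⟩ := exists_perp e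
  set a : ℝ := (1 + c) / 2 with ha
  have ha0 : 0 < a := by linarith
  have ha1 : a < 1 := by linarith
  have hac : c < a := by linarith
  set u : E3 := a • e + Real.sqrt (1 - a ^ 2) • w with hu
  have hsq : 0 ≤ 1 - a ^ 2 := by nlinarith
  have hun : ‖u‖ = 1 := by
    have h1 : ‖u‖ ^ 2 = 1 := by
      rw [hu, norm_add_sq_real, norm_smul, norm_smul, p.unit, hw1, real_inner_smul_left,
        real_inner_smul_right, real_inner_comm, hw2, Real.norm_eq_abs, Real.norm_eq_abs,
        mul_one, mul_one, sq_abs, sq_abs, Real.sq_sqrt hsq]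
      ring
    have h2 := norm_nonneg u
    nlinarith
  have hue : ⟪u, e⟫ = a := by
    rw [hu, inner_add_left, real_inner_smul_left, real_inner_smul_left, hee, hw2]; ring
  have hqu : ⟪(ρ / c) • e, u⟫ = ρ / c * a := by
    rw [real_inner_smul_left, real_inner_comm, hue]
  refine ⟨u, hun, p.q_mem hc, fun y hy hyq => ?_, ?_⟩
  · rw [hqu]
    have h1 := p.le_cap hc hc1 hy hun (by rw [hue]; exact hac.le)
    rw [hue] at h1
    refine lt_of_le_of_ne h1 fun heq => hyq ?_
    apply eq_of_local_le hun _ (by rw [heq, hqu])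
    have hcont : Continuous fun v : E3 => ⟪v, e⟫ := by fun_prop
    have : c < ⟪u, e⟫ := by rw [hue]; exact hac
    filter_upwards [hcont.continuousAt.eventually (eventually_gt_nhds this)] with v hv hv1
    rw [real_inner_smul_left, real_inner_comm v e]
    exact p.le_cap hc hc1 hy hv1 hv.le
  · intro heq
    rw [hqu] at heq
    have h1 := congrArg (fun v => ⟪v, e⟫) heq
    simp only [real_inner_smul_left, hee, hue, mul_one] at h1
    have h2 : ρ / c * a * a < ρ / c := by
      have h3 : 0 < ρ / c := by positivity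
      have h4 : a * a < 1 := by nlinarith
      nlinarith
    linarith

/-- missing directions after bumping -/
theorem miss_bump (p : Patch K r R ρ κ e) (hc : 1 - κ < c) (hc1 : c < 1) {f : E3}
    (hf : Miss (Bump K e c) f) : Miss K f ∧ ⟪f, e⟫ = 0 := by
  have hρ := p.ρpos
  have hc0 := p.cpos hc
  refine ⟨fun u x h => hf u x (p.exp_bump hc hc1 h), ?_⟩
  obtain ⟨u, hu⟩ := p.exp_tip hc hc1
  obtain ⟨v, hv⟩ := p.neg.exp_tip hc hc1
  rw [bump_neg] at hv
  have h1 := hf _ _ hu
  have h2 := hf _ _ hv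
  rw [real_inner_smul_left] at h1 h2
  have h3 : 0 < ρ / c := by positivity
  have h4 : 0 ≤ ⟪e, f⟫ := nonneg_of_mul_nonneg_right h1 h3
  have h5 : 0 ≤ ⟪-e, f⟫ := nonneg_of_mul_nonneg_right h2 h3
  rw [inner_neg_left] at h5
  rw [real_inner_comm]
  linarith

end Patch

end MP2b501e
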