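import Pool.Agent.Lib_2b501e.NT

open MeasureTheory Metric Set
open scoped RealInnerProductSpace Topology Pointwise

namespace MP2b501e

lemma exists_perp (e : E3) : ∃ w : E3, ‖w‖ = 1 ∧ ⟪w, e⟫ = 0 := by
  rcases eq_or_ne e 0 with rfl | he
  · obtain ⟨u, hu⟩ := Body.exists_unit
    exact ⟨u, hu, inner_zero_right _⟩
  · have h1 : Module.finrank ℝ (Submodule.span ℝ {e})ᗮ = 2 := finrank_perp he
    have h2 : Nontrivial (Submodule.span ℝ {e})ᗮ :=
      Module.nontrivial_of_finrank_pos (R := ℝ) (by omega)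
    obtain ⟨⟨w, hw⟩, hw0⟩ := exists_ne (0 : (Submodule.span ℝ {e})ᗮ)
    have hw0' : w ≠ 0 := by
      intro h; apply hw0; ext1; exact h
    refine ⟨nrm w, norm_nrm hw0', ?_⟩
    rw [Submodule.mem_orthogonal_singleton_iff_inner_left] at hw
    rw [nrm, real_inner_smul_left, hw, mul_zero]

lemma isPreconnected_circle {e : E3} (he : e ≠ 0) :
    IsPreconnected {w : E3 | ‖w‖ = 1 ∧ ⟪w, e⟫ = 0} := by
  have h1 : Module.finrank ℝ (Submodule.span ℝ {e})ᗮ = 2 := finrank_perp he
  have h2 : 1 < Module.rank ℝ (Submodule.span ℝ {e})ᗮ := by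
    rw [← Module.finrank_eq_rank, h1]
    norm_num
  have h3 := isPreconnected_sphere h2 (0 : (Submodule.span ℝ {e})ᗮ) 1
  have h4 : {w : E3 | ‖w‖ = 1 ∧ ⟪w, e⟫ = 0} =
      (Subtype.val : (Submodule.span ℝ {e})ᗮ → E3) '' sphere 0 1 := by
    ext w
    constructor
    · rintro ⟨hw1, hw2⟩
      refine ⟨⟨w, ?_⟩, ?_, rfl⟩
      · rw [Submodule.mem_orthogonal_singleton_iff_inner_left]; exact hw2
      · rw [mem_sphere_zero_iff_norm]; exact hw1
    · rintro ⟨⟨v, hv⟩, hv1, rfl⟩
      rw [mem_sphere_zero_iff_norm] at hv1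
      rw [Submodule.mem_orthogonal_singleton_iff_inner_left] at hv
      exact ⟨hv1, hv⟩
  rw [h4]
  exact h3.image _ continuous_subtype_val.continuousOn

lemma isPreconnected_annulus {e : E3} (he : ‖e‖ = 1) {a b : ℝ} (ha : 0 ≤ a) (hb : b ≤ 1) :
    IsPreconnected {u : E3 | ‖u‖ = 1 ∧ a < ⟪u, e⟫ ∧ ⟪u, e⟫ < b} := by
  have he0 : e ≠ 0 := by rintro rfl; simp at he
  have hee : ⟪e, e⟫ = 1 := by rw [real_inner_self_eq_norm_sq, he]; norm_num
  set F : E3 × ℝ → E3 := fun p => p.2 • e + Real.sqrt (1 - p.2 ^ 2) • p.1 with hF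
  have hFc : Continuous F := by
    simp only [hF]
    fun_prop
  have h1 : {u : E3 | ‖u‖ = 1 ∧ a < ⟪u, e⟫ ∧ ⟪u, e⟫ < b} =
      F '' ({w : E3 | ‖w‖ = 1 ∧ ⟪w, e⟫ = 0} ×ˢ Ioo a b) := by
    ext u
    constructor
    · rintro ⟨hu, h2, h3⟩
      set s := ⟪u, e⟫ with hs'
      have hs1 : s ^ 2 < 1 := by nlinarith
      have hsq : 0 < 1 - s ^ 2 := by linarith
      have hsr : 0 < Real.sqrt (1 - s ^ 2) := Real.sqrt_pos.2 hsq
      refine ⟨((Real.sqrt (1 - s ^ 2))⁻¹ • (u - s • e), s), ⟨⟨?_, ?_⟩, ⟨h2, h3⟩⟩, ?_⟩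
      · have h4 : ‖u - s • e‖ ^ 2 = 1 - s ^ 2 := by
          rw [norm_sub_sq_real, hu, norm_smul, he, real_inner_smul_right, ← hs',
            Real.norm_eq_abs, mul_one, sq_abs]
          ring
        have h5 : ‖u - s • e‖ = Real.sqrt (1 - s ^ 2) := by
          rw [← h4, Real.sqrt_sq (norm_nonneg _)]
        simp only
        rw [norm_smul, h5, norm_inv, Real.norm_eq_abs, abs_of_pos hsr, inv_mul_cancel₀ hsr.ne']
      · simp only
        rw [real_inner_smul_left, inner_sub_left, real_inner_smul_left, hee, ← hs']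
        ring
      · simp only [hF, smul_smul]
        rw [mul_inv_cancel₀ hsr.ne', one_smul]
        abel
    · rintro ⟨⟨w, s⟩, ⟨⟨hw1, hw2⟩, hs1, hs2⟩, rfl⟩
      simp only at hs1 hs2 hw1 hw2
      have hsq : 0 ≤ 1 - s ^ 2 := by nlinarith
      have hin : ⟪F (w, s), e⟫ = s := by
        simp only [hF]
        rw [inner_add_left, real_inner_smul_left, real_inner_smul_left, hee, hw2]
        ring
      refine ⟨?_, ?_, ?_⟩
      · have h4 : ‖F (w, s)‖ ^ 2 = 1 := by
          simp only [hF]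
          rw [norm_add_sq_real, norm_smul, norm_smul, he, hw1, real_inner_smul_left,
            real_inner_smul_right, real_inner_comm, hw2, Real.norm_eq_abs, Real.norm_eq_abs,
            mul_one, mul_one, sq_abs, sq_abs, Real.sq_sqrt hsq]
          ring
        have h5 := norm_nonneg (F (w, s))
        nlinarith
      · rw [hin]; exact hs1
      · rw [hin]; exact hs2
  rw [h1]
  exact ((isPreconnected_circle he0).prod isPreconnected_Ioo).image F hFc.continuousOn

/-- removing a closed cap inside an open cap keeps a subset of the sphere connected -/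
lemma IsPreconnected.remove_cap {S : Set E3} (hS : IsPreconnected S) {e : E3}
    (he : ‖e‖ = 1) {a b : ℝ} (ha : 0 ≤ a) (hab : a < b)
    (hSu : ∀ u ∈ S, ‖u‖ = 1) (hcap : ∀ u : E3, ‖u‖ = 1 → a < ⟪u, e⟫ → u ∈ S) :
    IsPreconnected (S ∩ {u | ⟪u, e⟫ < b}) := by
  have hee : ⟪e, e⟫ = 1 := by rw [real_inner_self_eq_norm_sq, he]; norm_num
  rcases lt_or_ge 1 b with hb | hb
  · have : S ∩ {u | ⟪u, e⟫ < b} = S := by
      apply inter_eq_left.2
      intro u hu
      have := real_inner_le_norm u e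
      rw [hSu u hu, he, mul_one] at this
      exact this.trans_lt hb
    rwa [this]
  · rw [isPreconnected_iff_subset_of_disjoint]
    intro U V hU hV hcov hdisj
    set An : Set E3 := {u : E3 | ‖u‖ = 1 ∧ a < ⟪u, e⟫ ∧ ⟪u, e⟫ < b} with hAn
    have hAnS : An ⊆ S ∩ {u | ⟪u, e⟫ < b} := fun u hu => ⟨hcap u hu.1 hu.2.1, hu.2.2⟩
    have hAnc : IsPreconnected An := isPreconnected_annulus he ha hb
    have hAndisj : An ∩ (U ∩ V) = ∅ :=
      subset_empty_iff.1 (hdisj ▸ inter_subset_inter_left _ hAnS)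
    have hlt : IsOpen {u : E3 | ⟪u, e⟫ < b} := isOpen_lt (by fun_prop) continuous_const
    have hgt : IsOpen {u : E3 | a < ⟪u, e⟫} := isOpen_lt continuous_const (by fun_prop)
    have key : ∀ U V : Set E3, IsOpen U → IsOpen V → S ∩ {u | ⟪u, e⟫ < b} ⊆ U ∪ V →
        S ∩ {u | ⟪u, e⟫ < b} ∩ (U ∩ V) = ∅ → An ⊆ U → S ∩ {u | ⟪u, e⟫ < b} ⊆ U := by
      intro U V hU hV hcov hdisj hAnU
      have h1 := isPreconnected_iff_subset_of_disjoint.1 hS
        ((U ∩ {u : E3 | ⟪u, e⟫ < b}) ∪ {u : E3 | a < ⟪u, e⟫}) (V ∩ {u : E3 | ⟪u, e⟫ < b})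
        ((hU.inter hlt).union hgt) (hV.inter hlt) ?_ ?_
      · rcases h1 with h1 | h1
        · intro u hu
          rcases h1 hu.1 with h2 | h2
          · exact h2.1
          · exact hAnU ⟨hSu u hu.1, h2, hu.2⟩
        · exfalso
          have h2 := h1 (hcap e he (by rw [hee]; linarith))
          have h3 : ⟪e, e⟫ < b := h2.2
          rw [hee] at h3
          linarith
      · intro u hu
        by_cases hub : ⟪u, e⟫ < b
        · rcases hcov ⟨hu, hub⟩ with h2 | h2
          · exact Or.inl (Or.inl ⟨h2, hub⟩)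
          · exact Or.inr ⟨h2, hub⟩
        · exact Or.inl (Or.inr (by
            change a < ⟪u, e⟫
            linarith))
      · ext u
        simp only [mem_inter_iff, mem_union, mem_empty_iff_false, iff_false]
        rintro ⟨huS, h2, huV, hub⟩
        have huU : u ∈ U := by
          rcases h2 with h2 | h2
          · exact h2.1
          · exact hAnU ⟨hSu u huS, h2, hub⟩
        have : u ∈ S ∩ {u | ⟪u, e⟫ < b} ∩ (U ∩ V) := ⟨⟨huS, hub⟩, huU, huV⟩
        rw [hdisj] at this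
        exact this
    rcases isPreconnected_iff_subset_of_disjoint.1 hAnc U V hU hV (hAnS.trans hcov) hAndisj
      with h1 | h1
    · exact Or.inl (key U V hU hV hcov hdisj h1)
    · exact Or.inr (key V U hV hU (by rwa [union_comm]) (by rwa [inter_comm V U]) h1)

end MP2b501e
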