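import Pool.Agent.Lib_2b501e.Support

open MeasureTheory Metric Set
open scoped RealInnerProductSpace Topology

namespace MP2b501e

/-- All sublevel sets of the distance to the origin on the boundary are connected (or empty). -/
def CC (K : Set E3) : Prop := ∀ t : ℝ, IsPreconnected {x | x ∈ frontier K ∧ ‖x‖ < t}

/-- sublevel sets of the support function on the unit sphere -/
def subl (K : Set E3) (t : ℝ) : Set E3 := {u | ‖u‖ = 1 ∧ hs K u < t}

/-- All sublevel sets of the support function on the sphere are connected (or empty). -/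
def CH (K : Set E3) : Prop := ∀ t : ℝ, IsPreconnected (subl K t)

/-- joined by a preconnected subset -/
def Jn (S : Set E3) (u v : E3) : Prop := ∃ T ⊆ S, u ∈ T ∧ v ∈ T ∧ IsPreconnected T

lemma Jn.symm {S : Set E3} {u v : E3} (h : Jn S u v) : Jn S v u := by
  obtain ⟨T, h1, h2, h3, h4⟩ := h
  exact ⟨T, h1, h3, h2, h4⟩

lemma Jn.trans {S : Set E3} {u v w : E3} (h : Jn S u v) (h' : Jn S v w) : Jn S u w := by
  obtain ⟨T, h1, h2, h3, h4⟩ := h
  obtain ⟨T', h1', h2', h3', h4'⟩ := h'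
  exact ⟨T ∪ T', union_subset h1 h1', Or.inl h2, Or.inr h3', h4.union v h3 h2' h4'⟩

/-- point of the segment -/
def seg (u v : E3) (l : ℝ) : E3 := (1 - l) • u + l • v

@[simp] lemma seg_zero (u v : E3) : seg u v 0 = u := by simp [seg]
@[simp] lemma seg_one (u v : E3) : seg u v 1 = v := by simp [seg]

lemma continuous_seg (u v : E3) : Continuous (seg u v) := by
  unfold seg
  fun_prop

/-- normalization -/
noncomputable def nrm (w : E3) : E3 := ‖w‖⁻¹ • w

lemma norm_nrm {w : E3} (hw : w ≠ 0) : ‖nrm w‖ = 1 := by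
  have : 0 < ‖w‖ := norm_pos_iff.2 hw
  rw [nrm, norm_smul, norm_inv, norm_norm, inv_mul_cancel₀ this.ne']

lemma nrm_of_unit {w : E3} (hw : ‖w‖ = 1) : nrm w = w := by simp [nrm, hw]

lemma smul_nrm (w : E3) : ‖w‖ • nrm w = w := by
  rcases eq_or_ne w 0 with rfl | hw
  · simp
  · have : 0 < ‖w‖ := norm_pos_iff.2 hw
    rw [nrm, smul_smul, mul_inv_cancel₀ this.ne', one_smul]

lemma jn_of_seg {S : Set E3} {u v : E3} (hu : ‖u‖ = 1) (hv : ‖v‖ = 1)
    (h : ∀ l ∈ Icc (0:ℝ) 1, seg u v l ≠ 0 ∧ nrm (seg u v l) ∈ S) : Jn S u v := by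
  refine ⟨(fun l => nrm (seg u v l)) '' Icc 0 1, ?_, ?_, ?_, ?_⟩
  · rintro _ ⟨l, hl, rfl⟩
    exact (h l hl).2
  · exact ⟨0, by simp, by simp [nrm_of_unit hu]⟩
  · exact ⟨1, by simp, by simp [nrm_of_unit hv]⟩
  · apply isPreconnected_Icc.image
    have h1 : ContinuousOn (fun l => ‖seg u v l‖⁻¹) (Icc 0 1) := by
      apply ContinuousOn.inv₀
      · exact (continuous_seg u v).norm.continuousOn
      · intro l hl
        exact norm_ne_zero_iff.2 (h l hl).1
    exact ContinuousOn.smul h1 (continuous_seg u v).continuousOn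

namespace Body

variable {K : Set E3} {r R : ℝ}

lemma hs_nrm (b : Body K r R) {w : E3} (hw : w ≠ 0) : hs K (nrm w) = hs K w / ‖w‖ := by
  rw [nrm, hs_smul b.compact b.nonempty (by positivity), div_eq_inv_mul]

lemma nrm_mem_subl (b : Body K r R) {w : E3} {t : ℝ} (hw : w ≠ 0) (h : hs K w < t * ‖w‖) :
    nrm w ∈ subl K t := by
  have : 0 < ‖w‖ := norm_pos_iff.2 hw
  refine ⟨norm_nrm hw, ?_⟩
  rw [b.hs_nrm hw, div_lt_iff₀ this]
  exact h

lemma jn_subl (b : Body K r R) {t : ℝ} {u v : E3} (hu : ‖u‖ = 1) (hv : ‖v‖ = 1)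
    (h : ∀ l ∈ Icc (0:ℝ) 1, 0 < ‖seg u v l‖ ∧ hs K (seg u v l) < t * ‖seg u v l‖) :
    Jn (subl K t) u v := by
  apply jn_of_seg hu hv
  intro l hl
  have h1 := h l hl
  have h0 : seg u v l ≠ 0 := norm_pos_iff.1 h1.1
  exact ⟨h0, b.nrm_mem_subl h0 h1.2⟩

lemma hs_seg_le (b : Body K r R) (u v : E3) {l : ℝ} (hl : l ∈ Icc (0:ℝ) 1) :
    hs K (seg u v l) ≤ (1 - l) * hs K u + l * hs K v := by
  have h := hs_add_le b.compact b.nonempty ((1 - l) • u) (l • v)
  rw [hs_smul b.compact b.nonempty (by linarith [hl.2]),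
    hs_smul b.compact b.nonempty hl.1] at h
  exact h

/-- Step: from a direction `u` to a normal at the boundary point in direction `u`. -/
lemma jn_start (b : Body K r R) {t ρ : ℝ} {u w : E3} (hu : ‖u‖ = 1) (hw : ‖w‖ = 1)
    (ht : hs K u < t) (hρ : 0 < ρ) (hx : ρ • u ∈ frontier K) (hn : hs K w = ⟪ρ • u, w⟫) :
    Jn (subl K t) u w := by
  apply b.jn_subl hu hw
  intro l hl
  have hρle : ρ ≤ hs K u := by
    have := inner_le_hs b.compact (b.frontier_subset hx) u
    rwa [real_inner_smul_left, real_inner_self_eq_norm_sq, hu, one_pow, mul_one] at this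
  rw [real_inner_smul_left] at hn
  have hκ : 0 < ⟪u, w⟫ := by
    have := b.hs_pos (u := w) (by rintro rfl; simp at hw)
    rw [hn] at this
    exact pos_of_mul_pos_right this hρ.le
  have hz : ⟪seg u w l, u⟫ = (1 - l) + l * ⟪u, w⟫ := by
    rw [seg, inner_add_left, real_inner_smul_left, real_inner_smul_left,
      real_inner_self_eq_norm_sq, hu, real_inner_comm]
    ring
  have hzpos : 0 < ⟪seg u w l, u⟫ := by
    rw [hz]
    rcases eq_or_lt_of_le hl.1 with h | h
    · rw [← h]; norm_num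
    · have := mul_pos h hκ
      linarith [hl.2]
  have hzn : ⟪seg u w l, u⟫ ≤ ‖seg u w l‖ := by
    have := real_inner_le_norm (seg u w l) u
    rwa [hu, mul_one] at this
  have hn0 : 0 < ‖seg u w l‖ := hzpos.trans_le hzn
  refine ⟨hn0, ?_⟩
  have h1 := b.hs_seg_le u w hl
  have hupos : 0 < hs K u := b.hs_pos (by rintro rfl; simp at hu)
  calc hs K (seg u w l) ≤ (1 - l) * hs K u + l * (ρ * ⟪u, w⟫) := by rw [← hn]; exact h1
    _ ≤ (1 - l) * hs K u + l * (hs K u * ⟪u, w⟫) := by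
        have := mul_le_mul_of_nonneg_right hρle hκ.le
        have := mul_le_mul_of_nonneg_left this hl.1
        linarith
    _ = hs K u * ⟪seg u w l, u⟫ := by rw [hz]; ring
    _ ≤ hs K u * ‖seg u w l‖ := mul_le_mul_of_nonneg_left hzn hupos.le
    _ < t * ‖seg u w l‖ := mul_lt_mul_of_pos_right ht hn0

/-- Local step between normals at nearby boundary points. -/
lemma jn_local (b : Body K r R) {t : ℝ} {x x' w w' : E3} (hx : x ∈ frontier K)
    (hw : ‖w‖ = 1) (hw' : ‖w'‖ = 1)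
    (hn : hs K w = ⟪x, w⟫) (hn' : hs K w' = ⟪x', w'⟫)
    (h1 : ‖x' - x‖ ≤ r / 2) (h2 : ‖x' - x‖ < (t - ‖x‖) * (r / (2 * R))) :
    Jn (subl K t) w w' := by
  apply b.jn_subl hw hw'
  intro l hl
  have hR := b.R_pos
  have hr := b.rpos
  have hxR : ‖x‖ ≤ R := b.norm_le (b.frontier_subset hx)
  have e1 : ⟪x' - x, w'⟫ ≤ ‖x' - x‖ := by
    have := real_inner_le_norm (x' - x) w'
    rwa [hw', mul_one] at this
  have hwr : r ≤ hs K w := by have := b.le_hs w; rwa [hw, mul_one] at this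
  have hwr' : r ≤ hs K w' := by have := b.le_hs w'; rwa [hw', mul_one] at this
  have hxz : ⟪x, seg w w' l⟫ = (1 - l) * ⟪x, w⟫ + l * ⟪x, w'⟫ := by
    rw [seg, inner_add_right, real_inner_smul_right, real_inner_smul_right]
  have hxw' : ⟪x, w'⟫ = ⟪x', w'⟫ - ⟪x' - x, w'⟫ := by
    rw [inner_sub_left]; ring
  have hge : r / 2 ≤ ⟪x, seg w w' l⟫ := by
    rw [hxz, ← hn, hxw', ← hn']
    have a1 := mul_le_mul_of_nonneg_left hwr (sub_nonneg.2 hl.2)
    have a2 : r / 2 ≤ hs K w' - ⟪x' - x, w'⟫ := by linarith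
    have a3 := mul_le_mul_of_nonneg_left a2 hl.1
    have a4 : (1 - l) * (r / 2) ≤ (1 - l) * r :=
      mul_le_mul_of_nonneg_left (by linarith) (sub_nonneg.2 hl.2)
    nlinarith
  have hcs : ⟪x, seg w w' l⟫ ≤ ‖x‖ * ‖seg w w' l‖ := real_inner_le_norm _ _
  have hzlow : r / (2 * R) ≤ ‖seg w w' l‖ := by
    rw [div_le_iff₀ (by positivity)]
    have : ‖x‖ * ‖seg w w' l‖ ≤ R * ‖seg w w' l‖ :=
      mul_le_mul_of_nonneg_right hxR (norm_nonneg _)
    nlinarith
  have hzpos : 0 < ‖seg w w' l‖ := lt_of_lt_of_le (by positivity) hzlow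
  refine ⟨hzpos, ?_⟩
  have h3 := b.hs_seg_le w w' hl
  have htx : 0 < t - ‖x‖ := by
    by_contra hneg
    have : (t - ‖x‖) * (r / (2 * R)) ≤ 0 :=
      mul_nonpos_of_nonpos_of_nonneg (not_lt.1 hneg) (by positivity)
    have := norm_nonneg (x' - x)
    linarith
  calc hs K (seg w w' l) ≤ (1 - l) * hs K w + l * hs K w' := h3
    _ = ⟪x, seg w w' l⟫ + l * ⟪x' - x, w'⟫ := by
        rw [hxz, hn, hn', hxw']; ring
    _ ≤ ‖x‖ * ‖seg w w' l‖ + 1 * ‖x' - x‖ := by
        apply add_le_add hcs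
        calc l * ⟪x' - x, w'⟫ ≤ l * ‖x' - x‖ := mul_le_mul_of_nonneg_left e1 hl.1
          _ ≤ 1 * ‖x' - x‖ := mul_le_mul_of_nonneg_right hl.2 (norm_nonneg _)
    _ < ‖x‖ * ‖seg w w' l‖ + (t - ‖x‖) * ‖seg w w' l‖ := by
        have := mul_le_mul_of_nonneg_left hzlow htx.le
        linarith
    _ = t * ‖seg w w' l‖ := by ring

/-- Connected distance sublevels on the boundary imply connected support sublevels. -/
theorem CH_of_CC (b : Body K r R) (hC : CC K) : CH K := by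
  intro t
  set S : Set E3 := {x | x ∈ frontier K ∧ ‖x‖ < t} with hS
  have key : ∀ x ∈ S, ∀ y ∈ S, ∀ w w' : E3, ‖w‖ = 1 → ‖w'‖ = 1 → hs K w = ⟪x, w⟫ →
      hs K w' = ⟪y, w'⟫ → Jn (subl K t) w w' := by
    intro x hx y hy
    refine (hC t).induction₂ (fun x y => ∀ w w' : E3, ‖w‖ = 1 → ‖w'‖ = 1 → hs K w = ⟪x, w⟫ →
      hs K w' = ⟪y, w'⟫ → Jn (subl K t) w w') ?_ ?_ ?_ hx hy
    · intro x hx
      have hpos : 0 < min (r / 2) ((t - ‖x‖) * (r / (2 * R))) := by
        have := b.rpos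
        have := b.R_pos
        have := sub_pos.2 hx.2
        positivity
      have hev : ∀ᶠ y in 𝓝[S] x, y ∈ ball x (min (r / 2) ((t - ‖x‖) * (r / (2 * R)))) :=
        mem_nhdsWithin_of_mem_nhds (ball_mem_nhds x hpos)
      filter_upwards [hev] with y hy w w' hw hw' hn hn'
      rw [mem_ball, dist_eq_norm] at hy
      exact b.jn_local hx.1 hw hw' hn hn' (hy.le.trans (min_le_left _ _))
        (hy.trans_le (min_le_right _ _))
    · intro x y z hx hy hz h1 h2 w w' hw hw' hn hn'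
      obtain ⟨v, hv, hnv⟩ := b.exists_normal hy.1
      exact (h1 w v hw hv hn hnv).trans (h2 v w' hv hw' hnv hn')
    · intro x y hx hy h w w' hw hw' hn hn'
      exact (h w' w hw' hw hn' hn).symm
  have start : ∀ u ∈ subl K t, ∃ x ∈ S, ∃ w, ‖w‖ = 1 ∧ hs K w = ⟪x, w⟫ ∧ Jn (subl K t) u w := by
    intro u hu
    have hu0 : u ≠ 0 := by rintro rfl; simpa using hu.1
    have hg := b.gauge_pos hu0
    have hf := b.exists_frontier hu0
    obtain ⟨w, hw, hn⟩ := b.exists_normal hf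
    have hρle : (gauge K u)⁻¹ ≤ hs K u := by
      have := inner_le_hs b.compact (b.frontier_subset hf) u
      rwa [real_inner_smul_left, real_inner_self_eq_norm_sq, hu.1, one_pow, mul_one] at this
    refine ⟨_, ⟨hf, ?_⟩, w, hw, hn, b.jn_start hu.1 hw hu.2 (by positivity) hf hn⟩
    rw [norm_smul, hu.1, mul_one, norm_inv, Real.norm_eq_abs, abs_of_pos hg]
    exact lt_of_le_of_lt hρle hu.2
  apply isPreconnected_of_forall_pair
  intro u hu v hv
  obtain ⟨x, hx, w, hw, hn, hj⟩ := start u hu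
  obtain ⟨x', hx', w', hw', hn', hj'⟩ := start v hv
  have := (hj.trans (key x hx x' hx' w w' hw hw' hn hn')).trans hj'.symm
  exact this

end Body

end MP2b501e
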