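import Mathlib

/-!
Definitions for problem MP_2b501e_co: convex bodies approximable by monostable polyhedra.
-/

open MeasureTheory Metric
open scoped RealInnerProductSpace

namespace MP2b501e

/-- Euclidean three-space. -/
abbrev E3 : Type := EuclideanSpace ℝ (Fin 3)

/-- The center of mass of a body of uniform density (the average of `x` over `K`). -/
noncomputable def centroid (K : Set E3) : E3 := ⨍ x in K, x

/-- A convex body: a compact convex set with nonempty interior. -/
structure IsConvexBody (K : Set E3) : Prop where
  isCompact : IsCompact K
  convex : Convex ℝ K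
  interior_nonempty : (interior K).Nonempty

/-- A convex polyhedron: a bounded intersection of finitely many closed half-spaces
`⟪p.1, x⟫ ≤ p.2`, with nonempty interior. -/
structure IsPolyhedron (P : Set E3) : Prop where
  exists_halfspaces : ∃ s : Finset (E3 × ℝ), P = {x | ∀ p ∈ s, ⟪p.1, x⟫ ≤ p.2}
  isBounded : Bornology.IsBounded P
  interior_nonempty : (interior P).Nonempty

/-- `F` is a two-dimensional face of `P`: the intersection of `P` with a supporting
plane, of dimension two. -/
def IsFace (P F : Set E3) : Prop :=
  (∃ (u : E3) (h : ℝ), (∀ x ∈ P, ⟪u, x⟫ ≤ h) ∧ F = {x ∈ P | ⟪u, x⟫ = h}) ∧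
    Module.finrank ℝ (vectorSpan ℝ F) = 2

/-- The face `F` of `P` is stable: the orthogonal projection `p` of the center of mass of `P`
onto the affine plane spanned by `F` lies in the relative interior of `F`. -/
def IsStable (P F : Set E3) : Prop :=
  ∃ p ∈ intrinsicInterior ℝ F, ∀ y ∈ F, ⟪centroid P - p, y - p⟫ = 0

/-- `P` is monostable: exactly one of its faces is stable. -/
def Monostable (P : Set E3) : Prop := ∃! F, IsFace P F ∧ IsStable P F

/-- `K` is approximable: for every `ε > 0` there is a monostable convex polyhedron `P` at
Hausdorff distance less than `ε` from `K`. -/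
def Approximable (K : Set E3) : Prop :=
  ∀ ε > 0, ∃ P, IsPolyhedron P ∧ Monostable P ∧ hausdorffDist K P < ε

end MP2b501e
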