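import Pool.Agent.Lib_2b501e.Conn

open MeasureTheory Metric Set
open scoped RealInnerProductSpace Topology

namespace MP2b501e

/-- Successor relation on planes (unit normal, height). -/
def Succ (K : Set E3) (Λ : ℝ) (p q : E3 × ℝ) : Prop :=
  ‖q.1‖ = 1 ∧ hs K q.1 ≤ q.2 ∧ q.2 < p.2 - Λ * ‖p.1 - q.1‖ ^ 2

/-- Segment relation. -/
def SegR (K : Set E3) (t : ℝ) (u v : E3) : Prop :=
  ‖u‖ = 1 ∧ ‖v‖ = 1 ∧ ∀ l ∈ Icc (0:ℝ) 1, 1 / 2 ≤ ‖seg u v l‖ ∧
    hs K (seg u v l) ≤ t * ‖seg u v l‖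

lemma seg_symm (u v : E3) (l : ℝ) : seg u v l = seg v u (1 - l) := by
  simp only [seg]
  rw [sub_sub_cancel, add_comm]

lemma SegR.symm {K : Set E3} {t : ℝ} {u v : E3} (h : SegR K t u v) : SegR K t v u := by
  refine ⟨h.2.1, h.1, fun l hl => ?_⟩
  have := h.2.2 (1 - l) ⟨by linarith [hl.2], by linarith [hl.1]⟩
  rwa [← seg_symm] at this

lemma norm_seg_sub_le (u v : E3) {l : ℝ} (hl : l ∈ Icc (0:ℝ) 1) :
    ‖seg u v l - u‖ ≤ ‖v - u‖ := by
  have : seg u v l - u = l • (v - u) := by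
    simp only [seg]
    module
  rw [this, norm_smul, Real.norm_eq_abs, abs_of_nonneg hl.1]
  exact mul_le_of_le_one_left (norm_nonneg _) hl.2

lemma norm_seg_sub_seg (u v : E3) (l m : ℝ) :
    ‖seg u v l - seg u v m‖ = |l - m| * ‖u - v‖ := by
  have : seg u v l - seg u v m = (m - l) • (u - v) := by
    simp only [seg]
    module
  rw [this, norm_smul, Real.norm_eq_abs, abs_sub_comm]

lemma norm_nrm_sub_le {a b : E3} (ha : 1 / 2 ≤ ‖a‖) (hb : b ≠ 0) :
    ‖nrm a - nrm b‖ ≤ 4 * ‖a - b‖ := by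
  have ha0 : 0 < ‖a‖ := by linarith
  have hb0 : 0 < ‖b‖ := norm_pos_iff.2 hb
  have h1 : nrm a - nrm b = ‖a‖⁻¹ • (a - b) + (‖a‖⁻¹ - ‖b‖⁻¹) • b := by
    simp only [nrm]
    module
  have h2 : ‖(‖a‖⁻¹ - ‖b‖⁻¹) • b‖ = ‖a‖⁻¹ * |‖b‖ - ‖a‖| := by
    rw [norm_smul, Real.norm_eq_abs]
    have : ‖a‖⁻¹ - ‖b‖⁻¹ = ‖a‖⁻¹ * (‖b‖ - ‖a‖) * ‖b‖⁻¹ := by field_simp
    rw [this, abs_mul, abs_mul, abs_inv, abs_norm, abs_inv, abs_norm]
    field_simp
  have h3 : |‖b‖ - ‖a‖| ≤ ‖a - b‖ := by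
    rw [norm_sub_rev]; exact abs_norm_sub_norm_le b a
  have h4 : ‖a‖⁻¹ ≤ 2 := by
    rw [inv_le_comm₀ ha0 (by norm_num)]; linarith
  calc ‖nrm a - nrm b‖ ≤ ‖‖a‖⁻¹ • (a - b)‖ + ‖(‖a‖⁻¹ - ‖b‖⁻¹) • b‖ := by
        rw [h1]; exact norm_add_le _ _
    _ = ‖a‖⁻¹ * ‖a - b‖ + ‖a‖⁻¹ * |‖b‖ - ‖a‖| := by
        rw [h2, norm_smul, norm_inv, norm_norm]
    _ ≤ 2 * ‖a - b‖ + 2 * ‖a - b‖ := by
        gcongr
    _ = 4 * ‖a - b‖ := by ring

namespace Body

variable {K : Set E3} {r R : ℝ}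

lemma segR_local (b : Body K r R) {t : ℝ} {u : E3} (hu : u ∈ subl K t) :
    ∀ᶠ v in 𝓝[subl K t] u, SegR K t u v := by
  have hu0 : u ≠ 0 := by rintro rfl; simpa using hu.1
  have hpos := b.hs_pos hu0
  have ht : 0 < t := hpos.trans hu.2
  have hR := b.R_pos
  have h2 : 0 < (t - hs K u) / (R + t) := div_pos (sub_pos.2 hu.2) (by positivity)
  have hev : ∀ᶠ v in 𝓝[subl K t] u, v ∈ ball u (min (1 / 2) ((t - hs K u) / (R + t))) :=
    mem_nhdsWithin_of_mem_nhds (ball_mem_nhds u (by positivity))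
  filter_upwards [hev, self_mem_nhdsWithin] with v hv hvS
  rw [mem_ball, dist_eq_norm] at hv
  have hv1 : ‖v - u‖ ≤ 1 / 2 := hv.le.trans (min_le_left _ _)
  have hv2 : ‖v - u‖ ≤ (t - hs K u) / (R + t) := hv.le.trans (min_le_right _ _)
  rw [le_div_iff₀ (by positivity)] at hv2
  refine ⟨hu.1, hvS.1, fun l hl => ?_⟩
  have h3 := norm_seg_sub_le u v hl
  have h4 : 1 - ‖v - u‖ ≤ ‖seg u v l‖ := by
    have := norm_sub_norm_le u (seg u v l)
    rw [norm_sub_rev, hu.1] at this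
    linarith
  refine ⟨by linarith, ?_⟩
  have h5 := b.hs_sub_le (seg u v l) u
  have h6 : R * ‖seg u v l - u‖ ≤ R * ‖v - u‖ := mul_le_mul_of_nonneg_left h3 hR.le
  have h7 : t * (1 - ‖v - u‖) ≤ t * ‖seg u v l‖ := mul_le_mul_of_nonneg_left h4 ht.le
  nlinarith

lemma chain (b : Body K r R) (hC : CH K) {t : ℝ} {u v : E3} (hu : u ∈ subl K t)
    (hv : v ∈ subl K t) : Relation.ReflTransGen (SegR K t) u v := by
  refine (hC t).induction₂' (fun x y => Relation.ReflTransGen (SegR K t) x y) ?_ ?_ hu hv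
  · intro x hx
    filter_upwards [b.segR_local hx] with y hy
    exact ⟨Relation.ReflTransGen.single hy, Relation.ReflTransGen.single hy.symm⟩
  · intro x y z _ _ _ h1 h2
    exact h1.trans h2

lemma step (b : Body K r R) {Λ t : ℝ} (hΛ : 0 ≤ Λ) {u v : E3} {root : E3 × ℝ}
    (hseg : SegR K t u v)
    (hv : ∀ g > t, Relation.ReflTransGen (Succ K Λ) (v, g) root) :
    ∀ g > t, Relation.ReflTransGen (Succ K Λ) (u, g) root := by
  intro g hg
  have hgt : 0 < g - t := sub_pos.2 hg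
  obtain ⟨n, hn⟩ := exists_nat_gt (128 * Λ / (g - t))
  have hn0 : (0:ℝ) < n := lt_of_le_of_lt (by positivity) hn
  rw [div_lt_iff₀ hgt] at hn
  set w : ℕ → E3 := fun k => nrm (seg u v (k / n)) with hw
  set gg : ℕ → ℝ := fun k => g - k * ((g - t) / (2 * n)) with hgg
  have hmemI : ∀ k : ℕ, k ≤ n → ((k:ℝ) / n) ∈ Icc (0:ℝ) 1 := by
    intro k hk
    refine ⟨by positivity, ?_⟩
    rw [div_le_one hn0]
    exact_mod_cast hk
  have hstep : ∀ k : ℕ, k < n → Succ K Λ (w k, gg k) (w (k + 1), gg (k + 1)) := by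
    intro k hk
    have ha := hseg.2.2 _ (hmemI k hk.le)
    have hb := hseg.2.2 _ (hmemI (k + 1) hk)
    have hb0 : seg u v (((k + 1 : ℕ) : ℝ) / n) ≠ 0 := by
      rw [← norm_pos_iff]; linarith [hb.1]
    have hbn : 0 < ‖seg u v (((k + 1 : ℕ) : ℝ) / n)‖ := norm_pos_iff.2 hb0
    have hgle : t ≤ gg (k + 1) := by
      simp only [hgg]
      have : ((k + 1 : ℕ) : ℝ) ≤ n := by exact_mod_cast hk
      have h2 : ((k + 1 : ℕ) : ℝ) * ((g - t) / (2 * n)) ≤ n * ((g - t) / (2 * n)) := by gcongr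
      have h3 : (n : ℝ) * ((g - t) / (2 * n)) = (g - t) / 2 := by field_simp
      linarith
    refine ⟨norm_nrm hb0, ?_, ?_⟩
    · change hs K (nrm _) ≤ gg (k + 1)
      rw [b.hs_nrm hb0]
      refine le_trans ?_ hgle
      rw [div_le_iff₀ hbn]
      exact hb.2
    · have hd : ‖w k - w (k + 1)‖ ≤ 8 / n := by
        refine (norm_nrm_sub_le ha.1 hb0).trans ?_
        rw [norm_seg_sub_seg]
        have h1 : |(k:ℝ) / n - ((k + 1 : ℕ) : ℝ) / n| = 1 / n := by
          rw [← sub_div]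
          push_cast
          rw [show (k:ℝ) - (k + 1) = -1 by ring, neg_div, abs_neg, abs_of_pos (by positivity)]
        have h2 : ‖u - v‖ ≤ 2 := by
          refine (norm_sub_le _ _).trans ?_
          rw [hseg.1, hseg.2.1]; norm_num
        rw [h1]
        calc 4 * (1 / (n:ℝ) * ‖u - v‖) ≤ 4 * (1 / (n:ℝ) * 2) := by gcongr
          _ = 8 / n := by ring
      change gg (k + 1) < gg k - Λ * ‖w k - w (k + 1)‖ ^ 2
      have h1 : gg k - gg (k + 1) = (g - t) / (2 * n) := by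
        simp only [hgg]; push_cast; ring
      have h2 : Λ * ‖w k - w (k + 1)‖ ^ 2 ≤ Λ * (8 / n) ^ 2 := by gcongr
      have h3 : Λ * (8 / n) ^ 2 < (g - t) / (2 * n) := by
        rw [div_pow, lt_div_iff₀ (by positivity)]
        have : Λ * (8 ^ 2 / (n:ℝ) ^ 2) * (2 * n) = 128 * Λ / n := by
          field_simp; ring
        rw [this, div_lt_iff₀ hn0]
        linarith
      linarith
  have hpath : ∀ k : ℕ, k ≤ n → Relation.ReflTransGen (Succ K Λ) (w 0, gg 0) (w k, gg k) := by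
    intro k
    induction k with
    | zero => intro _; exact Relation.ReflTransGen.refl
    | succ k ih =>
      intro hk
      exact (ih (by omega)).tail (hstep k (by omega))
  have h0 : (w 0, gg 0) = (u, g) := by
    simp [hw, hgg, nrm_of_unit hseg.1]
  have hnn : (w n, gg n) = (v, (g + t) / 2) := by
    simp only [hw, hgg]
    rw [div_self hn0.ne', seg_one, nrm_of_unit hseg.2.1]
    congr 1
    field_simp; ring
  have := hpath n le_rfl
  rw [h0, hnn] at this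
  exact this.trans (hv _ (by linarith))

/-- Every plane strictly above `K` can be drained to the lowest supporting plane. -/
theorem drain (b : Body K r R) (hC : CH K) {Λ : ℝ} (hΛ : 0 ≤ Λ) {u0 : E3} (hu0 : ‖u0‖ = 1)
    (hmin : ∀ u : E3, ‖u‖ = 1 → hs K u0 ≤ hs K u) {u : E3} (hu : ‖u‖ = 1) {g : ℝ}
    (hg : hs K u < g) : Relation.ReflTransGen (Succ K Λ) (u, g) (u0, hs K u0) := by
  obtain ⟨t, ht1, ht2⟩ := exists_between hg
  have hu0t : hs K u0 < t := (hmin u hu).trans_lt ht1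
  have hch := b.chain hC (t := t) ⟨hu, ht1⟩ ⟨hu0, hu0t⟩
  have key : ∀ u : E3, Relation.ReflTransGen (SegR K t) u u0 →
      ∀ g > t, Relation.ReflTransGen (Succ K Λ) (u, g) (u0, hs K u0) := by
    intro u hch
    induction hch using Relation.ReflTransGen.head_induction_on with
    | refl =>
      intro g hg
      apply Relation.ReflTransGen.single
      refine ⟨hu0, le_rfl, ?_⟩
      simp only [sub_self, norm_zero]
      nlinarith
    | head h1 h2 ih => exact b.step hΛ h1 ih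
  exact key u hch g ht2

end Body

/-- A finite system of planes above `K`, draining to `root`. -/
structure PSys (K : Set E3) (Λ G : ℝ) (root : E3 × ℝ) (T : Finset (E3 × ℝ)) : Prop where
  root_mem : root ∈ T
  good : ∀ p ∈ T, ‖p.1‖ = 1 ∧ hs K p.1 ≤ p.2 ∧ p.2 ≤ G
  succ : ∀ p ∈ T, p = root ∨ ∃ q ∈ T, Succ K Λ p q

lemma path_psys {K : Set E3} {Λ G : ℝ} (hΛ : 0 ≤ Λ) {p root : E3 × ℝ}
    (h : Relation.ReflTransGen (Succ K Λ) p root)
    (hp : ‖p.1‖ = 1 ∧ hs K p.1 ≤ p.2 ∧ p.2 ≤ G) :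
    ∃ T, PSys K Λ G root T ∧ p ∈ T := by
  classical
  induction h using Relation.ReflTransGen.head_induction_on with
  | refl =>
    refine ⟨{root}, ⟨by simp, ?_, ?_⟩, by simp⟩
    · intro q hq
      rw [Finset.mem_singleton] at hq
      subst hq
      exact hp
    · intro q hq
      rw [Finset.mem_singleton] at hq
      exact Or.inl hq
  | @head p c h1 h2 ih =>
    have hc : ‖c.1‖ = 1 ∧ hs K c.1 ≤ c.2 ∧ c.2 ≤ G := by
      refine ⟨h1.1, h1.2.1, ?_⟩
      have := h1.2.2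
      have h3 : 0 ≤ Λ * ‖p.1 - c.1‖ ^ 2 := by positivity
      linarith [hp.2.2]
    obtain ⟨T, hT, hcT⟩ := ih hc
    refine ⟨insert p T, ⟨Finset.mem_insert_of_mem hT.root_mem, ?_, ?_⟩,
      Finset.mem_insert_self _ _⟩
    · intro q hq
      rcases Finset.mem_insert.1 hq with rfl | hq
      · exact hp
      · exact hT.good q hq
    · intro q hq
      rcases Finset.mem_insert.1 hq with rfl | hq
      · exact Or.inr ⟨c, Finset.mem_insert_of_mem hcT, h1⟩
      · rcases hT.succ q hq with h | ⟨q', hq', h⟩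
        · exact Or.inl h
        · exact Or.inr ⟨q', Finset.mem_insert_of_mem hq', h⟩

namespace Body

variable {K : Set E3} {r R : ℝ}

/-- For finitely many unit vectors, a common draining system. -/
theorem exists_psys (b : Body K r R) (hC : CH K) {Λ : ℝ} (hΛ : 0 ≤ Λ) {u0 : E3} (hu0 : ‖u0‖ = 1)
    (hmin : ∀ u : E3, ‖u‖ = 1 → hs K u0 ≤ hs K u) {ε : ℝ} (hε : 0 < ε) (N : Finset E3)
    (hN : ∀ u ∈ N, ‖u‖ = 1) :
    ∃ T, PSys K Λ (R + ε) (u0, hs K u0) T ∧ ∀ u ∈ N, (u, hs K u + ε) ∈ T := by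
  classical
  induction N using Finset.induction_on with
  | empty =>
    refine ⟨{(u0, hs K u0)}, ⟨by simp, ?_, ?_⟩, by simp⟩
    · intro q hq
      rw [Finset.mem_singleton] at hq
      subst hq
      have := b.hs_le_mul u0
      rw [hu0, mul_one] at this
      exact ⟨hu0, le_rfl, by simp only; linarith⟩
    · intro q hq
      rw [Finset.mem_singleton] at hq
      exact Or.inl hq
  | insert u N hu ih =>
    obtain ⟨T, hT, hTN⟩ := ih (fun v hv => hN v (Finset.mem_insert_of_mem hv))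
    have hu1 := hN u (Finset.mem_insert_self _ _)
    have hd := b.drain hC hΛ hu0 hmin hu1 (g := hs K u + ε) (by linarith)
    obtain ⟨T', hT', hmem⟩ := path_psys (G := R + ε) hΛ hd
      ⟨hu1, by simp only; linarith, by
        have := b.hs_le_mul u
        rw [hu1, mul_one] at this
        simp only; linarith⟩
    refine ⟨T ∪ T', ⟨Finset.mem_union_left _ hT.root_mem, ?_, ?_⟩, ?_⟩
    · intro q hq
      rcases Finset.mem_union.1 hq with hq | hq
      · exact hT.good q hq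
      · exact hT'.good q hq
    · intro q hq
      rcases Finset.mem_union.1 hq with hq | hq
      · rcases hT.succ q hq with h | ⟨q', hq', h⟩
        · exact Or.inl h
        · exact Or.inr ⟨q', Finset.mem_union_left _ hq', h⟩
      · rcases hT'.succ q hq with h | ⟨q', hq', h⟩
        · exact Or.inl h
        · exact Or.inr ⟨q', Finset.mem_union_right _ hq', h⟩
    · intro v hv
      rcases Finset.mem_insert.1 hv with rfl | hv
      · exact Finset.mem_union_right _ hmem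
      · exact Finset.mem_union_left _ (hTN v hv)

end Body

/-- The intersection of the half-spaces of a finite system. -/
def Poly (T : Finset (E3 × ℝ)) : Set E3 := {x | ∀ p ∈ T, ⟪p.1, x⟫ ≤ p.2}

/-- A system of planes in which every plane except the root has a violated successor at its foot
point. -/
structure MonoSys (T : Finset (E3 × ℝ)) (root : E3 × ℝ) : Prop where
  root_mem : root ∈ T
  unit : ∀ p ∈ T, ‖p.1‖ = 1
  pos : ∀ p ∈ T, 0 < p.2
  succ : ∀ p ∈ T, p = root ∨ ∃ q ∈ T, q.2 < p.2 * ⟪p.1, q.1⟫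

lemma inner_of_unit {u v : E3} (hu : ‖u‖ = 1) (hv : ‖v‖ = 1) :
    ⟪u, v⟫ = 1 - ‖u - v‖ ^ 2 / 2 := by
  rw [norm_sub_sq_real, hu, hv]; ring

/-- Reparametrizing the heights of a draining system. -/
lemma PSys.monoSys {K : Set E3} {Λ G : ℝ} {root : E3 × ℝ} {T : Finset (E3 × ℝ)}
    (h : PSys K Λ G root T) {ψ : ℝ → ℝ} (hψ : ∀ a b, b ≤ a → (a - b) / 2 ≤ ψ a - ψ b)
    (hpos : ∀ p ∈ T, 0 < ψ p.2) (hle : ∀ p ∈ T, ψ p.2 ≤ Λ) (hΛ : 0 ≤ Λ) [DecidableEq (E3 × ℝ)] :
    MonoSys (T.image fun p => (p.1, ψ p.2)) (root.1, ψ root.2) := by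
  refine ⟨Finset.mem_image_of_mem (fun p : E3 × ℝ => (p.1, ψ p.2)) h.root_mem, ?_, ?_, ?_⟩
  · intro p hp
    obtain ⟨q, hq, rfl⟩ := Finset.mem_image.1 hp
    exact (h.good q hq).1
  · intro p hp
    obtain ⟨q, hq, rfl⟩ := Finset.mem_image.1 hp
    exact hpos q hq
  · intro p' hp'
    obtain ⟨p, hp, rfl⟩ := Finset.mem_image.1 hp'
    rcases h.succ p hp with rfl | ⟨q, hq, hs⟩
    · exact Or.inl rfl
    · right
      refine ⟨(q.1, ψ q.2), Finset.mem_image_of_mem (fun p : E3 × ℝ => (p.1, ψ p.2)) hq, ?_⟩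
      simp only
      rw [inner_of_unit (h.good p hp).1 hs.1]
      have h1 := hs.2.2
      have h0 : 0 ≤ Λ * ‖p.1 - q.1‖ ^ 2 := by positivity
      have h2 := hψ p.2 q.2 (by linarith)
      have h3 : ψ p.2 * ‖p.1 - q.1‖ ^ 2 ≤ Λ * ‖p.1 - q.1‖ ^ 2 :=
        mul_le_mul_of_nonneg_right (hle p hp) (by positivity)
      nlinarith

end MP2b501e
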