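import Pool.Agent.Lib_2b501e.Limit

open MeasureTheory Metric Set
open scoped RealInnerProductSpace Topology Pointwise

namespace MP2b501e

/-- Hausdorff-close compact convex sets are sandwiched between homothets. -/
lemma sandwich_of_hausdorff {K P : Set E3} {r R : ℝ} (b : Body K r R) (hPc : IsClosed P)
    (hPconv : Convex ℝ P) (hPb : Bornology.IsBounded P) (hPne : P.Nonempty) {η : ℝ}
    (hη : 0 < η) (hη1 : η < 1) (h : hausdorffDist K P < η * r) : (1 - η) • K ⊆ P ∧ P ⊆ (1 + η) • K := by
  have hr := b.rpos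
  have hfin : hausdorffEDist K P ≠ ⊤ :=
    hausdorffEDist_ne_top_of_nonempty_of_bounded b.nonempty hPne b.bounded hPb
  constructor
  · rintro _ ⟨z, hz, rfl⟩
    simp only
    by_contra hcon
    obtain ⟨f, c, h1, h2⟩ := geometric_hahn_banach_closed_point hPconv hPc hcon
    obtain ⟨u, hu⟩ : ∃ u : E3, ∀ y, f y = ⟪y, u⟫ :=
      ⟨(InnerProductSpace.toDual ℝ E3).symm f, fun y => by
        rw [real_inner_comm, InnerProductSpace.toDual_symm_apply]⟩
    have hu0 : u ≠ 0 := by
      rintro rfl
      obtain ⟨y, hy⟩ := hPne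
      have e1 := h1 y hy
      rw [hu, inner_zero_right] at e1 h2
      linarith
    have hn : 0 < ‖u‖ := norm_pos_iff.2 hu0
    obtain ⟨k, hk, hku⟩ := exists_eq_hs b.compact b.nonempty u
    obtain ⟨y, hy, hky⟩ := exists_dist_lt_of_hausdorffDist_lt hk h hfin
    have e1 := h1 y hy
    rw [hu] at e1
    rw [hu, real_inner_smul_left] at h2
    have e2 : ⟪k - y, u⟫ ≤ η * r * ‖u‖ := by
      refine (real_inner_le_norm _ _).trans ?_
      rw [dist_eq_norm] at hky
      exact mul_le_mul_of_nonneg_right hky.le hn.le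
    rw [inner_sub_left, hku] at e2
    have e3 := b.le_hs u
    have e4 := inner_le_hs b.compact hz u
    have e5 : η * (r * ‖u‖) ≤ η * hs K u := mul_le_mul_of_nonneg_left e3 hη.le
    have e6 : (1 - η) * ⟪z, u⟫ ≤ (1 - η) * hs K u :=
      mul_le_mul_of_nonneg_left e4 (by linarith)
    nlinarith
  · intro y hy
    refine ⟨(1 + η)⁻¹ • y, ?_, ?_⟩
    · rw [b.mem_iff]
      intro u hu
      rw [real_inner_smul_left, inv_mul_le_iff₀ (by linarith)]
      obtain ⟨k, hk, hky⟩ := exists_dist_lt_of_hausdorffDist_lt' hy h hfin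
      have e1 := inner_le_hs b.compact hk u
      have e2 : ⟪y - k, u⟫ ≤ η * r := by
        have := real_inner_le_norm (y - k) u
        rw [hu, mul_one] at this
        rw [dist_comm, dist_eq_norm] at hky
        linarith
      rw [inner_sub_left] at e2
      have e3 := b.le_hs_unit hu
      nlinarith
    · simp only [smul_smul]
      rw [mul_inv_cancel₀ (by linarith), one_smul]


/-- The centroid of a sandwiched set is close to the origin. -/
lemma centroid_small {K P : Set E3} {r R : ℝ} (b : Body K r R) (hm : mom K = 0)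
    {η : ℝ} (hη : 0 < η) (hη1 : η ≤ 1 / 2)
    (h1 : (1 - η) • K ⊆ P) (h2 : P ⊆ (1 + η) • K) : ‖centroid P‖ ≤ 200 * R * η := by
  have hr := b.rpos
  have hR := b.R_pos
  have hPb : Bornology.IsBounded P := (b.bounded.smul₀ (1 + η)).subset h2
  set A : Set E3 := (1 - η) • K with hA
  have hAm : MeasurableSet A := b.measurableSet.const_smul₀ _
  have hAK : A ⊆ K := by
    rintro _ ⟨z, hz, rfl⟩
    exact b.smul_mem hz (by linarith) (by linarith)
  have hV : 0 < vol K := vol_pos_of_interior b.bounded ⟨0, mem_interior_iff_mem_nhds.2 b.nhds⟩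
  have hvA : vol A = (1 - η) ^ 3 * vol K := vol_smul (by linarith) K
  have hvP : vol P ≤ (1 + η) ^ 3 * vol K := by
    rw [← vol_smul (by linarith) K]
    exact vol_mono h2 (b.bounded.smul₀ _)
  have hvP' : (1 - η) ^ 3 * vol K ≤ vol P := by
    rw [← hvA]; exact vol_mono h1 hPb
  have e1 : mom P = mom (P \ A) + mom A := by rw [mom_sdiff h1 hAm hPb]; abel
  have e2 : mom (K \ A) + mom A = 0 := by rw [mom_sdiff hAK hAm b.bounded, hm]; abel
  have e3 : mom P = mom (P \ A) - mom (K \ A) := by
    rw [e1, eq_neg_of_add_eq_zero_right e2]; abel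
  have hPn : ∀ x ∈ P, ‖x‖ ≤ 2 * R := by
    intro x hx
    obtain ⟨z, hz, rfl⟩ := h2 hx
    simp only
    rw [norm_smul, Real.norm_eq_abs, abs_of_pos (by linarith)]
    exact mul_le_mul (by linarith) (b.norm_le hz) (norm_nonneg _) (by norm_num)
  have e4 : ‖mom (P \ A)‖ ≤ 2 * R * (vol P - vol A) := by
    rw [← vol_sdiff h1 hAm hPb]
    exact norm_mom_le (hPb.subset sdiff_subset) fun x hx => hPn x hx.1
  have e5 : ‖mom (K \ A)‖ ≤ R * (vol K - vol A) := by
    rw [← vol_sdiff hAK hAm b.bounded]
    exact norm_mom_le (b.bounded.subset sdiff_subset) fun x hx => b.norm_le hx.1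
  have e6 : ‖mom P‖ ≤ 2 * R * (vol P - vol A) + R * (vol K - vol A) := by
    rw [e3]
    exact (norm_sub_le _ _).trans (add_le_add e4 e5)
  have e7 : vol P - vol A ≤ 7 * η * vol K := by
    have : (1 + η) ^ 3 - (1 - η) ^ 3 ≤ 7 * η := by nlinarith [mul_pos hη hη]
    have := mul_le_mul_of_nonneg_right this hV.le
    rw [hvA]; linarith
  have e8 : vol K - vol A ≤ 3 * η * vol K := by
    have : 1 - (1 - η) ^ 3 ≤ 3 * η := by nlinarith [mul_pos hη hη, mul_pos (mul_pos hη hη) hη]
    have := mul_le_mul_of_nonneg_right this hV.le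
    rw [hvA]; linarith
  have e9 : ‖mom P‖ ≤ 17 * R * η * vol K := by
    have a1 := mul_le_mul_of_nonneg_left e7 (by positivity : 0 ≤ 2 * R)
    have a2 := mul_le_mul_of_nonneg_left e8 hR.le
    linarith
  have e10 : vol K / 8 ≤ vol P := by
    have : 1 / 8 ≤ (1 - η) ^ 3 := by
      have : (1 / 2 : ℝ) ^ 3 ≤ (1 - η) ^ 3 := pow_le_pow_left₀ (by norm_num) (by linarith) 3
      linarith
    have := mul_le_mul_of_nonneg_right this hV.le
    linarith
  have hvP0 : 0 < vol P := by linarith
  rw [centroid_eq, norm_smul, norm_inv, Real.norm_eq_abs, abs_of_pos hvP0,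
    inv_mul_le_iff₀ hvP0]
  have e11 : 0 ≤ R * η := by positivity
  have e12 : 200 * (R * η) * (vol K / 8) ≤ 200 * (R * η) * vol P :=
    mul_le_mul_of_nonneg_left e10 (by positivity)
  nlinarith [mul_nonneg e11 hV.le]

/-- Necessity, centroid at the origin. -/
theorem cc_of_approximable {K : Set E3} {r R : ℝ} (b : Body K r R) (hm : mom K = 0)
    (hA : Approximable K) : CC K := by
  have hr := b.rpos
  have hR := b.R_pos
  apply cc_of_limit b
  intro η hη hη1
  set η0 : ℝ := min (1 / 2) (η / (1 + 200 * R / r)) with hη0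
  have hD : 0 < 1 + 200 * R / r := by positivity
  have hη00 : 0 < η0 := lt_min (by norm_num) (by positivity)
  have hη01 : η0 ≤ 1 / 2 := min_le_left _ _
  have hη02 : η0 * (1 + 200 * R / r) ≤ η := by
    have : η0 ≤ η / (1 + 200 * R / r) := min_le_right _ _
    rwa [le_div_iff₀ hD] at this
  obtain ⟨P, hP, hmono, hd⟩ := hA (η0 * r) (by positivity)
  obtain ⟨s, hs'⟩ := hP.exists_halfspaces
  have hPoly : P = Poly s := hs'
  have hPc : IsClosed P := by rw [hPoly]; exact isClosed_poly s
  have hPconv : Convex ℝ P := by rw [hPoly]; exact convex_poly s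
  have hPne : P.Nonempty := hP.interior_nonempty.mono interior_subset
  obtain ⟨h1, h2⟩ := sandwich_of_hausdorff b hPc hPconv hP.isBounded hPne hη00
    (by linarith) hd
  set c := centroid P with hc
  have hcn : ‖c‖ ≤ 200 * R * η0 := centroid_small b hm hη00 hη01 h1 h2
  have hcr : ‖c‖ ≤ (η - η0) * r := by
    have e1 : η0 * (1 + 200 * R / r) * r = η0 * r + 200 * R * η0 := by field_simp
    have e2 := mul_le_mul_of_nonneg_right hη02 hr.le
    rw [e1] at e2
    linarith
  set Q := tr (-c) P with hQ
  have hvP := (vol_pos_of_interior hP.isBounded hP.interior_nonempty).ne'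
  have hQK : Q ⊆ (1 + η) • K := by
    intro y hy
    rw [hQ, mem_tr, sub_neg_eq_add] at hy
    refine ⟨(1 + η)⁻¹ • y, ?_, ?_⟩
    · rw [b.mem_iff]
      intro u hu
      rw [real_inner_smul_left, inv_mul_le_iff₀ (by linarith)]
      obtain ⟨z, hz, hze⟩ := h2 hy
      simp only at hze
      have e1 : ⟪y, u⟫ = (1 + η0) * ⟪z, u⟫ - ⟪c, u⟫ := by
        rw [← real_inner_smul_left, hze, inner_add_left]; ring
      have e2 := mul_le_mul_of_nonneg_left (inner_le_hs b.compact hz u)
        (by linarith : (0:ℝ) ≤ 1 + η0)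
      have e3 : -⟪c, u⟫ ≤ ‖c‖ := by
        have := real_inner_le_norm (-c) u
        rwa [norm_neg, hu, mul_one, inner_neg_left] at this
      have e4 := b.le_hs_unit hu
      have e5 : 0 ≤ η - η0 := by
        by_contra hneg
        have : (η - η0) * r < 0 := mul_neg_of_neg_of_pos (not_le.1 hneg) hr
        linarith [norm_nonneg c]
      have e6 := mul_le_mul_of_nonneg_left e4 e5
      rw [e1]; linarith
    · simp only [smul_smul]
      rw [mul_inv_cancel₀ (by linarith), one_smul]
  have hKQ : (1 - η) • K ⊆ Q := by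
    rintro _ ⟨z, hz, rfl⟩
    rw [hQ, mem_tr, sub_neg_eq_add]
    apply h1
    refine ⟨(1 - η0)⁻¹ • ((1 - η) • z + c), ?_, ?_⟩
    · rw [b.mem_iff]
      intro u hu
      rw [real_inner_smul_left, inv_mul_le_iff₀ (by linarith), inner_add_left,
        real_inner_smul_left]
      have e2 := mul_le_mul_of_nonneg_left (inner_le_hs b.compact hz u)
        (by linarith : (0:ℝ) ≤ 1 - η)
      have e3 : ⟪c, u⟫ ≤ ‖c‖ := by
        have := real_inner_le_norm c u
        rwa [hu, mul_one] at this
      have e4 := b.le_hs_unit hu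
      have e5 : 0 ≤ η - η0 := by
        by_contra hneg
        have : (η - η0) * r < 0 := mul_neg_of_neg_of_pos (not_le.1 hneg) hr
        linarith [norm_nonneg c]
      have e6 := mul_le_mul_of_nonneg_left e4 e5
      linarith
    · simp only [smul_smul]
      rw [mul_inv_cancel₀ (by linarith), one_smul]
  have hQp : IsPolyhedron Q := hP.tr (-c)
  obtain ⟨s', hs''⟩ := hQp.exists_halfspaces
  have hQPoly : Q = Poly s' := hs''
  have bQ : Body Q ((1 - η) * r) ((1 + η) * R) := by
    refine ⟨?_, ?_, by nlinarith, ?_, ?_⟩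
    · rw [isCompact_iff_isClosed_bounded]
      refine ⟨?_, hQp.isBounded⟩
      rw [hQPoly]; exact isClosed_poly s'
    · rw [hQPoly]; exact convex_poly s'
    · intro y hy
      rw [mem_closedBall_zero_iff] at hy
      apply hKQ
      refine ⟨(1 - η)⁻¹ • y, b.ball_sub ?_, ?_⟩
      · rw [mem_closedBall_zero_iff, norm_smul, norm_inv, Real.norm_eq_abs,
          abs_of_pos (by linarith), inv_mul_le_iff₀ (by linarith)]
        exact hy
      · simp only [smul_smul]
        rw [mul_inv_cancel₀ (by linarith), one_smul]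
    · intro y hy
      obtain ⟨z, hz, rfl⟩ := hQK hy
      rw [mem_closedBall_zero_iff]
      simp only
      rw [norm_smul, Real.norm_eq_abs, abs_of_pos (by linarith)]
      exact mul_le_mul_of_nonneg_left (b.norm_le hz) (by linarith)
  refine ⟨Q, _, _, bQ, ?_, hKQ, hQK⟩
  have hQm : Monostable Q := hmono.tr (-c) hP.isBounded hvP
  have hQc : centroid Q = 0 := by
    rw [hQ, centroid_tr _ hP.isBounded hvP, ← hc, neg_add_cancel]
  rw [hQPoly] at bQ hQm hQc ⊢
  exact cc_of_monostable bQ hQc hQm

/-- The centroid of a convex body is an interior point. -/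
lemma centroid_mem_interior {K : Set E3} (hK : IsConvexBody K) : centroid K ∈ interior K := by
  by_contra hcon
  obtain ⟨f, hf⟩ := geometric_hahn_banach_open_point hK.convex.interior isOpen_interior hcon
  obtain ⟨u, hu⟩ : ∃ u : E3, ∀ y, f y = ⟪y, u⟫ :=
    ⟨(InnerProductSpace.toDual ℝ E3).symm f, fun y => by
      rw [real_inner_comm, InnerProductSpace.toDual_symm_apply]⟩
  set c := centroid K with hc
  have hb := hK.isCompact.isBounded
  have hv := vol_pos_of_interior hb hK.interior_nonempty
  have hmom : mom K = vol K • c := by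
    rw [hc, centroid_eq, smul_smul, mul_inv_cancel₀ hv.ne', one_smul]
  have hIm : MeasurableSet (interior K) := isOpen_interior.measurableSet
  have hKm : MeasurableSet K := hK.isCompact.measurableSet
  have hint : IntegrableOn (fun y : E3 => ⟪c, u⟫ - ⟪y, u⟫) K volume :=
    integrableOn_of_cont (by fun_prop) hb
  have htot : ∫ y in K, (⟪c, u⟫ - ⟪y, u⟫) = 0 := by
    rw [integral_sub (integrableOn_of_cont continuous_const hb)
      (integrableOn_of_cont (by fun_prop) hb), ← inner_mom hb, hmom, real_inner_smul_left,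
      setIntegral_const, smul_eq_mul]
    exact sub_self _
  have hle : ∀ y ∈ K, 0 ≤ ⟪c, u⟫ - ⟪y, u⟫ := by
    intro y hy
    have hyc : y ∈ closure (interior K) := by
      rw [hK.convex.closure_interior_eq_closure_of_nonempty_interior hK.interior_nonempty]
      exact subset_closure hy
    have hcl : IsClosed {y : E3 | ⟪y, u⟫ ≤ ⟪c, u⟫} := isClosed_le (by fun_prop) continuous_const
    have hsub : interior K ⊆ {y : E3 | ⟪y, u⟫ ≤ ⟪c, u⟫} := by
      intro z hz
      have := hf z hz
      rw [hu, hu] at this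
      exact this.le
    have : ⟪y, u⟫ ≤ ⟪c, u⟫ := closure_minimal hsub hcl hyc
    linarith
  have hnn : 0 ≤ᵐ[volume.restrict K] fun y : E3 => ⟪c, u⟫ - ⟪y, u⟫ := by
    rw [Filter.EventuallyLE, ae_restrict_iff' hKm]
    filter_upwards with y hy
    exact hle y hy
  have h1 := (setIntegral_eq_zero_iff_of_nonneg_ae hnn hint).1 htot
  rw [Filter.EventuallyEq, ae_restrict_iff' hKm, ae_iff] at h1
  have h2 : interior K ⊆ {a : E3 | ¬(a ∈ K → ⟪c, u⟫ - ⟪a, u⟫ = (0 : E3 → ℝ) a)} := by
    intro y hy hcon
    have h3 := hcon (interior_subset hy)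
    have h4 := hf y hy
    rw [hu, hu] at h4
    simp only [Pi.zero_apply] at h3
    linarith
  have h3 := isOpen_interior.measure_pos (volume : Measure E3) hK.interior_nonempty
  exact absurd (measure_mono_null h2 h1) h3.ne'

/-- Main theorem: characterization of the convex bodies approximable by monostable polyhedra. -/
theorem main {K : Set E3} (hK : IsConvexBody K) :
    Approximable K ↔
      ∀ t : ℝ, IsPreconnected {x | x ∈ frontier K ∧ dist x (centroid K) < t} := by
  set c := centroid K with hc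
  have hb := hK.isCompact.isBounded
  have hv := vol_pos_of_interior hb hK.interior_nonempty
  set K0 := tr (-c) K with hK0
  have hK0c : IsCompact K0 := hK.isCompact.image (by fun_prop)
  have hK0conv : Convex ℝ K0 := by
    have : K0 = (-c) +ᵥ K := rfl
    rw [this]
    exact hK.convex.vadd _
  have h0 : (0 : E3) ∈ interior K0 := by
    rw [hK0, interior_tr, mem_tr, sub_neg_eq_add, zero_add]
    exact centroid_mem_interior hK
  obtain ⟨r, R, b⟩ := exists_body hK0c hK0conv h0
  have hm : mom K0 = 0 := by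
    rw [hK0, mom_tr _ hb, smul_neg, hc, centroid_eq, smul_smul, mul_inv_cancel₀ hv.ne',
      one_smul, neg_add_cancel]
  have hset : ∀ t : ℝ, {x | x ∈ frontier K0 ∧ ‖x‖ < t} =
      (fun x => -c + x) '' {x | x ∈ frontier K ∧ dist x c < t} := by
    intro t
    ext x
    rw [hK0, frontier_tr]
    simp only [mem_tr, Set.mem_ofPred_eq, mem_image]
    constructor
    · rintro ⟨h1, h2⟩
      refine ⟨x - -c, ⟨h1, ?_⟩, by abel⟩
      rw [dist_eq_norm]
      simpa using h2
    · rintro ⟨y, ⟨h1, h2⟩, rfl⟩
      refine ⟨by simpa using h1, ?_⟩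
      rw [dist_eq_norm] at h2
      rwa [neg_add_eq_sub]
  have hCC : CC K0 ↔ ∀ t : ℝ, IsPreconnected {x | x ∈ frontier K ∧ dist x c < t} := by
    constructor
    · intro h t
      have h1 := (h t).image (fun x => c + x) (by fun_prop)
      rw [hset, image_image] at h1
      simpa using h1
    · intro h t
      rw [hset]
      exact (h t).image _ (by fun_prop)
  rw [← hCC]
  constructor
  · intro h
    exact cc_of_approximable b hm (h.tr (-c))
  · intro h
    have h1 := approximable_of_approxZero b (approxZero_of_CH b (b.CH_of_CC h) hm)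
    have h2 := h1.tr c
    rwa [hK0, tr_tr'] at h2

end MP2b501e
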