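import Pool.Agent.Lib_2b501e.Level

open MeasureTheory Metric Set
open scoped RealInnerProductSpace Topology Pointwise

namespace MP2b501e

/-- the reparametrization used -/
noncomputable def psi (s ρ : ℝ) : ℝ → ℝ := fun t => t + s * |t - ρ|

lemma adm_psi {s ρ : ℝ} (h0 : 0 ≤ s) (h1 : s ≤ 1 / 2) : Adm (psi s ρ) := adm_abs h0 h1

/-- open convex cone around `x1` -/
def coneAt (x1 : E3) (δ : ℝ) : Set E3 := {y | ∃ θ : ℝ, 0 < θ ∧ ‖y - θ • x1‖ < θ * δ}

lemma isOpen_coneAt (x1 : E3) (δ : ℝ) : IsOpen (coneAt x1 δ) := by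
  have : coneAt x1 δ = ⋃ θ : ℝ, ⋃ _ : 0 < θ, ball (θ • x1) (θ * δ) := by
    ext y
    simp only [coneAt, Set.mem_ofPred_eq, mem_iUnion, mem_ball, dist_eq_norm, exists_prop]
  rw [this]
  exact isOpen_iUnion fun θ => isOpen_iUnion fun _ => isOpen_ball

lemma smul_mem_coneAt {x1 y : E3} {δ c : ℝ} (hc : 0 < c) (hy : y ∈ coneAt x1 δ) :
    c • y ∈ coneAt x1 δ := by
  obtain ⟨θ, hθ, h⟩ := hy
  refine ⟨c * θ, by positivity, ?_⟩
  rw [mul_smul, ← smul_sub, norm_smul, Real.norm_eq_abs, abs_of_pos hc, mul_assoc]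
  exact mul_lt_mul_of_pos_left h hc

lemma coneAt_mono {x1 : E3} {δ δ' : ℝ} (h : δ ≤ δ') : coneAt x1 δ ⊆ coneAt x1 δ' := by
  rintro y ⟨θ, hθ, hy⟩
  exact ⟨θ, hθ, hy.trans_le (mul_le_mul_of_nonneg_left h hθ.le)⟩

namespace Body

variable {K : Set E3} {r R : ℝ}

lemma gap (b : Body K r R) {x1 : E3} (hx1 : x1 ∈ K) {ρ : ℝ}
    (h : ∀ v : E3, ‖v‖ = 1 → hs K v = ⟪x1, v⟫ → hs K v ≠ ρ) :
    ∃ κ > 0, κ ≤ R ∧ ∀ u : E3, ‖u‖ = 1 → κ ≤ |hs K u - ρ| ∨ ⟪x1, u⟫ ≤ hs K u - κ := by
  have hc : Continuous fun u : E3 => |hs K u - ρ| + (hs K u - ⟪x1, u⟫) := by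
    have := b.continuous_hs
    fun_prop
  obtain ⟨u0, hu0, hmin⟩ := (isCompact_sphere (0 : E3) 1).exists_isMinOn
    (by obtain ⟨u, hu⟩ := exists_unit; exact ⟨u, by simpa using hu⟩) hc.continuousOn
  have hu0' : ‖u0‖ = 1 := by simpa using hu0
  set m := |hs K u0 - ρ| + (hs K u0 - ⟪x1, u0⟫) with hm
  have hm0 : 0 < m := by
    have h1 := abs_nonneg (hs K u0 - ρ)
    have h2 : 0 ≤ hs K u0 - ⟪x1, u0⟫ := sub_nonneg.2 (inner_le_hs b.compact hx1 u0)
    rcases eq_or_lt_of_le h1 with h3 | h3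
    · have h4 : hs K u0 = ρ := by
        have := abs_eq_zero.1 h3.symm
        linarith
      rcases eq_or_lt_of_le h2 with h5 | h5
      · exact absurd h4 (h u0 hu0' (by linarith))
      · rw [hm]; linarith
    · rw [hm]; linarith
  refine ⟨min (m / 2) R, lt_min (by linarith) b.R_pos, min_le_right _ _, fun u hu => ?_⟩
  have h1 : m ≤ |hs K u - ρ| + (hs K u - ⟪x1, u⟫) := hmin (by simpa using hu)
  have h2 := min_le_left (m / 2) R
  by_cases h3 : m / 2 ≤ |hs K u - ρ|
  · left; linarith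
  · right; linarith

/-- growth of the reparametrized body near `x1` -/
lemma growth (b : Body K r R) {x1 : E3} (hx1 : x1 ∈ frontier K) {ρ κ : ℝ} (hκ : 0 < κ)
    (hκR : κ ≤ R)
    (hgap : ∀ u : E3, ‖u‖ = 1 → κ ≤ |hs K u - ρ| ∨ ⟪x1, u⟫ ≤ hs K u - κ) {s : ℝ} (hs0 : 0 < s)
    (hs1 : s ≤ 1 / 4) {y : E3} (hy : y ∈ (1 + κ / R * s) • K)
    (hyc : y ∈ coneAt x1 (κ * r / (4 * R))) : y ∈ Wf K (psi s ρ) := by
  have hR := b.R_pos
  have hr := b.rpos
  set c' : ℝ := κ / R with hc'
  have hc'0 : 0 < c' := by positivity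
  have hc'R : c' * R = κ := by rw [hc']; field_simp
  set δ : ℝ := κ * r / (4 * R) with hδ
  have hδ0 : 0 < δ := by positivity
  have hδ1 : δ * (4 * R) = κ * r := by rw [hδ]; field_simp
  intro u hu
  have hhsR := b.hs_unit_le hu
  have hhsr := b.le_hs_unit hu
  rcases hgap u hu with h | h
  · obtain ⟨k, hk, rfl⟩ := hy
    simp only [real_inner_smul_left]
    have h1 := inner_le_hs b.compact hk u
    have h2 : (1 + c' * s) * ⟪k, u⟫ ≤ (1 + c' * s) * hs K u :=
      mul_le_mul_of_nonneg_left h1 (by positivity)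
    have h3 : c' * s * hs K u ≤ c' * s * R := mul_le_mul_of_nonneg_left hhsR (by positivity)
    have h4 : s * κ ≤ s * |hs K u - ρ| := mul_le_mul_of_nonneg_left h hs0.le
    simp only [psi]
    nlinarith
  · obtain ⟨θ, hθ, hyθ⟩ := hyc
    have hgy : gauge K y ≤ 1 + c' * s := by
      obtain ⟨k, hk, rfl⟩ := hy
      simp only
      rw [b.gauge_smul (by positivity)]
      have := b.mem_iff_gauge.1 hk
      have h5 : (0:ℝ) ≤ 1 + c' * s := by positivity
      nlinarith
    have hgθ : θ ≤ (1 + c' * s) + θ * δ / r := by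
      have h1 : gauge K (θ • x1) = θ := by
        rw [b.gauge_smul hθ.le, b.mem_frontier_iff.1 hx1, mul_one]
      have h2 : gauge K (y + (θ • x1 - y)) ≤ gauge K y + gauge K (θ • x1 - y) :=
        gauge_add_le b.convex (absorbent_nhds_zero b.nhds) _ _
      rw [add_sub_cancel, h1] at h2
      have h3 := b.gauge_le (θ • x1 - y)
      rw [norm_sub_rev] at h3
      have h4 : ‖y - θ • x1‖ / r ≤ θ * δ / r := by gcongr
      linarith
    have hθ2 : θ * (r - δ) ≤ (1 + c' * s) * r := by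
      have h5 : θ * δ / r * r = θ * δ := by field_simp
      have h6 := mul_le_mul_of_nonneg_right hgθ hr.le
      rw [add_mul, h5] at h6
      linarith
    have hyu : ⟪y, u⟫ ≤ θ * (hs K u - κ) + θ * δ := by
      have h1 : ⟪y, u⟫ = θ * ⟪x1, u⟫ + ⟪y - θ • x1, u⟫ := by
        rw [inner_sub_left, real_inner_smul_left]; ring
      have h2 := real_inner_le_norm (y - θ • x1) u
      rw [hu, mul_one] at h2
      have h3 := mul_le_mul_of_nonneg_left h hθ.le
      linarith
    have hδκ : δ ≤ κ / 4 := by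
      have : δ * (4 * R) ≤ κ / 4 * (4 * R) := by
        rw [hδ1]
        have := b.r_le_R
        nlinarith
      exact le_of_mul_le_mul_right this (by positivity)
    have hδr : δ ≤ r / 4 := by
      have : δ * (4 * R) ≤ r / 4 * (4 * R) := by
        rw [hδ1]
        nlinarith
      exact le_of_mul_le_mul_right this (by positivity)
    have hfin : ⟪y, u⟫ ≤ hs K u := by
      rcases le_or_gt (hs K u - κ + δ) 0 with h1 | h1
      · have : θ * (hs K u - κ) + θ * δ ≤ 0 := by nlinarith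
        linarith
      · -- θ (h - κ + δ) ≤ (1 + c's) r / (r - δ) (h - κ + δ) ≤ h
        have hrδ : 0 < r - δ := by linarith
        have h2 : θ * (r - δ) * (hs K u - κ + δ) ≤ (1 + c' * s) * r * (hs K u - κ + δ) :=
          mul_le_mul_of_nonneg_right hθ2 h1.le
        have h3 : (1 + c' * s) * (hs K u - κ + δ) ≤ hs K u - κ / 2 := by
          have h4 : c' * s * (hs K u - κ + δ) ≤ c' * s * R := by
            apply mul_le_mul_of_nonneg_left _ (by positivity)
            linarith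
          have h5 : c' * s * R ≤ κ * (1 / 4) := by
            calc c' * s * R = κ * s := by rw [← hc'R]; ring
              _ ≤ κ * (1 / 4) := mul_le_mul_of_nonneg_left hs1 hκ.le
          nlinarith
        have h6 : (hs K u - κ / 2) * r ≤ hs K u * (r - δ) := by
          have : hs K u * δ ≤ R * δ := mul_le_mul_of_nonneg_right hhsR hδ0.le
          nlinarith
        have h7 : θ * (r - δ) * (hs K u - κ + δ) ≤ hs K u * (r - δ) := by
          calc _ ≤ (1 + c' * s) * r * (hs K u - κ + δ) := h2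
            _ = ((1 + c' * s) * (hs K u - κ + δ)) * r := by ring
            _ ≤ (hs K u - κ / 2) * r := mul_le_mul_of_nonneg_right h3 hr.le
            _ ≤ _ := h6
        have h8 : θ * (hs K u - κ + δ) ≤ hs K u := by
          have : θ * (hs K u - κ + δ) * (r - δ) ≤ hs K u * (r - δ) := by linarith
          exact le_of_mul_le_mul_right this hrδ
        linarith
    have h9 : 0 ≤ s * |hs K u - ρ| := by positivity
    simp only [psi]
    linarith

/-- nothing is added in the missing half-spaces -/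
lemma wf_lower (b : Body K r R) {e : E3} (he : Miss K e) (hen : ‖e‖ = 1) {ρ s : ℝ}
    (hρ : hs K (-e) = ρ) {y : E3} (hy : y ∈ Wf K (psi s ρ)) (hye : ⟪y, e⟫ < 0) : y ∈ K := by
  by_contra hcon
  obtain ⟨c, hc0, hc1, hc⟩ := b.not_mem_exists hcon
  obtain ⟨v, hv, hn⟩ := b.exists_normal hc
  have h3 := b.hs_normal_of_lower he hen (b.frontier_subset hc)
    (by rw [real_inner_smul_left]; exact mul_neg_of_pos_of_neg hc0 hye) hv hn
  rw [hρ] at h3
  have h4 := hy v hv
  simp only [psi, h3, sub_self, abs_zero, mul_zero, add_zero] at h4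
  rw [h3, real_inner_smul_left] at hn
  have h5 : 0 < ρ := by rw [← h3]; exact b.hs_pos (by rintro rfl; simp at hv)
  nlinarith

lemma x1_pos (b : Body K r R) {x1 : E3} (hx1 : x1 ∈ frontier K) {ρ κ : ℝ} (hκ : 0 < κ)
    (hκR : κ ≤ R)
    (hgap : ∀ u : E3, ‖u‖ = 1 → κ ≤ |hs K u - ρ| ∨ ⟪x1, u⟫ ≤ hs K u - κ) {e : E3}
    (he : Miss K e) (hen : ‖e‖ = 1) (hρ : hs K (-e) = ρ) :
    κ * r / (4 * R) / 2 ≤ ⟪x1, e⟫ := by
  have hR := b.R_pos
  have hr := b.rpos
  set δ : ℝ := κ * r / (4 * R) with hδ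
  have hδ0 : 0 < δ := by positivity
  have hδr : δ ≤ r / 4 := by
    have hδ1 : δ * (4 * R) = κ * r := by rw [hδ]; field_simp
    have : δ * (4 * R) ≤ r / 4 * (4 * R) := by
      rw [hδ1]
      nlinarith
    exact le_of_mul_le_mul_right this (by positivity)
  set z : E3 := x1 - (δ / 2) • e with hz
  have hzn : ‖z - x1‖ = δ / 2 := by
    rw [hz, sub_sub_cancel_left, norm_neg, norm_smul, hen, mul_one, Real.norm_eq_abs,
      abs_of_pos (by positivity)]
  have hz0 : z ≠ 0 := by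
    intro h0
    rw [h0, zero_sub, norm_neg] at hzn
    have := b.norm_frontier_ge hx1
    linarith
  have hg := b.gauge_pos hz0
  set c : ℝ := 1 + κ / R * (1 / 4) with hc
  have hc1 : 1 < c := by
    have : 0 < κ / R * (1 / 4) := by positivity
    linarith
  have hy1 : (c / gauge K z) • z ∈ c • K := by
    refine ⟨(gauge K z)⁻¹ • z, b.frontier_subset (b.exists_frontier hz0), ?_⟩
    simp only [smul_smul]
    rw [div_eq_mul_inv]
  have hy2 : (c / gauge K z) • z ∉ K := by
    rw [b.mem_iff_gauge, b.gauge_smul (by positivity), div_mul_cancel₀ _ hg.ne', not_le]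
    exact hc1
  have hy3 : (c / gauge K z) • z ∈ coneAt x1 δ := by
    refine ⟨c / gauge K z, by positivity, ?_⟩
    rw [← smul_sub, norm_smul, hzn, Real.norm_eq_abs, abs_of_pos (by positivity)]
    apply mul_lt_mul_of_pos_left (by linarith) (by positivity)
  have hy4 := b.growth hx1 hκ hκR hgap (s := 1 / 4) (by norm_num) le_rfl hy1 hy3
  have hy5 : 0 ≤ ⟪(c / gauge K z) • z, e⟫ := by
    by_contra hcon
    exact hy2 (b.wf_lower he hen hρ hy4 (not_le.1 hcon))
  rw [real_inner_smul_left] at hy5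
  have hpos : 0 < c / gauge K z := by positivity
  have hy6 : 0 ≤ ⟪z, e⟫ := nonneg_of_mul_nonneg_right hy5 hpos
  rw [hz, inner_sub_left, real_inner_smul_left, real_inner_self_eq_norm_sq, hen] at hy6
  linarith

end Body

end MP2b501e
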