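import Pool.Agent.Lib_2b501e.Select

open MeasureTheory Metric Set
open scoped RealInnerProductSpace Topology Pointwise

namespace MP2b501e

lemma Miss.nrm {K : Set E3} {e : E3} (he : Miss K e) : Miss K (nrm e) :=
  he.smul (by positivity)

namespace Body

variable {K : Set E3} {r R : ℝ}

lemma level_near (b : Body K r R) {e f : E3} (he : Miss K e) (hen : ‖e‖ = 1) (hfn : ‖f‖ = 1)
    (h : ‖e - f‖ < r / R) : hs K (-f) = hs K (-e) := by
  have hR := b.R_pos
  apply b.hs_eq_of_low he hen (by rw [norm_neg]; exact hfn)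
  intro x hx hxf
  have h1 : r ≤ hs K (-f) := b.le_hs_unit (by rw [norm_neg]; exact hfn)
  rw [← hxf, inner_neg_right] at h1
  have h2 : ⟪x, e - f⟫ ≤ R * ‖e - f‖ :=
    (real_inner_le_norm _ _).trans (mul_le_mul_of_nonneg_right (b.norm_le hx) (norm_nonneg _))
  rw [lt_div_iff₀ hR] at h
  rw [inner_sub_right] at h2
  linarith

lemma level_path (b : Body K r R) {e0 e : E3} (he0 : Miss K e0) (he0n : ‖e0‖ = 1)
    (he : Miss K e) (hen : ‖e‖ = 1) (hne : e ≠ -e0) : hs K (-e) = hs K (-e0) := by
  have hR := b.R_pos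
  have hr := b.rpos
  have hseg : ∀ l ∈ Icc (0:ℝ) 1, seg e0 e l ≠ 0 := by
    intro l hl h0
    have h1 : (1 - l) • e0 = -(l • e) := eq_neg_of_add_eq_zero_left h0
    have h2 : 1 - l = l := by
      have := congrArg norm h1
      rw [norm_neg, norm_smul, norm_smul, he0n, hen, mul_one, mul_one, Real.norm_eq_abs,
        Real.norm_eq_abs, abs_of_nonneg (sub_nonneg.2 hl.2), abs_of_nonneg hl.1] at this
      exact this
    have h3 : l = 1 / 2 := by linarith
    rw [h3] at h1
    apply hne
    have h4 : ((1:ℝ) / 2) • e = -(((1:ℝ) / 2) • e0) := by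
      have : (1 - (1:ℝ) / 2) = 1 / 2 := by norm_num
      rw [this] at h1
      rw [h1, neg_neg]
    have h5 := congrArg (fun v => (2:ℝ) • v) h4
    simp only [smul_neg, smul_smul] at h5
    norm_num at h5
    exact h5
  have hmiss : ∀ l ∈ Icc (0:ℝ) 1, Miss K (nrm (seg e0 e l)) := fun l hl =>
    (he0.add he (sub_nonneg.2 hl.2) hl.1).nrm
  have key := isPreconnected_Icc.induction₂ (s := Icc (0:ℝ) 1)
    (fun l m => hs K (-nrm (seg e0 e l)) = hs K (-nrm (seg e0 e m))) (x := 1) (y := 0) ?_ ?_ ?_
    (by simp) (by simp)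
  · simpa [nrm_of_unit he0n, nrm_of_unit hen] using key
  · intro l hl
    have hc : ContinuousAt (fun m => nrm (seg e0 e m)) l := by
      have h1 : ContinuousAt (fun m => ‖seg e0 e m‖⁻¹) l :=
        ((continuous_seg e0 e).norm.continuousAt).inv₀ (norm_ne_zero_iff.2 (hseg l hl))
      exact h1.smul (continuous_seg e0 e).continuousAt
    have hev : ∀ᶠ m in 𝓝 l, nrm (seg e0 e m) ∈ ball (nrm (seg e0 e l)) (r / R) :=
      hc.eventually (ball_mem_nhds _ (by positivity))
    filter_upwards [mem_nhdsWithin_of_mem_nhds hev, self_mem_nhdsWithin] with m hm hmI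
    rw [mem_ball, dist_eq_norm, norm_sub_rev] at hm
    exact (b.level_near (hmiss l hl) (norm_nrm (hseg l hl)) (norm_nrm (hseg m hmI)) hm).symm
  · intro x y z _ _ _ h1 h2
    exact h1.trans h2
  · intro x y _ _ h
    exact h.symm

lemma ball_of_two (b : Body K r R) {e : E3} (he : Miss K e) (hen : ‖e‖ = 1) (he' : Miss K (-e))
    {m : ℝ} (h1 : m ≤ hs K (-e)) (h2 : m ≤ hs K e) : closedBall (0 : E3) m ⊆ K := by
  have hmain : ∀ y : E3, ‖y‖ < m → ⟪y, e⟫ ≠ 0 → y ∈ K := by
    intro y hy hye
    by_contra hcon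
    obtain ⟨c, hc0, hc1, hc⟩ := b.not_mem_exists hcon
    obtain ⟨v, hv, hn⟩ := b.exists_normal hc
    have hcy : ⟪c • y, v⟫ ≤ ‖y‖ := by
      have := real_inner_le_norm (c • y) v
      rw [hv, mul_one, norm_smul, Real.norm_eq_abs, abs_of_pos hc0] at this
      have h3 : c * ‖y‖ ≤ 1 * ‖y‖ := mul_le_mul_of_nonneg_right hc1.le (norm_nonneg _)
      linarith
    rcases lt_or_gt_of_ne hye with h | h
    · have h3 := b.hs_normal_of_lower he hen (b.frontier_subset hc)
        (by rw [real_inner_smul_left]; exact mul_neg_of_pos_of_neg hc0 h) hv hn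
      rw [h3] at hn
      linarith
    · have h3 := b.hs_normal_of_lower he' (by rw [norm_neg]; exact hen) (b.frontier_subset hc)
        (by rw [inner_neg_right, real_inner_smul_left]; nlinarith) hv hn
      rw [neg_neg] at h3
      rw [h3] at hn
      linarith
  have hball : ball (0 : E3) m ⊆ K := by
    intro y hy
    rw [mem_ball_zero_iff] at hy
    by_cases hye : ⟪y, e⟫ = 0
    · have hcl : y ∈ closure K := by
        rw [Metric.mem_closure_iff]
        intro ε hε
        set t : ℝ := min (ε / 2) ((m - ‖y‖) / 2) with ht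
        have ht0 : 0 < t := lt_min (by positivity) (by linarith)
        refine ⟨y + t • e, hmain _ ?_ ?_, ?_⟩
        · have : ‖y + t • e‖ ≤ ‖y‖ + t := by
            refine (norm_add_le _ _).trans ?_
            rw [norm_smul, hen, mul_one, Real.norm_eq_abs, abs_of_pos ht0]
          have h3 := min_le_right (ε / 2) ((m - ‖y‖) / 2)
          linarith
        · rw [inner_add_left, hye, real_inner_smul_left, real_inner_self_eq_norm_sq, hen]
          simpa using ht0.ne'
        · rw [dist_eq_norm, sub_add_cancel_left, norm_neg, norm_smul, hen, mul_one,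
            Real.norm_eq_abs, abs_of_pos ht0]
          have h3 := min_le_left (ε / 2) ((m - ‖y‖) / 2)
          linarith
      rwa [b.closed.closure_eq] at hcl
    · exact hmain y hy hye
  rcases lt_trichotomy m 0 with hm | hm | hm
  · rw [closedBall_eq_empty.2 hm]; exact empty_subset _
  · rw [hm, closedBall_zero, singleton_subset_iff]; exact b.zero_mem
  · rw [← closure_ball (0:E3) hm.ne']
    exact closure_minimal hball b.closed

/-- All missing directions have the same level. -/
theorem level_all (b : Body K r R) (hm : mom K = 0) {e0 e : E3} (he0 : Miss K e0)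
    (he0n : ‖e0‖ = 1) (he : Miss K e) (hen : ‖e‖ = 1) : hs K (-e) = hs K (-e0) := by
  by_cases hne : e = -e0
  · subst hne
    rw [neg_neg]
    rcases le_total (hs K (-e0)) (hs K e0) with h | h
    · have hb := b.ball_of_two he0 he0n he le_rfl h
      have h1 := b.hs_rfx he0n (b.rfx_mem he0 he0n hb hm) (-e0)
      rw [← h1]
      congr 1
      rw [rfx_apply he0n, inner_neg_left, real_inner_self_eq_norm_sq, he0n]
      module
    · have hb := b.ball_of_two he0 he0n he h le_rfl
      have hb' : closedBall (0:E3) (hs K (- -e0)) ⊆ K := by rwa [neg_neg]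
      have h1 := b.hs_rfx hen (b.rfx_mem he hen hb' hm) (-e0)
      rw [← h1]
      congr 1
      rw [rfx_apply hen, real_inner_self_eq_norm_sq, hen]
      module
  · exact b.level_path he0 he0n he hen hne

end Body

end MP2b501e
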