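import Pool.Agent.Lib_2b501e.Nec

open MeasureTheory Metric Set
open scoped RealInnerProductSpace Topology Pointwise

namespace MP2b501e

lemma continuousOn_nrm {S : Set E3} (h : ∀ x ∈ S, x ≠ 0) : ContinuousOn nrm S := by
  have h1 : ContinuousOn (fun x : E3 => ‖x‖⁻¹) S := by
    apply ContinuousOn.inv₀
    · fun_prop
    · intro x hx; exact norm_ne_zero_iff.2 (h x hx)
  exact h1.smul continuousOn_id

lemma nrm_smul {c : ℝ} (hc : 0 < c) (x : E3) : nrm (c • x) = nrm x := by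
  rcases eq_or_ne x 0 with rfl | hx
  · simp
  · have hn : 0 < ‖x‖ := norm_pos_iff.2 hx
    simp only [nrm, norm_smul, smul_smul, Real.norm_eq_abs, abs_of_pos hc]
    congr 1
    field_simp

/-- The connectivity condition is closed. -/
theorem cc_of_limit {K : Set E3} {r R : ℝ} (b : Body K r R)
    (h : ∀ η : ℝ, 0 < η → η < 1 → ∃ Q r' R', Body Q r' R' ∧ CC Q ∧ (1 - η) • K ⊆ Q ∧
      Q ⊆ (1 + η) • K) : CC K := by
  intro t
  rw [isPreconnected_iff_subset_of_disjoint]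
  intro U V hU hV hcov hdisj
  by_contra hcon
  push Not at hcon
  obtain ⟨hnU, hnV⟩ := hcon
  rw [not_subset] at hnU hnV
  obtain ⟨v, hv, hvU⟩ := hnU
  obtain ⟨u, hu, huV⟩ := hnV
  have hr := b.rpos
  have hfpos : ∀ x ∈ frontier K, 0 < ‖x‖ := fun x hx => hr.trans_le (b.norm_frontier_ge hx)
  set t' : ℝ := max ‖u‖ ‖v‖ with ht'
  have ht't : t' < t := max_lt hu.2 hv.2
  have ht'0 : 0 < t' := (hfpos u hu.1).trans_le (le_max_left _ _)
  have hfc : IsCompact (frontier K) :=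
    b.compact.of_isClosed_subset isClosed_frontier b.frontier_subset
  set C : Set E3 := frontier K ∩ closedBall 0 t' with hC
  have hCc : IsCompact C := hfc.inter_right isClosed_closedBall
  have hCS : C ⊆ {x | x ∈ frontier K ∧ ‖x‖ < t} := by
    rintro x ⟨h1, h2⟩
    exact ⟨h1, by
      rw [mem_closedBall_zero_iff] at h2
      linarith⟩
  set C1 : Set E3 := C ∩ Vᶜ with hC1
  set C2 : Set E3 := C ∩ Uᶜ with hC2
  have hC1c : IsCompact C1 := hCc.inter_right hV.isClosed_compl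
  have hC2c : IsCompact C2 := hCc.inter_right hU.isClosed_compl
  have huC : u ∈ C1 := ⟨⟨hu.1, by rw [mem_closedBall_zero_iff]; exact le_max_left _ _⟩, huV⟩
  have hvC : v ∈ C2 := ⟨⟨hv.1, by rw [mem_closedBall_zero_iff]; exact le_max_right _ _⟩, hvU⟩
  have hC12 : C ⊆ C1 ∪ C2 := by
    intro x hx
    by_cases hxV : x ∈ V
    · right
      refine ⟨hx, fun hxU => ?_⟩
      have : x ∈ {x | x ∈ frontier K ∧ ‖x‖ < t} ∩ (U ∩ V) := ⟨hCS hx, hxU, hxV⟩
      rw [hdisj] at this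
      exact this
    · exact Or.inl ⟨hx, hxV⟩
  have hC1ne : ∀ x ∈ C1, x ≠ 0 := fun x hx => norm_pos_iff.1 (hfpos x hx.1.1)
  have hC2ne : ∀ x ∈ C2, x ≠ 0 := fun x hx => norm_pos_iff.1 (hfpos x hx.1.1)
  have hD1 : IsCompact (nrm '' C1) := hC1c.image_of_continuousOn (continuousOn_nrm hC1ne)
  have hD2 : IsCompact (nrm '' C2) := hC2c.image_of_continuousOn (continuousOn_nrm hC2ne)
  have hgn : ∀ x ∈ frontier K, ‖x‖ * gauge K (nrm x) = 1 := by
    intro x hx
    rw [← b.gauge_smul (norm_nonneg _), smul_nrm, b.mem_frontier_iff.1 hx]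
  have hDD : Disjoint (nrm '' C1) (nrm '' C2) := by
    rw [Set.disjoint_left]
    rintro _ ⟨x, hx, rfl⟩ ⟨y, hy, hxy⟩
    have h1 := hgn x hx.1.1
    have h2 := hgn y hy.1.1
    rw [hxy] at h2
    have hg : gauge K (nrm x) ≠ 0 := by
      intro h0; rw [h0, mul_zero] at h1; norm_num at h1
    have h3 : ‖x‖ = ‖y‖ := by
      apply mul_right_cancel₀ hg
      rw [h1, h2]
    have h4 : x = y := by
      rw [← smul_nrm x, ← smul_nrm y, h3, hxy]
    rw [← h4] at hy
    have hxU : x ∈ U := (hcov (hCS hx.1)).resolve_right hx.2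
    exact hy.2 hxU
  obtain ⟨O1, O2, hO1, hO2, hDO1, hDO2, hOO⟩ := SeparatedNhds.of_isCompact_isCompact hD1 hD2 hDD
  set Z : Set E3 := sphere 0 1 \ (O1 ∪ O2) with hZ
  have hZc : IsCompact Z := (isCompact_sphere _ _).diff (hO1.union hO2)
  have hZg : ∀ w ∈ Z, gauge K w < 1 / t' := by
    intro w hw
    have hwn : ‖w‖ = 1 := by simpa using hw.1
    have hw0 : w ≠ 0 := by rintro rfl; simp at hwn
    have hg := b.gauge_pos hw0
    by_contra hcon
    rw [not_lt, div_le_iff₀ ht'0] at hcon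
    apply hw.2
    have hx := b.exists_frontier hw0
    have hxC : (gauge K w)⁻¹ • w ∈ C := by
      refine ⟨hx, ?_⟩
      rw [mem_closedBall_zero_iff, norm_smul, hwn, mul_one, norm_inv, Real.norm_eq_abs,
        abs_of_pos hg, inv_le_iff_one_le_mul₀ hg]
      linarith
    have hnx : nrm ((gauge K w)⁻¹ • w) = w := by
      rw [nrm_smul (by positivity), nrm_of_unit hwn]
    rcases hC12 hxC with h1 | h1
    · left; apply hDO1; exact ⟨_, h1, hnx⟩
    · right; apply hDO2; exact ⟨_, h1, hnx⟩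
  obtain ⟨γ, hγ0, hγ1, hγ⟩ : ∃ γ : ℝ, 0 < γ ∧ γ < 1 / t' ∧ ∀ w ∈ Z, gauge K w ≤ γ := by
    rcases Z.eq_empty_or_nonempty with he | hne
    · refine ⟨1 / (2 * t'), by positivity, ?_, by rw [he]; simp⟩
      apply one_div_lt_one_div_of_lt ht'0; linarith
    · obtain ⟨w, hw, hmax⟩ := hZc.exists_isMaxOn hne b.continuous_gauge.continuousOn
      have hwn : ‖w‖ = 1 := by simpa using hw.1
      have hw0 : w ≠ 0 := by rintro rfl; simp at hwn
      exact ⟨gauge K w, b.gauge_pos hw0, hZg w hw, fun z hz => hmax hz⟩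
  set T : ℝ := (γ + 1 / t') / 2 with hT
  have hT0 : 0 < T := by
    have : 0 < 1 / t' := by positivity
    linarith
  set η : ℝ := min (1 / 2) ((1 / t' - γ) / (4 * T)) with hη
  have hη0 : 0 < η := lt_min (by norm_num) (div_pos (by linarith) (by positivity))
  have hη1 : η < 1 := (min_le_left _ _).trans_lt (by norm_num)
  have hη2 : η * (4 * T) ≤ 1 / t' - γ := by
    have : η ≤ (1 / t' - γ) / (4 * T) := min_le_right _ _
    rwa [le_div_iff₀ (by positivity)] at this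
  obtain ⟨Q, r', R', bQ, hCQ, hKQ, hQK⟩ := h η hη0 hη1
  have hQg : ∀ w : E3, w ≠ 0 → gauge Q w * (1 - η) ≤ gauge K w := by
    intro w hw
    have hg := b.gauge_pos hw
    have h1 : (1 - η) • ((gauge K w)⁻¹ • w) ∈ Q :=
      hKQ ⟨_, b.frontier_subset (b.exists_frontier hw), rfl⟩
    rw [bQ.mem_iff_gauge, bQ.gauge_smul (by linarith), bQ.gauge_smul (by positivity)] at h1
    have h2 : (1 - η) * ((gauge K w)⁻¹ * gauge Q w) = gauge Q w * (1 - η) / gauge K w := by
      rw [div_eq_mul_inv]; ring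
    rw [h2, div_le_one hg] at h1
    exact h1
  have hKg : ∀ w : E3, w ≠ 0 → gauge K w ≤ gauge Q w * (1 + η) := by
    intro w hw
    have hg := bQ.gauge_pos hw
    obtain ⟨z, hz, hze⟩ := hQK (bQ.frontier_subset (bQ.exists_frontier hw))
    simp only at hze
    have h1 := congrArg (gauge K) hze
    rw [b.gauge_smul (by linarith), b.gauge_smul (by positivity)] at h1
    have h2 := b.mem_iff_gauge.1 hz
    have h3 : (gauge Q w)⁻¹ * gauge K w ≤ 1 + η := by
      rw [← h1]; nlinarith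
    rw [inv_mul_le_iff₀ hg] at h3
    exact h3
  set SQ : Set E3 := {x | x ∈ frontier Q ∧ ‖x‖ < 1 / T} with hSQ
  have hSQc : IsPreconnected SQ := hCQ (1 / T)
  have hSQne : ∀ x ∈ SQ, x ≠ 0 := fun x hx =>
    norm_pos_iff.1 (bQ.rpos.trans_le (bQ.norm_frontier_ge hx.1))
  have hIc : IsPreconnected (nrm '' SQ) := hSQc.image _ (continuousOn_nrm hSQne)
  have hsub : nrm '' SQ ⊆ O1 ∪ O2 := by
    rintro _ ⟨x, hx, rfl⟩
    by_contra hcon
    have hx0 := hSQne x hx
    have hnx : ‖nrm x‖ = 1 := norm_nrm hx0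
    have hn0 : nrm x ≠ 0 := by intro h0; rw [h0, norm_zero] at hnx; norm_num at hnx
    have hZx : nrm x ∈ Z := ⟨by simpa using hnx, hcon⟩
    have h1 := hγ _ hZx
    have h2 := hQg _ hn0
    have h3 : ‖x‖ * gauge Q (nrm x) = 1 := by
      rw [← bQ.gauge_smul (norm_nonneg _), smul_nrm, bQ.mem_frontier_iff.1 hx.1]
    have h4 : ‖x‖ * T < 1 := by
      have := hx.2
      rwa [lt_div_iff₀ hT0] at this
    have hxp : 0 < ‖x‖ := norm_pos_iff.2 hx0
    have h5 : gauge Q (nrm x) * (1 - η) ≤ γ := h2.trans h1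
    have h6 : T < gauge Q (nrm x) := by
      by_contra hle
      rw [not_lt] at hle
      have := mul_le_mul_of_nonneg_left hle hxp.le
      linarith
    have h7 : T * (1 - η) < γ := by
      have := mul_lt_mul_of_pos_right h6 (sub_pos.2 hη1)
      linarith
    have h8 : T - γ = (1 / t' - γ) / 2 := by rw [hT]; ring
    nlinarith
  have hpt : ∀ z ∈ frontier K, ‖z‖ ≤ t' → nrm z ∈ nrm '' SQ := by
    intro z hz hzt
    have hz0 : z ≠ 0 := norm_pos_iff.1 (hfpos z hz)
    have hnz : ‖nrm z‖ = 1 := norm_nrm hz0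
    have hn0 : nrm z ≠ 0 := by intro h0; rw [h0, norm_zero] at hnz; norm_num at hnz
    have hg := bQ.gauge_pos hn0
    refine ⟨(gauge Q (nrm z))⁻¹ • nrm z, ⟨bQ.exists_frontier hn0, ?_⟩, ?_⟩
    · rw [norm_smul, hnz, mul_one, norm_inv, Real.norm_eq_abs, abs_of_pos hg, ← one_div]
      apply one_div_lt_one_div_of_lt hT0
      have h1 := hKg _ hn0
      have h2 := hgn z hz
      have hzp : 0 < ‖z‖ := norm_pos_iff.2 hz0
      have h3 : 1 / t' ≤ gauge K (nrm z) := by
        rw [div_le_iff₀ ht'0]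
        have hgK := b.gauge_pos hn0
        nlinarith
      have h4 : 1 / t' ≤ gauge Q (nrm z) * (1 + η) := h3.trans h1
      by_contra hle
      rw [not_lt] at hle
      have h5 : gauge Q (nrm z) * (1 + η) ≤ T * (1 + η) :=
        mul_le_mul_of_nonneg_right hle (by linarith)
      have h6 : 1 / t' - T = (1 / t' - γ) / 2 := by rw [hT]; ring
      nlinarith
    · rw [nrm_smul (by positivity), nrm_of_unit hnz]
  have hne1 : (nrm '' SQ ∩ O1).Nonempty :=
    ⟨nrm u, hpt u hu.1 (le_max_left _ _), hDO1 ⟨u, huC, rfl⟩⟩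
  have hne2 : (nrm '' SQ ∩ O2).Nonempty :=
    ⟨nrm v, hpt v hv.1 (le_max_right _ _), hDO2 ⟨v, hvC, rfl⟩⟩
  obtain ⟨z, _, hz1, hz2⟩ := hIc O1 O2 hO1 hO2 hsub hne1 hne2
  exact (Set.disjoint_left.1 hOO hz1) hz2

end MP2b501e
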