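import Pool.Agent.Lib_2b501e.Base

open MeasureTheory Metric Set
open scoped RealInnerProductSpace Topology Pointwise

namespace MP2b501e

/-- Directions `e` in which no cut at an exposed non-equilibrium point moves the moment. -/
def Miss (K : Set E3) (e : E3) : Prop := ∀ u x, Exp K u x → 0 ≤ ⟪x, e⟫

lemma Miss.add {K : Set E3} {e f : E3} (he : Miss K e) (hf : Miss K f) {a b : ℝ} (ha : 0 ≤ a)
    (hb : 0 ≤ b) : Miss K (a • e + b • f) := by
  intro u x h
  rw [inner_add_right, real_inner_smul_right, real_inner_smul_right]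
  exact add_nonneg (mul_nonneg ha (he u x h)) (mul_nonneg hb (hf u x h))

lemma Miss.smul {K : Set E3} {e : E3} (he : Miss K e) {a : ℝ} (ha : 0 ≤ a) : Miss K (a • e) := by
  intro u x h
  rw [real_inner_smul_right]
  exact mul_nonneg ha (he u x h)

lemma Miss.isClosed (K : Set E3) : IsClosed {e | Miss K e} := by
  have : {e | Miss K e} = ⋂ u : E3, ⋂ x : E3, ⋂ _ : Exp K u x, {e : E3 | 0 ≤ ⟪x, e⟫} := by
    ext e; simp [Miss]
  rw [this]
  apply isClosed_iInter; intro u
  apply isClosed_iInter; intro x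
  apply isClosed_iInter; intro _
  exact isClosed_le continuous_const (by fun_prop)

/-- the support set in direction `u` lies in the open half-space `⟪·, e⟫ < 0` -/
def Low (K : Set E3) (e u : E3) : Prop := ∀ x ∈ K, ⟪x, u⟫ = hs K u → ⟪x, e⟫ < 0

lemma norm_nrm_sub_le' {a b : E3} {m : ℝ} (hm : 0 < m) (ha : m ≤ ‖a‖) (hb : b ≠ 0) :
    ‖nrm a - nrm b‖ ≤ 2 / m * ‖a - b‖ := by
  have h1 : nrm a = nrm ((1 / (2 * m)) • a) := by
    simp only [nrm, norm_smul, smul_smul]
    congr 1
    rw [Real.norm_eq_abs, abs_of_pos (by positivity)]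
    field_simp
  have h2 : nrm b = nrm ((1 / (2 * m)) • b) := by
    simp only [nrm, norm_smul, smul_smul]
    congr 1
    rw [Real.norm_eq_abs, abs_of_pos (by positivity)]
    field_simp
  have h3 : 1 / 2 ≤ ‖(1 / (2 * m)) • a‖ := by
    rw [norm_smul, Real.norm_eq_abs, abs_of_pos (by positivity)]
    calc (1:ℝ) / 2 = 1 / (2 * m) * m := by field_simp
      _ ≤ _ := by gcongr
  have h4 : (1 / (2 * m)) • b ≠ 0 := smul_ne_zero (by positivity) hb
  have := norm_nrm_sub_le h3 h4
  rw [← h1, ← h2, ← smul_sub, norm_smul, Real.norm_eq_abs, abs_of_pos (by positivity)] at this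
  calc ‖nrm a - nrm b‖ ≤ 4 * (1 / (2 * m) * ‖a - b‖) := this
    _ = 2 / m * ‖a - b‖ := by ring

lemma quad_const {f : ℝ → ℝ} {C : ℝ} (h : ∀ x ∈ Icc (0:ℝ) 1, ∀ y ∈ Icc (0:ℝ) 1,
    |f x - f y| ≤ C * (x - y) ^ 2) : f 0 = f 1 := by
  have key : ∀ n : ℕ, 0 < n → |f 0 - f 1| ≤ C / n := by
    intro n hn
    have hn' : (0:ℝ) < n := by exact_mod_cast hn
    have h1 : ∀ k : ℕ, k ≤ n → |f 0 - f (k / n)| ≤ k * (C / n ^ 2) := by
      intro k
      induction k with
      | zero => intro _; simp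
      | succ k ih =>
        intro hk
        have h2 := ih (by omega)
        have hk1 : ((k:ℝ) / n) ∈ Icc (0:ℝ) 1 := ⟨by positivity, by
          rw [div_le_one hn']; exact_mod_cast (by omega : k ≤ n)⟩
        have hk2 : (((k + 1 : ℕ) : ℝ) / n) ∈ Icc (0:ℝ) 1 := ⟨by positivity, by
          rw [div_le_one hn']; exact_mod_cast hk⟩
        have h3 := h _ hk1 _ hk2
        have h4 : C * ((k:ℝ) / n - ((k + 1 : ℕ) : ℝ) / n) ^ 2 = C / n ^ 2 := by
          push_cast; field_simp; ring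
        rw [h4] at h3
        have h5 := abs_sub_le (f 0) (f (k / n)) (f (((k + 1 : ℕ) : ℝ) / n))
        push_cast at h5 h3 ⊢
        linarith
    have h2 := h1 n le_rfl
    rw [div_self hn'.ne'] at h2
    calc |f 0 - f 1| ≤ n * (C / n ^ 2) := h2
      _ = C / n := by field_simp
  have h0 : |f 0 - f 1| ≤ 0 := by
    have ht : Filter.Tendsto (fun n : ℕ => C / (n:ℝ)) Filter.atTop (𝓝 0) :=
      tendsto_const_div_atTop_nhds_zero_nat C
    refine ge_of_tendsto ht ?_
    filter_upwards [Filter.eventually_gt_atTop 0] with n hn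
    exact key n hn
  have := abs_nonpos_iff.1 h0
  linarith

namespace Body

variable {K : Set E3} {r R : ℝ}

lemma low_gap (b : Body K r R) {e u : E3} (h : Low K e u) :
    ∃ κ > 0, ∀ x ∈ K, 0 ≤ ⟪x, e⟫ → ⟪x, u⟫ ≤ hs K u - κ := by
  have hcl : IsClosed {x : E3 | 0 ≤ ⟪x, e⟫} := isClosed_le continuous_const (by fun_prop)
  have hcomp : IsCompact (K ∩ {x | 0 ≤ ⟪x, e⟫}) := b.compact.inter_right hcl
  have hne : (K ∩ {x | 0 ≤ ⟪x, e⟫}).Nonempty := ⟨0, b.zero_mem, by simp⟩
  obtain ⟨z, hz, hmax⟩ := hcomp.exists_isMaxOn hne (f := fun y => ⟪y, u⟫) (by fun_prop)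
  have h1 : ⟪z, u⟫ < hs K u := by
    refine lt_of_le_of_ne (inner_le_hs b.compact hz.1 u) fun heq => ?_
    exact absurd (h z hz.1 heq) (not_lt.2 hz.2)
  refine ⟨hs K u - ⟪z, u⟫, by linarith, fun x hx hxe => ?_⟩
  have : ⟪x, u⟫ ≤ ⟪z, u⟫ := hmax ⟨hx, hxe⟩
  linarith

/-- If the support set in direction `u` is in the missing half-space then `u` is an equilibrium
direction. -/
theorem foot_mem_of_low (b : Body K r R) {e u : E3} (he : Miss K e) (hu : ‖u‖ = 1)
    (h : Low K e u) : hs K u • u ∈ K := by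
  obtain ⟨κ, hκ, hgap⟩ := b.low_gap h
  have hR := b.R_pos
  obtain ⟨z, hz, hzu⟩ := exists_eq_hs b.compact b.nonempty u
  -- farthest points
  have key : ∀ lam : ℝ, R ^ 2 / (2 * κ) < lam → R < lam →
      ∃ c : ℝ, c • u ∈ K ∧ hs K u - R ^ 2 / (2 * lam) ≤ c ∧ c ≤ hs K u := by
    intro lam hlam hlamR
    have hlam0 : 0 < lam := hR.trans hlamR
    obtain ⟨x, hx, hmax⟩ := b.compact.exists_isMaxOn b.nonempty (f := fun y => ‖y + lam • u‖)
      (by fun_prop)
    have hxu : hs K u - R ^ 2 / (2 * lam) ≤ ⟪x, u⟫ := by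
      have h1 : ‖z + lam • u‖ ≤ ‖x + lam • u‖ := hmax hz
      have h2 : ‖z + lam • u‖ ^ 2 ≤ ‖x + lam • u‖ ^ 2 := by
        apply pow_le_pow_left₀ (norm_nonneg _) h1
      rw [norm_add_sq_real, norm_add_sq_real, real_inner_smul_right, real_inner_smul_right,
        hzu] at h2
      have h3 : ‖x‖ ^ 2 ≤ R ^ 2 := pow_le_pow_left₀ (norm_nonneg _) (b.norm_le hx) 2
      have h4 := sq_nonneg ‖z‖
      rw [sub_le_iff_le_add, ← sub_le_iff_le_add', le_div_iff₀ (by positivity)]
      nlinarith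
    have hxe : ⟪x, e⟫ < 0 := by
      by_contra hcon
      have h5 := hgap x hx (not_lt.1 hcon)
      rw [div_lt_iff₀ (by positivity)] at hlam
      have h6 : R ^ 2 / (2 * lam) < κ := by
        rw [div_lt_iff₀ (by positivity)]; nlinarith
      linarith
    set w : E3 := x + lam • u with hw
    have hw0 : w ≠ 0 := by
      intro h0
      have h1 : ‖lam • u‖ = ‖x‖ := by
        have : lam • u = -x := by rw [hw] at h0; exact eq_neg_of_add_eq_zero_right h0
        rw [this, norm_neg]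
      rw [norm_smul, hu, mul_one, Real.norm_eq_abs, abs_of_pos hlam0] at h1
      have := b.norm_le hx
      linarith
    have hwn : 0 < ‖w‖ := norm_pos_iff.2 hw0
    have hlt : ∀ y ∈ K, y ≠ x → ⟪y, w⟫ < ⟪x, w⟫ := by
      intro y hy hyx
      have h1 : ‖y + lam • u‖ ≤ ‖w‖ := hmax hy
      have h2 : ‖y + lam • u‖ ^ 2 ≤ ‖w‖ ^ 2 := pow_le_pow_left₀ (norm_nonneg _) h1 2
      have h3 : 0 < ‖(y + lam • u) - w‖ ^ 2 := by
        have : (y + lam • u) - w = y - x := by rw [hw]; abel
        rw [this]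
        have := norm_pos_iff.2 (sub_ne_zero.2 hyx)
        positivity
      rw [norm_sub_sq_real] at h3
      have h4 : ⟪y + lam • u, w⟫ < ‖w‖ ^ 2 := by linarith
      rw [inner_add_left] at h4
      have h5 : ⟪x, w⟫ = ‖w‖ ^ 2 - ⟪lam • u, w⟫ := by
        rw [← real_inner_self_eq_norm_sq, ← inner_sub_left]
        congr 1
        rw [hw]; abel
      linarith
    have hnexp : ¬ Exp K (nrm w) x := fun hE => absurd (he _ _ hE) (not_le.2 hxe)
    have hxeq : x = ⟪x, nrm w⟫ • nrm w := by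
      by_contra hne
      apply hnexp
      refine ⟨norm_nrm hw0, hx, fun y hy hyx => ?_, hne⟩
      rw [nrm, real_inner_smul_right, real_inner_smul_right]
      exact mul_lt_mul_of_pos_left (hlt y hy hyx) (by positivity)
    obtain ⟨c, hc⟩ : ∃ c : ℝ, x = c • w := by
      refine ⟨⟪x, nrm w⟫ * ‖w‖⁻¹, ?_⟩
      rw [mul_smul]
      exact hxeq
    have hc1 : c ≠ 1 := by
      rintro rfl
      rw [one_smul, hw] at hc
      have : lam • u = 0 := by
        have := congrArg (fun v => v - x) hc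
        simpa using this.symm
      rw [smul_eq_zero] at this
      rcases this with h | h
      · exact hlam0.ne' h
      · rw [h] at hu; simp at hu
    have hxu2 : x = (c * lam / (1 - c)) • u := by
      have h1 : (1 - c) • x = (c * lam) • u := by
        have : x - c • x = (c * lam) • u := by
          conv_lhs => rw [hc]
          rw [mul_smul]
          have e1 : c • w - c • c • w = c • (w - c • w) := by rw [smul_sub]
          rw [e1, ← hc, hw, add_sub_cancel_left]
        rw [sub_smul, one_smul]; exact this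
      have h2 : (1 - c) ≠ 0 := sub_ne_zero.2 (Ne.symm hc1)
      rw [div_eq_inv_mul, mul_smul, ← h1, smul_smul, inv_mul_cancel₀ h2, one_smul]
    have huu : ⟪u, u⟫ = 1 := by rw [real_inner_self_eq_norm_sq, hu]; norm_num
    set c' : ℝ := c * lam / (1 - c) with hc'
    have hxc : ⟪x, u⟫ = c' := by rw [hxu2, real_inner_smul_left, huu, mul_one]
    refine ⟨c', by rw [← hxu2]; exact hx, by rw [← hxc]; exact hxu, ?_⟩
    rw [← hxc]
    exact inner_le_hs b.compact hx u
  have hmem : hs K u • u ∈ closure K := by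
    rw [Metric.mem_closure_iff]
    intro ε hε
    set lam : ℝ := max (R ^ 2 / (2 * κ) + 1) (max (R + 1) (R ^ 2 / ε + 1)) with hlam
    have h1 : R ^ 2 / (2 * κ) + 1 ≤ lam := le_max_left _ _
    have h2 : R + 1 ≤ lam := (le_max_left _ _).trans (le_max_right _ _)
    have h3 : R ^ 2 / ε + 1 ≤ lam := (le_max_right _ _).trans (le_max_right _ _)
    obtain ⟨c, hc1, hc2, hc3⟩ := key lam (by linarith) (by linarith)
    refine ⟨c • u, hc1, ?_⟩
    rw [dist_eq_norm, ← sub_smul, norm_smul, hu, mul_one, Real.norm_eq_abs,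
      abs_of_nonneg (by linarith)]
    have hlam0 : 0 < lam := by linarith
    have h4 : R ^ 2 / (2 * lam) < ε := by
      rw [div_lt_iff₀ (by positivity)]
      have : R ^ 2 / ε < lam := by linarith
      rw [div_lt_iff₀ hε] at this
      nlinarith [sq_nonneg R]
    linarith
  rwa [b.closed.closure_eq] at hmem

lemma low_seg (_b : Body K r R) {e u : E3} (hu : Low K e u) {y : E3} (hy : y ∈ K)
    (hyu : ⟪y, u⟫ = hs K u) {l : ℝ} (hl : l ∈ Icc (0:ℝ) 1) :
    Low K e (seg (-e) u l) := by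
  have hye := hu y hy hyu
  have hK := _b.compact
  intro x hx hxw
  rcases eq_or_lt_of_le hl.2 with h1 | h1
  · rw [h1, seg_one] at hxw
    exact hu x hx hxw
  · have h2 : ⟪y, seg (-e) u l⟫ ≤ ⟪x, seg (-e) u l⟫ := by
      rw [hxw]; exact inner_le_hs hK hy _
    simp only [seg, inner_add_right, real_inner_smul_right, inner_neg_right] at h2
    have h3 : ⟪x, u⟫ ≤ ⟪y, u⟫ := by rw [hyu]; exact inner_le_hs hK hx u
    have h4 : l * ⟪x, u⟫ ≤ l * ⟪y, u⟫ := mul_le_mul_of_nonneg_left h3 hl.1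
    have h5 : (1 - l) * ⟪x, e⟫ ≤ (1 - l) * ⟪y, e⟫ := by linarith
    have h6 : ⟪x, e⟫ ≤ ⟪y, e⟫ := le_of_mul_le_mul_left h5 (by linarith)
    linarith

lemma Low_nrm (b : Body K r R) {e w : E3} (hw : w ≠ 0) (h : Low K e w) : Low K e (nrm w) := by
  intro x hx hxw
  apply h x hx
  rw [b.hs_nrm hw, nrm, real_inner_smul_right] at hxw
  have hn : 0 < ‖w‖ := norm_pos_iff.2 hw
  field_simp at hxw
  exact hxw

/-- The support function is constant on the lower directions. -/
theorem hs_eq_of_low (b : Body K r R) {e u : E3} (he : Miss K e) (hen : ‖e‖ = 1) (hu : ‖u‖ = 1)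
    (h : Low K e u) : hs K u = hs K (-e) := by
  have hR := b.R_pos
  obtain ⟨y, hy, hyu⟩ := exists_eq_hs b.compact b.nonempty u
  have hye := h y hy hyu
  have hupos : 0 < hs K u := b.hs_pos (by rintro rfl; simp at hu)
  set m0 : ℝ := min (-⟪y, e⟫) (hs K u) with hm0
  have hm0pos : 0 < m0 := lt_min (by linarith) hupos
  have hwin : ∀ l ∈ Icc (0:ℝ) 1, m0 / R ≤ ‖seg (-e) u l‖ := by
    intro l hl
    have h1 : m0 ≤ ⟪y, seg (-e) u l⟫ := by
      simp only [seg, inner_add_right, real_inner_smul_right, inner_neg_right, hyu]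
      have h2 := min_le_left (-⟪y, e⟫) (hs K u)
      have h3 := min_le_right (-⟪y, e⟫) (hs K u)
      rw [← hm0] at h2 h3
      have h4 := mul_le_mul_of_nonneg_left h2 (sub_nonneg.2 hl.2)
      have h5 := mul_le_mul_of_nonneg_left h3 hl.1
      linarith
    have h2 := real_inner_le_norm y (seg (-e) u l)
    have h3 : ‖y‖ * ‖seg (-e) u l‖ ≤ R * ‖seg (-e) u l‖ :=
      mul_le_mul_of_nonneg_right (b.norm_le hy) (norm_nonneg _)
    rw [div_le_iff₀ hR]
    linarith
  have hm : 0 < m0 / R := by positivity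
  have hw0 : ∀ l ∈ Icc (0:ℝ) 1, seg (-e) u l ≠ 0 := fun l hl =>
    norm_pos_iff.1 (hm.trans_le (hwin l hl))
  set f : ℝ → ℝ := fun l => hs K (nrm (seg (-e) u l)) with hf
  have hfoot : ∀ l ∈ Icc (0:ℝ) 1, f l • nrm (seg (-e) u l) ∈ K := by
    intro l hl
    exact b.foot_mem_of_low he (norm_nrm (hw0 l hl))
      (b.Low_nrm (hw0 l hl) (b.low_seg h hy hyu hl))
  have hstep : ∀ l ∈ Icc (0:ℝ) 1, ∀ m ∈ Icc (0:ℝ) 1,
      f l - f m ≤ R / 2 * (2 / (m0 / R) * 2) ^ 2 * (l - m) ^ 2 := by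
    intro l hl m hmI
    have h1 := inner_le_hs b.compact (hfoot l hl) (nrm (seg (-e) u m))
    rw [real_inner_smul_left, inner_of_unit (norm_nrm (hw0 l hl)) (norm_nrm (hw0 m hmI))] at h1
    have h2 := norm_nrm_sub_le' hm (hwin l hl) (hw0 m hmI)
    rw [norm_seg_sub_seg] at h2
    have h3 : ‖-e - u‖ ≤ 2 := by
      refine (norm_sub_le _ _).trans ?_
      rw [norm_neg, hen, hu]; norm_num
    have h4 : ‖nrm (seg (-e) u l) - nrm (seg (-e) u m)‖ ≤ (2 / (m0 / R) * 2) * |l - m| := by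
      refine h2.trans ?_
      have : 2 / (m0 / R) * (|l - m| * ‖-e - u‖) ≤ 2 / (m0 / R) * (|l - m| * 2) := by gcongr
      linarith
    have h5 : ‖nrm (seg (-e) u l) - nrm (seg (-e) u m)‖ ^ 2 ≤
        (2 / (m0 / R) * 2) ^ 2 * (l - m) ^ 2 := by
      have := pow_le_pow_left₀ (norm_nonneg _) h4 2
      rwa [mul_pow _ (|l - m|), sq_abs] at this
    have h6 : f l ≤ R := b.hs_unit_le (norm_nrm (hw0 l hl))
    have h7 : 0 ≤ f l := b.rpos.le.trans (b.le_hs_unit (norm_nrm (hw0 l hl)))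
    change f l * _ ≤ f m at h1
    have h8 : f l * ‖nrm (seg (-e) u l) - nrm (seg (-e) u m)‖ ^ 2 ≤
        R * ((2 / (m0 / R) * 2) ^ 2 * (l - m) ^ 2) := by
      apply mul_le_mul h6 h5 (by positivity) hR.le
    nlinarith
  have := quad_const (f := f) (C := R / 2 * (2 / (m0 / R) * 2) ^ 2) (by
    intro l hl m hmI
    rw [abs_le]
    have h1 := hstep l hl m hmI
    have h2 := hstep m hmI l hl
    have h3 : (m - l) ^ 2 = (l - m) ^ 2 := by ring
    rw [h3] at h2
    constructor <;> linarith)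
  simp only [hf, seg_zero, seg_one] at this
  rw [nrm_of_unit hu, nrm_of_unit (by rw [norm_neg]; exact hen)] at this
  exact this.symm

/-- All normals at lower boundary points have the same level. -/
theorem hs_normal_of_lower (b : Body K r R) {e x v : E3} (he : Miss K e) (hen : ‖e‖ = 1)
    (hx : x ∈ K) (hxe : ⟪x, e⟫ < 0) (hv : ‖v‖ = 1) (hn : hs K v = ⟪x, v⟫) :
    hs K v = hs K (-e) := by
  have hvpos : 0 < hs K v := b.hs_pos (by rintro rfl; simp at hv)
  have key : ∀ s : ℝ, 0 < s → hs K (v - s • e) = hs K (-e) * ‖v - s • e‖ := by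
    intro s hs'
    have hne : v - s • e ≠ 0 := by
      intro h0
      have : ⟪x, v - s • e⟫ = 0 := by rw [h0, inner_zero_right]
      rw [inner_sub_right, real_inner_smul_right, ← hn] at this
      nlinarith
    have hlow : Low K e (v - s • e) := by
      intro z hz hzu
      have h1 := inner_le_hs b.compact hx (v - s • e)
      rw [← hzu, inner_sub_right, inner_sub_right, real_inner_smul_right,
        real_inner_smul_right] at h1
      have h2 := inner_le_hs b.compact hz v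
      rw [hn] at h2
      have h3 : s * ⟪z, e⟫ ≤ s * ⟪x, e⟫ := by linarith
      have := le_of_mul_le_mul_left h3 hs'
      linarith
    have h4 := b.hs_eq_of_low he hen (norm_nrm hne) (b.Low_nrm hne hlow)
    rw [b.hs_nrm hne, div_eq_iff (norm_pos_iff.2 hne).ne'] at h4
    exact h4
  have t1 : Filter.Tendsto (fun s : ℝ => hs K (v - s • e)) (𝓝[>] 0) (𝓝 (hs K (v - (0:ℝ) • e))) := by
    have hc : Continuous fun s : ℝ => hs K (v - s • e) := b.continuous_hs.comp (by fun_prop)
    exact (hc.tendsto 0).mono_left nhdsWithin_le_nhds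
  have t2 : Filter.Tendsto (fun s : ℝ => hs K (-e) * ‖v - s • e‖) (𝓝[>] 0)
      (𝓝 (hs K (-e) * ‖v - (0:ℝ) • e‖)) := by
    have hc : Continuous fun s : ℝ => hs K (-e) * ‖v - s • e‖ := by fun_prop
    exact (hc.tendsto 0).mono_left nhdsWithin_le_nhds
  have t3 : Filter.Tendsto (fun s : ℝ => hs K (v - s • e)) (𝓝[>] 0)
      (𝓝 (hs K (-e) * ‖v - (0:ℝ) • e‖)) := by
    refine t2.congr' ?_
    filter_upwards [self_mem_nhdsWithin] with s hs'
    exact (key s hs').symm
  have := tendsto_nhds_unique t1 t3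
  simpa [hv] using this

end Body

end MP2b501e
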