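import Pool.Agent.Lib_2b501e.Drain

open MeasureTheory Metric Set
open scoped RealInnerProductSpace Topology

namespace MP2b501e

instance : Fact (Module.finrank ℝ E3 = 2 + 1) := ⟨by simp [E3]⟩

lemma finrank_perp {u : E3} (hu : u ≠ 0) : Module.finrank ℝ (Submodule.span ℝ {u})ᗮ = 2 :=
  Submodule.finrank_orthogonal_span_singleton hu

/-- A supporting plane `⟪u, x⟫ = g` that contains a small disc of `P` around the foot point of
the origin gives a stable face when the centroid is the origin. -/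
lemma disc_face {P : Set E3} {u : E3} {g : ℝ} (hu : ‖u‖ = 1) (hsup : ∀ x ∈ P, ⟪u, x⟫ ≤ g)
    {δ : ℝ} (hδ : 0 < δ) (hdisc : ∀ y : E3, ⟪u, y⟫ = g → ‖y - g • u‖ < δ → y ∈ P)
    (hc : centroid P = 0) :
    IsFace P {x ∈ P | ⟪u, x⟫ = g} ∧ IsStable P {x ∈ P | ⟪u, x⟫ = g} := by
  set F : Set E3 := {x ∈ P | ⟪u, x⟫ = g} with hF
  have hu0 : u ≠ 0 := by rintro rfl; simp at hu
  have huu : ⟪u, u⟫ = 1 := by rw [real_inner_self_eq_norm_sq, hu]; norm_num
  have hux0 : ⟪u, g • u⟫ = g := by rw [real_inner_smul_right, huu, mul_one]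
  have hx0F : g • u ∈ F := ⟨hdisc _ hux0 (by simpa using hδ), hux0⟩
  have hspan : vectorSpan ℝ F = (Submodule.span ℝ {u})ᗮ := by
    apply le_antisymm
    · rw [vectorSpan_eq_span_vsub_set_right ℝ hx0F, Submodule.span_le]
      rintro _ ⟨y, hy, rfl⟩
      rw [SetLike.mem_coe, Submodule.mem_orthogonal_singleton_iff_inner_right]
      simp only [vsub_eq_sub, inner_sub_right]
      rw [hy.2, hux0, sub_self]
    · intro v hv
      rw [Submodule.mem_orthogonal_singleton_iff_inner_right] at hv
      rcases eq_or_ne v 0 with rfl | hv0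
      · exact Submodule.zero_mem _
      · have hn : 0 < ‖v‖ := norm_pos_iff.2 hv0
        set η : ℝ := δ / (2 * ‖v‖) with hη
        have hη0 : 0 < η := by positivity
        have hmem : g • u + η • v ∈ F := by
          have h1 : ⟪u, g • u + η • v⟫ = g := by
            rw [inner_add_right, hux0, real_inner_smul_right, hv, mul_zero, add_zero]
          refine ⟨hdisc _ h1 ?_, h1⟩
          rw [add_sub_cancel_left, norm_smul, Real.norm_eq_abs, abs_of_pos hη0, hη]
          have : δ / (2 * ‖v‖) * ‖v‖ = δ / 2 := by field_simp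
          linarith
        have h2 : η • v ∈ vectorSpan ℝ F := by
          have := vsub_mem_vectorSpan ℝ hmem hx0F
          simpa using this
        have := (vectorSpan ℝ F).smul_mem η⁻¹ h2
        rwa [smul_smul, inv_mul_cancel₀ hη0.ne', one_smul] at this
  constructor
  · refine ⟨⟨u, g, hsup, rfl⟩, ?_⟩
    rw [hspan]
    exact finrank_perp hu0
  · refine ⟨g • u, ?_, ?_⟩
    · rw [mem_intrinsicInterior]
      have hx0A : g • u ∈ affineSpan ℝ F := subset_affineSpan ℝ F hx0F
      refine ⟨⟨g • u, hx0A⟩, ?_, rfl⟩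
      rw [mem_interior]
      refine ⟨(Subtype.val : affineSpan ℝ F → E3) ⁻¹' (ball (g • u) δ), ?_,
        isOpen_ball.preimage continuous_subtype_val, ?_⟩
      · rintro ⟨y, hy⟩ hyb
        simp only [mem_preimage, mem_ball, dist_eq_norm] at hyb
        have hyu : ⟪u, y⟫ = g := by
          have hdir : y - g • u ∈ vectorSpan ℝ F := by
            have := AffineSubspace.vsub_mem_direction hy hx0A
            rwa [direction_affineSpan] at this
          rw [hspan, Submodule.mem_orthogonal_singleton_iff_inner_right, inner_sub_right,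
            hux0] at hdir
          linarith
        exact ⟨hdisc y hyu hyb, hyu⟩
      · simp only [mem_preimage]
        exact mem_ball_self hδ
    · intro y hy
      rw [hc, zero_sub, inner_neg_left, real_inner_smul_left, inner_sub_right, hux0, hy.2]
      simp

lemma intrinsic_move {F : Set E3} {p w : E3} (hp : p ∈ intrinsicInterior ℝ F)
    (hw : w ∈ vectorSpan ℝ F) : ∃ η : ℝ, 0 < η ∧ p + η • w ∈ F ∧ p - η • w ∈ F := by
  rw [mem_intrinsicInterior] at hp
  obtain ⟨y, hy, rfl⟩ := hp
  rw [mem_interior_iff_mem_nhds, Metric.mem_nhds_iff] at hy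
  obtain ⟨ε, hε, hball⟩ := hy
  set η : ℝ := ε / (2 * (‖w‖ + 1)) with hη
  have hη0 : 0 < η := by positivity
  have hlt : ‖η • w‖ < ε := by
    rw [norm_smul, Real.norm_eq_abs, abs_of_pos hη0, hη]
    have h1 : ε / (2 * (‖w‖ + 1)) * ‖w‖ ≤ ε / 2 := by
      rw [div_mul_eq_mul_div, div_le_div_iff₀ (by positivity) (by positivity)]
      nlinarith [norm_nonneg w]
    linarith
  have key : ∀ v : E3, v ∈ vectorSpan ℝ F → ‖v‖ < ε → (y : E3) + v ∈ F := by
    intro v hv hvn
    have hmem : (y : E3) + v ∈ affineSpan ℝ F := by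
      have := AffineSubspace.vadd_mem_of_mem_direction (s := affineSpan ℝ F) (v := v) (p := y)
        (by rw [direction_affineSpan]; exact hv) y.2
      rwa [vadd_eq_add, add_comm] at this
    have := @hball ⟨(y : E3) + v, hmem⟩ (by
      rw [mem_ball, Subtype.dist_eq, dist_eq_norm]
      simpa using hvn)
    exact this
  refine ⟨η, hη0, key _ ((vectorSpan ℝ F).smul_mem _ hw) hlt, ?_⟩
  have := key (-(η • w)) (by
    apply Submodule.neg_mem
    exact (vectorSpan ℝ F).smul_mem _ hw) (by rwa [norm_neg])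
  rwa [← sub_eq_add_neg] at this

lemma isClosed_poly (T : Finset (E3 × ℝ)) : IsClosed (Poly T) := by
  have : Poly T = ⋂ p ∈ T, {x : E3 | ⟪p.1, x⟫ ≤ p.2} := by
    ext x; simp [Poly]
  rw [this]
  apply isClosed_biInter
  intro p _
  exact isClosed_le (by fun_prop) (by fun_prop)

lemma convex_poly (T : Finset (E3 × ℝ)) : Convex ℝ (Poly T) := by
  intro x hx y hy a c ha hc hac p hp
  rw [inner_add_right, real_inner_smul_right, real_inner_smul_right]
  have h1 := mul_le_mul_of_nonneg_left (hx p hp) ha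
  have h2 := mul_le_mul_of_nonneg_left (hy p hp) hc
  calc _ ≤ a * p.2 + c * p.2 := add_le_add h1 h2
    _ = p.2 := by rw [← add_mul, hac, one_mul]

/-- points strictly inside all half-spaces are interior -/
lemma strict_mem_nhds {T : Finset (E3 × ℝ)} {x : E3} (h : ∀ p ∈ T, ⟪p.1, x⟫ < p.2) :
    Poly T ∈ 𝓝 x := by
  have h1 : ∀ᶠ y in 𝓝 x, ∀ p ∈ T, ⟪p.1, y⟫ < p.2 := by
    rw [Filter.eventually_all_finset]
    intro p hp
    have : Continuous fun y : E3 => ⟪p.1, y⟫ := by fun_prop
    exact this.continuousAt.eventually (eventually_lt_nhds (h p hp))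
  filter_upwards [h1] with y hy p hp
  exact (hy p hp).le

lemma MonoSys.lt {T : Finset (E3 × ℝ)} {root : E3 × ℝ} (h : MonoSys T root) {p : E3 × ℝ}
    (hp : p ∈ T) (hne : p ≠ root) : root.2 < p.2 := by
  have hsucc_lt : ∀ q ∈ T, ∀ q' ∈ T, q'.2 < q.2 * ⟪q.1, q'.1⟫ → q'.2 < q.2 := by
    intro q hq q' hq' hlt
    have h1 : ⟪q.1, q'.1⟫ ≤ 1 := by
      have := real_inner_le_norm q.1 q'.1
      rwa [h.unit q hq, h.unit q' hq', mul_one] at this
    have h2 := mul_le_mul_of_nonneg_left h1 (h.pos q hq).le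
    linarith
  have hmin : ∀ q ∈ T, root.2 ≤ q.2 := by
    obtain ⟨m, hm, hmin⟩ := Finset.exists_min_image T (fun q => q.2) ⟨root, h.root_mem⟩
    have : m = root := by
      rcases h.succ m hm with h1 | ⟨q, hq, hlt⟩
      · exact h1
      · exact absurd (hmin q hq) (not_le.2 (hsucc_lt m hm q hq hlt))
    rw [← this]
    exact hmin
  rcases h.succ p hp with h1 | ⟨q, hq, hlt⟩
  · exact absurd h1 hne
  · exact (hmin q hq).trans_lt (hsucc_lt p hp q hq hlt)

theorem MonoSys.monostable {T : Finset (E3 × ℝ)} {root : E3 × ℝ} (h : MonoSys T root)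
    (hc : centroid (Poly T) = 0) : Monostable (Poly T) := by
  classical
  set P := Poly T with hP
  have hru : ‖root.1‖ = 1 := h.unit _ h.root_mem
  have hrp : 0 < root.2 := h.pos _ h.root_mem
  have hr0 : root.1 ≠ 0 := by intro h0; rw [h0] at hru; simp at hru
  have hruu : ⟪root.1, root.1⟫ = 1 := by rw [real_inner_self_eq_norm_sq, hru]; norm_num
  have hint : P ∈ 𝓝 (0 : E3) := by
    apply strict_mem_nhds
    intro p hp
    rw [inner_zero_right]
    exact h.pos p hp
  -- the disc in the root plane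
  have hx0 : ∀ p ∈ T.erase root, ⟪p.1, root.2 • root.1⟫ < p.2 := by
    intro p hp
    have hpT := Finset.mem_of_mem_erase hp
    have hlt := h.lt hpT (Finset.ne_of_mem_erase hp)
    rw [real_inner_smul_right]
    have h1 : ⟪p.1, root.1⟫ ≤ 1 := by
      have := real_inner_le_norm p.1 root.1
      rwa [h.unit p hpT, hru, mul_one] at this
    have h2 := mul_le_mul_of_nonneg_left h1 hrp.le
    linarith
  have hn := strict_mem_nhds hx0
  rw [Metric.mem_nhds_iff] at hn
  obtain ⟨δ, hδ, hball⟩ := hn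
  have hdisc : ∀ y : E3, ⟪root.1, y⟫ = root.2 → ‖y - root.2 • root.1‖ < δ → y ∈ P := by
    intro y hy hyn p hp
    by_cases hpr : p = root
    · rw [hpr, hy]
    · exact hball (by rw [mem_ball, dist_eq_norm]; exact hyn) p (Finset.mem_erase.2 ⟨hpr, hp⟩)
  have hsup : ∀ x ∈ P, ⟪root.1, x⟫ ≤ root.2 := fun x hx => hx root h.root_mem
  obtain ⟨hface, hstable⟩ := disc_face hru hsup hδ hdisc hc
  refine ⟨{x ∈ P | ⟪root.1, x⟫ = root.2}, ⟨hface, hstable⟩, ?_⟩
  rintro F ⟨⟨⟨u, h', hsupu, hFeq⟩, hfr⟩, ⟨p, hpint, hpst⟩⟩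
  have hpF : p ∈ F := intrinsicInterior_subset hpint
  have hpP : p ∈ P := by rw [hFeq] at hpF; exact hpF.1
  have hpu : ⟪u, p⟫ = h' := by rw [hFeq] at hpF; exact hpF.2
  have hu0 : u ≠ 0 := by
    rintro rfl
    have hFP : F = P := by
      rw [hFeq]
      ext x
      rw [inner_zero_left] at hpu
      simp [← hpu]
    rw [hFP] at hfr
    have htop : vectorSpan ℝ P = ⊤ := by
      have h1 : affineSpan ℝ P = ⊤ :=
        affineSpan_eq_top_of_nonempty_interior (s := P) ⟨0, by
          have : (convexHull ℝ P) = P := (convex_poly T).convexHull_eq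
          rw [this]
          exact mem_interior_iff_mem_nhds.2 hint⟩
      rw [← direction_affineSpan, h1, AffineSubspace.direction_top]
    rw [htop] at hfr
    simp [E3] at hfr
  have hWle : vectorSpan ℝ F ≤ (Submodule.span ℝ {u})ᗮ := by
    rw [vectorSpan_eq_span_vsub_set_right ℝ hpF, Submodule.span_le]
    rintro _ ⟨y, hy, rfl⟩
    rw [SetLike.mem_coe, Submodule.mem_orthogonal_singleton_iff_inner_right]
    simp only [vsub_eq_sub, inner_sub_right]
    rw [hFeq] at hy
    rw [hy.2, hpu, sub_self]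
  have hW : vectorSpan ℝ F = (Submodule.span ℝ {u})ᗮ := by
    apply Submodule.eq_of_le_of_finrank_eq hWle
    rw [hfr, finrank_perp hu0]
  have hpspan : p ∈ Submodule.span ℝ {u} := by
    rw [← Submodule.orthogonal_orthogonal (Submodule.span ℝ {u}), ← hW, 
      vectorSpan_eq_span_vsub_set_right ℝ hpF, Submodule.mem_orthogonal]
    intro v hv
    induction hv using Submodule.span_induction with
    | mem x hx =>
      obtain ⟨y, hy, rfl⟩ := hx
      have := hpst y hy
      rw [hc, zero_sub, inner_neg_left, neg_eq_zero] at this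
      rw [real_inner_comm]
      simpa using this
    | zero => simp
    | add x y _ _ hx hy => rw [inner_add_left, hx, hy, add_zero]
    | smul a x _ hx => rw [inner_smul_left, hx, mul_zero]
  -- an active constraint
  obtain ⟨q, hqT, hq⟩ : ∃ q ∈ T, ⟪q.1, p⟫ = q.2 := by
    by_contra hcon
    push Not at hcon
    have hnh : P ∈ 𝓝 p := strict_mem_nhds fun q hq => lt_of_le_of_ne (hpP q hq) (hcon q hq)
    rw [Metric.mem_nhds_iff] at hnh
    obtain ⟨ε, hε, hb⟩ := hnh
    have hnu : 0 < ‖u‖ := norm_pos_iff.2 hu0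
    have hmem : p + (ε / (2 * ‖u‖)) • u ∈ P := by
      apply hb
      rw [mem_ball, dist_eq_norm, add_sub_cancel_left, norm_smul, Real.norm_eq_abs,
        abs_of_pos (by positivity)]
      have : ε / (2 * ‖u‖) * ‖u‖ = ε / 2 := by field_simp
      linarith
    have := hsupu _ hmem
    rw [inner_add_right, hpu, real_inner_smul_right, real_inner_self_eq_norm_sq] at this
    have : 0 < ε / (2 * ‖u‖) * ‖u‖ ^ 2 := by positivity
    linarith
  have hqspan : q.1 ∈ Submodule.span ℝ {u} := by
    rw [← Submodule.orthogonal_orthogonal (Submodule.span ℝ {u}), ← hW,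
      Submodule.mem_orthogonal]
    intro w hw
    obtain ⟨η, hη, h1, h2⟩ := intrinsic_move hpint hw
    have hFsub : ∀ y ∈ F, y ∈ P := by
      intro y hy; rw [hFeq] at hy; exact hy.1
    have e1 := hFsub _ h1 q hqT
    have e2 := hFsub _ h2 q hqT
    rw [inner_add_right, real_inner_smul_right, hq] at e1
    rw [inner_sub_right, real_inner_smul_right, hq] at e2
    have e3 : η * ⟪q.1, w⟫ = 0 := by linarith
    have e4 : ⟪q.1, w⟫ = 0 := by
      rcases mul_eq_zero.1 e3 with h | h
      · exact absurd h hη.ne'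
      · exact h
    rw [real_inner_comm]; exact e4
  have hqu : ‖q.1‖ = 1 := h.unit q hqT
  have hqq : ⟪q.1, q.1⟫ = 1 := by rw [real_inner_self_eq_norm_sq, hqu]; norm_num
  obtain ⟨a, ha⟩ := Submodule.mem_span_singleton.1 hpspan
  obtain ⟨c, hc'⟩ := Submodule.mem_span_singleton.1 hqspan
  have hc0 : c ≠ 0 := by
    rintro rfl
    rw [zero_smul] at hc'
    rw [← hc'] at hqu
    simp at hqu
  have hu_eq : u = c⁻¹ • q.1 := by rw [← hc', smul_smul, inv_mul_cancel₀ hc0, one_smul]
  have hp_eq : p = q.2 • q.1 := by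
    have h1 : p = (a * c⁻¹) • q.1 := by rw [← ha, hu_eq, smul_smul]
    have h2 : q.2 = a * c⁻¹ := by
      rw [← hq, h1, real_inner_smul_right, hqq, mul_one]
    rw [h1, h2]
  rcases h.succ q hqT with hqr | ⟨q', hq', hlt⟩
  · -- the root face
    rw [hFeq]
    ext x
    simp only [Set.mem_ofPred_eq]
    have e1 : h' = c⁻¹ * root.2 := by
      rw [← hpu, hp_eq, hu_eq, real_inner_smul_left, real_inner_smul_right, hqq, mul_one, hqr]
    rw [hu_eq, e1, real_inner_smul_left, hqr, mul_right_inj' (inv_ne_zero hc0)]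
  · exfalso
    have := hpP q' hq'
    rw [hp_eq, real_inner_smul_right, real_inner_comm] at this
    linarith

end MP2b501e
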