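import Pool.Agent.Lib_2b501e.Growth

open MeasureTheory Metric Set
open scoped RealInnerProductSpace Topology Pointwise

namespace MP2b501e

namespace Body

variable {K : Set E3} {r R : ℝ}

/-- linear lower bound of the moment in all missing directions -/
lemma mom_lower (b : Body K r R) (hm : mom K = 0) {x1 : E3} (hx1 : x1 ∈ frontier K) {ρ κ : ℝ}
    (hκ : 0 < κ) (hκR : κ ≤ R)
    (hgap : ∀ u : E3, ‖u‖ = 1 → κ ≤ |hs K u - ρ| ∨ ⟪x1, u⟫ ≤ hs K u - κ) :
    ∃ c1 > 0, ∀ s : ℝ, 0 < s → s ≤ 1 / 4 → ∀ e : E3, Miss K e → ‖e‖ = 1 → hs K (-e) = ρ →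
      c1 * s ≤ ⟪mom (Wf K (psi s ρ)), e⟫ := by
  have hR := b.R_pos
  have hr := b.rpos
  set δ : ℝ := κ * r / (4 * R) with hδ
  have hδ0 : 0 < δ := by positivity
  have hδr : δ ≤ r / 4 := by
    have hδ1 : δ * (4 * R) = κ * r := by rw [hδ]; field_simp
    have : δ * (4 * R) ≤ r / 4 * (4 * R) := by
      rw [hδ1]
      nlinarith
    exact le_of_mul_le_mul_right this (by positivity)
  set Γ : Set E3 := coneAt x1 (δ / 4) with hΓ
  have hx1n : ‖x1‖ ≤ R := b.norm_le (b.frontier_subset hx1)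
  -- volume of the cone part
  have hvΓ : 0 < vol (K ∩ Γ) := by
    have hopen : IsOpen (interior K ∩ Γ) := isOpen_interior.inter (isOpen_coneAt _ _)
    have hne : (interior K ∩ Γ).Nonempty := by
      refine ⟨(1 / 2 : ℝ) • x1, ?_, 1 / 2, by norm_num, ?_⟩
      · rw [← gauge_lt_one_iff_mem_interior b.convex b.nhds, b.gauge_smul (by norm_num),
          b.mem_frontier_iff.1 hx1]
        norm_num
      · rw [sub_self, norm_zero]; positivity
    have h1 := hopen.measure_pos volume hne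
    have h2 : interior K ∩ Γ ⊆ K ∩ Γ := inter_subset_inter_left _ interior_subset
    have hb : Bornology.IsBounded (K ∩ Γ) := b.bounded.subset inter_subset_left
    unfold vol
    rw [measureReal_def]
    exact ENNReal.toReal_pos (h1.trans_le (measure_mono h2)).ne' (volume_lt_top hb).ne
  set c2 : ℝ := (r / (2 * R)) * (δ / 4) with hc2
  have hc20 : 0 < c2 := by positivity
  set c' : ℝ := κ / R with hc'
  have hc'0 : 0 < c' := by positivity
  refine ⟨c2 * (3 * c' * vol (K ∩ Γ)), by positivity, ?_⟩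
  intro s hs0 hs1 e he hen hρ
  have hadm := adm_psi (ρ := ρ) hs0.le (by linarith : s ≤ 1 / 2)
  have bw := b.body_wf hadm
  set W := Wf K (psi s ρ) with hW
  have hKW : K ⊆ W := b.subset_wf hadm
  have hx1e := b.x1_pos hx1 hκ hκR hgap he hen hρ
  rw [← hδ] at hx1e
  set a : ℝ := 1 + c' * s with ha
  have ha1 : 1 < a := by
    have : 0 < c' * s := by positivity
    linarith
  set D' : Set E3 := (a • (K ∩ Γ)) \ (K ∩ Γ) with hD'
  have hsubaΓ : ∀ y ∈ a • (K ∩ Γ), y ∈ a • K ∧ y ∈ Γ := by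
    rintro _ ⟨z, hz, rfl⟩
    exact ⟨⟨z, hz.1, rfl⟩, smul_mem_coneAt (by linarith) hz.2⟩
  have hD'sub : D' ⊆ W \ K := by
    intro y hy
    obtain ⟨h1, h2⟩ := hsubaΓ y hy.1
    refine ⟨b.growth hx1 hκ hκR hgap hs0 hs1 h1 (coneAt_mono (by linarith) h2), ?_⟩
    intro hyK
    exact hy.2 ⟨hyK, h2⟩
  have hKΓm : MeasurableSet (K ∩ Γ) := b.measurableSet.inter (isOpen_coneAt _ _).measurableSet
  have haKΓm : MeasurableSet (a • (K ∩ Γ)) := hKΓm.const_smul₀ a
  have hD'm : MeasurableSet D' := haKΓm.diff hKΓm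
  have hKΓsub : K ∩ Γ ⊆ a • (K ∩ Γ) := by
    intro y hy
    refine ⟨a⁻¹ • y, ⟨b.smul_mem hy.1 (by positivity) (inv_le_one_of_one_le₀ ha1.le),
      smul_mem_coneAt (by positivity) hy.2⟩, ?_⟩
    simp only [smul_smul]
    rw [mul_inv_cancel₀ (by linarith), one_smul]
  have hbKΓ : Bornology.IsBounded (K ∩ Γ) := b.bounded.subset inter_subset_left
  have hvD' : 3 * c' * vol (K ∩ Γ) * s ≤ vol D' := by
    rw [hD', vol_sdiff hKΓsub hKΓm (hbKΓ.smul₀ a), vol_smul (by linarith)]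
    have h1 : 3 * (c' * s) ≤ a ^ 3 - 1 := by
      have h0 : 0 < c' * s := by positivity
      rw [ha]; nlinarith [mul_pos h0 h0, mul_pos (mul_pos h0 h0) h0]
    have h2 := mul_le_mul_of_nonneg_right h1 hvΓ.le
    linarith
  have hWKb : Bornology.IsBounded (W \ K) := bw.bounded.subset sdiff_subset
  have hpos : ∀ y ∈ W \ K, 0 ≤ ⟪y, e⟫ := by
    intro y hy
    by_contra hcon
    exact hy.2 (b.wf_lower he hen hρ hy.1 (not_le.1 hcon))
  have hD'low : ∀ y ∈ D', c2 ≤ ⟪y, e⟫ := by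
    intro y hy
    obtain ⟨_, θ, hθ, hyθ⟩ := hsubaΓ y hy.1
    have hyn : r < ‖y‖ := by
      by_contra hcon
      exact (hD'sub hy).2 (b.ball_sub (by rw [mem_closedBall_zero_iff]; exact not_lt.1 hcon))
    have h1 : ‖y‖ ≤ θ * (2 * R) := by
      have h2 : ‖y‖ ≤ ‖y - θ • x1‖ + ‖θ • x1‖ := by
        have := norm_add_le (y - θ • x1) (θ • x1)
        rwa [sub_add_cancel] at this
      rw [norm_smul, Real.norm_eq_abs, abs_of_pos hθ] at h2
      have h3 : θ * ‖x1‖ ≤ θ * R := mul_le_mul_of_nonneg_left hx1n hθ.le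
      have h4 : δ / 4 ≤ R := by linarith [b.r_le_R]
      have h5 : θ * (δ / 4) ≤ θ * R := mul_le_mul_of_nonneg_left h4 hθ.le
      linarith
    have hθ2 : r / (2 * R) ≤ θ := by
      rw [div_le_iff₀ (by positivity)]; linarith
    have h6 : θ * (δ / 4) ≤ ⟪y, e⟫ := by
      have h7 : ⟪y, e⟫ = θ * ⟪x1, e⟫ + ⟪y - θ • x1, e⟫ := by
        rw [inner_sub_left, real_inner_smul_left]; ring
      have h8 := real_inner_le_norm (-(y - θ • x1)) e
      rw [norm_neg, hen, mul_one, inner_neg_left] at h8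
      have h9 := mul_le_mul_of_nonneg_left hx1e hθ.le
      linarith
    calc c2 ≤ θ * (δ / 4) := mul_le_mul_of_nonneg_right hθ2 (by positivity)
      _ ≤ _ := h6
  have hint : IntegrableOn (fun y : E3 => ⟪y, e⟫) (W \ K) volume :=
    integrableOn_of_cont (by fun_prop) hWKb
  have hmomW : mom (W \ K) = mom W := by
    rw [mom_sdiff hKW b.measurableSet bw.bounded, hm, sub_zero]
  rw [← hmomW, inner_mom hWKb]
  have h1 : ∫ y in D', ⟪y, e⟫ ≤ ∫ y in W \ K, ⟪y, e⟫ := by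
    apply setIntegral_mono_set hint
    · rw [Filter.EventuallyLE, ae_restrict_iff' (bw.measurableSet.diff b.measurableSet)]
      filter_upwards with y hy
      exact hpos y hy
    · exact hD'sub.eventuallyLE
  have h2 : c2 * vol D' ≤ ∫ y in D', ⟪y, e⟫ := by
    have hbD' : Bornology.IsBounded D' := hWKb.subset hD'sub
    have h3 : ∫ _y in D', c2 = c2 * vol D' := by
      rw [setIntegral_const, smul_eq_mul, mul_comm]; rfl
    rw [← h3]
    exact setIntegral_mono_on (integrableOn_of_cont continuous_const hbD')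
      (hint.mono_set hD'sub) hD'm hD'low
  have h3 := mul_le_mul_of_nonneg_left hvD' hc20.le
  calc c2 * (3 * c' * vol (K ∩ Γ)) * s = c2 * (3 * c' * vol (K ∩ Γ) * s) := by ring
    _ ≤ c2 * vol D' := h3
    _ ≤ _ := h2.trans h1

lemma wf_upper (b : Body K r R) {ρ : ℝ} (hρ0 : 0 ≤ ρ) (hρR : ρ ≤ R) {s : ℝ} (hs0 : 0 ≤ s)
    (_hs1 : s ≤ 1 / 4) : Wf K (psi s ρ) ⊆ (1 + R / r * s) • K := by
  have hR := b.R_pos
  have hr := b.rpos
  intro y hy
  have h1 : (0:ℝ) < 1 + R / r * s := by positivity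
  refine ⟨(1 + R / r * s)⁻¹ • y, ?_, ?_⟩
  · rw [b.mem_iff]
    intro u hu
    rw [real_inner_smul_left, inv_mul_le_iff₀ h1]
    refine (hy u hu).trans ?_
    simp only [psi]
    have h2 : |hs K u - ρ| ≤ R := by
      rw [abs_le]
      have := b.hs_unit_le hu
      have := b.le_hs_unit hu
      constructor <;> linarith
    have h3 : R ≤ R / r * hs K u := by
      rw [div_mul_eq_mul_div, le_div_iff₀ hr]
      exact mul_le_mul_of_nonneg_left (b.le_hs_unit hu) hR.le
    have h4 := mul_le_mul_of_nonneg_left (h2.trans h3) hs0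
    nlinarith
  · simp only [smul_smul]
    rw [mul_inv_cancel₀ h1.ne', one_smul]

lemma mom_upper (b : Body K r R) (hm : mom K = 0) {ρ : ℝ} (hρ0 : 0 ≤ ρ) (hρR : ρ ≤ R) :
    ∃ C1 > 0, ∀ s : ℝ, 0 < s → s ≤ 1 / 4 → ‖mom (Wf K (psi s ρ))‖ ≤ C1 * s := by
  have hR := b.R_pos
  have hr := b.rpos
  set C : ℝ := R / r with hC
  have hC0 : 0 < C := by positivity
  have hv := vol_nonneg K
  refine ⟨(1 + C) * R * ((3 * C + 3 * C ^ 2 + C ^ 3) * (vol K + 1)), by positivity, ?_⟩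
  intro s hs0 hs1
  have hadm := adm_psi (ρ := ρ) hs0.le (by linarith : s ≤ 1 / 2)
  have h1 := mom_sandwich (A := K) (B := Wf K (psi s ρ)) (κ := C * s) (C := (1 + C) * R)
    (by positivity) (b.subset_wf hadm) (b.wf_upper hρ0 hρR hs0.le hs1) b.measurableSet b.bounded
    (by
      intro y hy
      obtain ⟨z, hz, rfl⟩ := b.wf_upper hρ0 hρR hs0.le hs1 hy
      simp only
      rw [norm_smul, Real.norm_eq_abs, abs_of_pos (by positivity)]
      have h2 := b.norm_le hz
      have h3 : 1 + C * s ≤ 1 + C := by nlinarith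
      exact mul_le_mul h3 h2 (norm_nonneg _) (by positivity)) (by positivity)
  rw [hm, sub_zero] at h1
  refine h1.trans ?_
  have h2 : (1 + C * s) ^ 3 - 1 ≤ (3 * C + 3 * C ^ 2 + C ^ 3) * s := by
    have e1 : (1 + C * s) ^ 3 - 1 = 3 * C * s + 3 * C ^ 2 * s ^ 2 + C ^ 3 * s ^ 3 := by ring
    have e2 : s ^ 2 ≤ s := by nlinarith
    have e3 : s ^ 3 ≤ s := by nlinarith [mul_nonneg hs0.le (mul_nonneg hs0.le hs0.le)]
    rw [e1]
    have e4 : 3 * C ^ 2 * s ^ 2 ≤ 3 * C ^ 2 * s := mul_le_mul_of_nonneg_left e2 (by positivity)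
    have e5 : C ^ 3 * s ^ 3 ≤ C ^ 3 * s := mul_le_mul_of_nonneg_left e3 (by positivity)
    linarith
  have h3 : ((1 + C * s) ^ 3 - 1) * vol K ≤ (3 * C + 3 * C ^ 2 + C ^ 3) * s * (vol K + 1) := by
    apply mul_le_mul h2 (by linarith) hv (by positivity)
  calc (1 + C) * R * (((1 + C * s) ^ 3 - 1) * vol K)
      ≤ (1 + C) * R * ((3 * C + 3 * C ^ 2 + C ^ 3) * s * (vol K + 1)) :=
        mul_le_mul_of_nonneg_left h3 (by positivity)
    _ = _ := by ring

/-- The non-tangential case. -/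
theorem approxZero_nt (b : Body K r R) (hC : CH K) (hm : mom K = 0) {e0 : E3} (he0 : Miss K e0)
    (he0n : ‖e0‖ = 1) {x1 : E3} (hx1 : x1 ∈ frontier K)
    (h : ∀ v : E3, ‖v‖ = 1 → hs K v = ⟪x1, v⟫ → hs K v ≠ hs K (-e0)) : ApproxZero K := by
  classical
  have hR := b.R_pos
  have hr := b.rpos
  set ρ := hs K (-e0) with hρ
  have hne0 : ‖-e0‖ = 1 := by rw [norm_neg]; exact he0n
  have hρ0 : 0 ≤ ρ := hr.le.trans (b.le_hs_unit hne0)
  have hρR : ρ ≤ R := b.hs_unit_le hne0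
  obtain ⟨κ1, hκ1, hκ1R, hgap⟩ := b.gap (b.frontier_subset hx1) h
  obtain ⟨c1, hc1, hlow⟩ := b.mom_lower hm hx1 hκ1 hκ1R hgap
  obtain ⟨C1, hC1, hup⟩ := b.mom_upper hm hρ0 hρR
  have hlev : ∀ e : E3, Miss K e → ‖e‖ = 1 → hs K (-e) = ρ := fun e he hen =>
    b.level_all hm he0 he0n he hen
  -- compact set of served directions
  set Q : Set E3 := sphere 0 1 ∩ ⋂ f : E3, ⋂ _ : Miss K f ∧ ‖f‖ = 1,
    {e : E3 | c1 / (2 * C1) ≤ ‖e - f‖} with hQ
  have hQcl : IsClosed (⋂ f : E3, ⋂ _ : Miss K f ∧ ‖f‖ = 1,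
      {e : E3 | c1 / (2 * C1) ≤ ‖e - f‖}) := by
    apply isClosed_iInter; intro f
    apply isClosed_iInter; intro _
    exact isClosed_le continuous_const (by fun_prop)
  have hQc : IsCompact Q := (isCompact_sphere _ _).inter_right hQcl
  have hQm : ∀ e ∈ Q, ¬ Miss K e := by
    intro e he hmiss
    have hen : ‖e‖ = 1 := by simpa using he.1
    have := mem_iInter₂.1 he.2 e ⟨hmiss, hen⟩
    simp only [Set.mem_ofPred_eq, sub_self, norm_zero] at this
    have h0 : 0 < c1 / (2 * C1) := by positivity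
    linarith
  have hQn : ∀ e : E3, ‖e‖ = 1 → e ∉ Q → ∃ f, Miss K f ∧ ‖f‖ = 1 ∧ ‖e - f‖ < c1 / (2 * C1) := by
    intro e hen heQ
    by_contra hcon
    push Not at hcon
    apply heQ
    refine ⟨by simpa using hen, ?_⟩
    rw [mem_iInter₂]
    intro f hf
    exact hcon f hf.1 hf.2
  obtain ⟨X, hX, c0, hc0, hsel⟩ := exists_select hQc hQm
  choose! U hU using hX
  set ι := {x // x ∈ X} with hι
  set N : ℝ := ((Fintype.card ι : ℕ) : ℝ) with hN
  have hN0 : 0 ≤ N := by positivity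
  set τ : ℝ := min (c0 / (2 * (1 + 2 * N))) (c0 * c1 / (32 * C1 * (N + 1))) with hτ
  have hτ0 : 0 < τ := lt_min (by positivity) (by positivity)
  have hτ1 : τ + 2 * τ * N ≤ c0 / 2 := by
    have h1 : τ ≤ c0 / (2 * (1 + 2 * N)) := min_le_left _ _
    rw [le_div_iff₀ (by positivity)] at h1
    linarith
  have hτ2 : τ * (32 * C1 * (N + 1)) ≤ c0 * c1 := by
    have h1 : τ ≤ c0 * c1 / (32 * C1 * (N + 1)) := min_le_right _ _
    rwa [le_div_iff₀ (by positivity)] at h1
  intro ε hε hε1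
  refine approx_core b (ι := ι) (fun i => U i.1) (fun i => i.1) (fun i => hU i.1 i.2)
    Subtype.val_injective hτ0 hτ1 ?_ hε hε1
  intro κ hκ
  -- parameters
  set κ2 : ℝ := min κ 1 with hκ2
  have hκ20 : 0 < κ2 := lt_min hκ one_pos
  have hκ21 : κ2 ≤ 1 := min_le_right _ _
  have hκ2κ : κ2 ≤ κ := min_le_left _ _
  set s : ℝ := min (1 / 4) (min (κ2 * c0 / (4 * C1)) (κ2 * r / (4 * R))) with hs'
  have hs0 : 0 < s := lt_min (by norm_num) (lt_min (by positivity) (by positivity))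
  have hs1 : s ≤ 1 / 4 := min_le_left _ _
  have hs2 : s * (4 * C1) ≤ κ2 * c0 := by
    have h1 : s ≤ κ2 * c0 / (4 * C1) := (min_le_right _ _).trans (min_le_left _ _)
    rwa [le_div_iff₀ (by positivity)] at h1
  have hs3 : R / r * s ≤ κ2 / 4 := by
    have h1 : s ≤ κ2 * r / (4 * R) := (min_le_right _ _).trans (min_le_right _ _)
    rw [le_div_iff₀ (by positivity)] at h1
    rw [div_mul_eq_mul_div, div_le_div_iff₀ hr (by norm_num)]
    linarith
  have hadm := adm_psi (ρ := ρ) hs0.le (by linarith : s ≤ 1 / 2)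
  set κ3 : ℝ := min (κ2 / 4) (min (c1 * s / 4) (C1 * s)) with hκ3
  have hκ30 : 0 < κ3 := lt_min (by positivity) (lt_min (by positivity) (by positivity))
  have hκ3a : κ3 ≤ κ2 / 4 := min_le_left _ _
  have hκ3b : κ3 ≤ c1 * s / 4 := (min_le_right _ _).trans (min_le_left _ _)
  have hκ3c : κ3 ≤ C1 * s := (min_le_right _ _).trans (min_le_right _ _)
  obtain ⟨T, root, h1, h2, h3, h4⟩ := b.baseline_mom hC hadm hκ30
  set W := Wf K (psi s ρ) with hW
  set V : ℝ := 4 * C1 * s / c0 with hV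
  have hV0 : 0 < V := by positivity
  have hVc : V * c0 = 4 * C1 * s := by rw [hV]; field_simp
  have hWup := hup s hs0 hs1
  refine ⟨T, root, h1, (b.subset_wf hadm).trans h2, ?_, V, hV0, ?_, ?_, ?_⟩
  · intro y hy
    obtain ⟨z, hz, rfl⟩ := h3 hy
    obtain ⟨w, hw, rfl⟩ := b.wf_upper hρ0 hρR hs0.le hs1 hz
    simp only [smul_smul]
    refine b.smul_mono (c := (1 + κ3) * (1 + R / r * s)) (by positivity) ?_ ⟨w, hw, rfl⟩
    have e1 : 0 < R / r * s := by positivity
    have e2 : κ3 * (R / r * s) ≤ κ2 / 4 * (κ2 / 4) := mul_le_mul hκ3a hs3 e1.le (by positivity)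
    nlinarith
  · rw [hV, div_le_iff₀ hc0]
    have : κ2 * c0 ≤ κ * c0 := mul_le_mul_of_nonneg_right hκ2κ hc0.le
    linarith
  · have e1 : ‖mom (Poly T)‖ ≤ ‖mom (Poly T) - mom W‖ + ‖mom W‖ := by
      have := norm_add_le (mom (Poly T) - mom W) (mom W)
      rwa [sub_add_cancel] at this
    have e2 : V * (c0 / 2) = 2 * C1 * s := by linarith
    rw [e2]
    linarith
  · intro e hen
    by_cases heQ : e ∈ Q
    · left
      obtain ⟨x, hx, hxe⟩ := hsel e heQ
      exact ⟨⟨x, hx⟩, hxe⟩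
    · right
      obtain ⟨f, hf, hfn, hef⟩ := hQn e hen heQ
      have e1 := hlow s hs0 hs1 f hf hfn (hlev f hf hfn)
      have e2 : ⟪mom W, e⟫ = ⟪mom W, f⟫ + ⟪mom W, e - f⟫ := by
        rw [inner_sub_right]; ring
      have e3 : -(‖mom W‖ * ‖e - f‖) ≤ ⟪mom W, e - f⟫ := by
        have := real_inner_le_norm (-(mom W)) (e - f)
        rw [norm_neg, inner_neg_left] at this
        linarith
      have e4 : ‖mom W‖ * ‖e - f‖ ≤ (C1 * s) * (c1 / (2 * C1)) :=
        mul_le_mul hWup hef.le (norm_nonneg _) (by positivity)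
      have e5 : (C1 * s) * (c1 / (2 * C1)) = c1 * s / 2 := by field_simp
      have e6 : ⟪mom (Poly T), e⟫ = ⟪mom W, e⟫ + ⟪mom (Poly T) - mom W, e⟫ := by
        rw [inner_sub_left]; ring
      have e7 : -κ3 ≤ ⟪mom (Poly T) - mom W, e⟫ := by
        have := real_inner_le_norm (-(mom (Poly T) - mom W)) e
        rw [norm_neg, inner_neg_left, hen, mul_one] at this
        linarith
      have e8 : c1 * s / 4 ≤ ⟪mom (Poly T), e⟫ := by
        rw [e6, e2]; linarith
      refine le_trans ?_ e8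
      have e9 : 2 * τ * V * N * c0 ≤ c1 * s / 4 * c0 := by
        have e10 : 2 * τ * V * N * c0 = 8 * (τ * C1 * N) * s := by
          calc 2 * τ * V * N * c0 = 2 * τ * N * (V * c0) := by ring
            _ = _ := by rw [hVc]; ring
        rw [e10]
        have e11 : 32 * (τ * C1 * N) ≤ c0 * c1 := by
          have e12 : 0 ≤ τ * C1 := by positivity
          have e13 : τ * (32 * C1 * (N + 1)) = 32 * (τ * C1 * N) + 32 * (τ * C1) := by ring
          linarith
        have e14 := mul_le_mul_of_nonneg_right e11 hs0.le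
        linarith
      exact le_of_mul_le_mul_right e9 hc0

end Body

end MP2b501e
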