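import Pool.Agent.Lib_2b501e.Trans

open MeasureTheory Metric Set
open scoped RealInnerProductSpace Topology Pointwise

namespace MP2b501e

/-- At a local minimum of the distance to the origin on the boundary of a polyhedron, the polyhedron
is locally the half-space orthogonal to the point. -/
lemma local_min_disc {s : Finset (E3 × ℝ)} {r R : ℝ} (b : Body (Poly s) r R) {x1 : E3}
    (hx1 : x1 ∈ frontier (Poly s))
    (hmin : ∀ᶠ y in 𝓝 x1, y ∈ frontier (Poly s) → ‖x1‖ ≤ ‖y‖) :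
    (∀ x ∈ Poly s, ⟪nrm x1, x⟫ ≤ ‖x1‖) ∧
    ∃ δ > 0, ∀ y : E3, ⟪nrm x1, y⟫ = ‖x1‖ → ‖y - ‖x1‖ • nrm x1‖ < δ → y ∈ Poly s := by
  classical
  have hr := b.rpos
  have hx1n : r ≤ ‖x1‖ := b.norm_frontier_ge hx1
  have hx1p : 0 < ‖x1‖ := hr.trans_le hx1n
  have hx10 : x1 ≠ 0 := norm_pos_iff.1 hx1p
  have hx1P := b.frontier_subset hx1
  -- active constraints are parallel to x1
  have hact : ∀ p ∈ s, ⟪p.1, x1⟫ = p.2 → p.1 ≠ 0 → ∃ lam : ℝ, 0 < lam ∧ p.1 = lam • x1 := by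
    intro p hp hpx hp0
    have hq : 0 < ‖p.1‖ := norm_pos_iff.2 hp0
    have hp2 : 0 < p.2 := by
      have h1 : (r / ‖p.1‖) • p.1 ∈ Poly s := by
        apply b.ball_sub
        rw [mem_closedBall_zero_iff, norm_smul, Real.norm_eq_abs, abs_of_pos (by positivity),
          div_mul_cancel₀ _ hq.ne']
      have h2 := h1 p hp
      rw [real_inner_smul_right, real_inner_self_eq_norm_sq] at h2
      have h3 : 0 < r / ‖p.1‖ * ‖p.1‖ ^ 2 := by positivity
      linarith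
    set f : E3 := (p.2 / ‖p.1‖ ^ 2) • p.1 with hf
    have hpf : ⟪p.1, f⟫ = p.2 := by
      rw [hf, real_inner_smul_right, real_inner_self_eq_norm_sq]
      field_simp
    by_cases hxf : x1 = f
    · refine ⟨‖p.1‖ ^ 2 / p.2, by positivity, ?_⟩
      rw [hxf, hf, smul_smul]
      have : ‖p.1‖ ^ 2 / p.2 * (p.2 / ‖p.1‖ ^ 2) = 1 := by field_simp
      rw [this, one_smul]
    · exfalso
      have horth : ⟪f, x1 - f⟫ = 0 := by
        rw [hf, real_inner_smul_left, inner_sub_right, hpx, ← hf, hpf, sub_self, mul_zero]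
      have hxfn : 0 < ‖x1 - f‖ := norm_pos_iff.2 (sub_ne_zero.2 hxf)
      set X : ℝ → E3 := fun τ => seg x1 f τ with hX
      have hXc : Continuous X := continuous_seg x1 f
      have hXeq : ∀ τ, X τ = f + (1 - τ) • (x1 - f) := by
        intro τ; simp only [hX, seg]; module
      have hXn : ∀ τ, ‖X τ‖ ^ 2 = ‖f‖ ^ 2 + (1 - τ) ^ 2 * ‖x1 - f‖ ^ 2 := by
        intro τ
        have h0 : ‖(1 - τ) • (x1 - f)‖ ^ 2 = (1 - τ) ^ 2 * ‖x1 - f‖ ^ 2 := by
          rw [norm_smul, mul_pow, Real.norm_eq_abs, sq_abs]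
        rw [hXeq, norm_add_sq_real, real_inner_smul_right, horth, h0]
        ring
      have hX0 : X 0 = x1 := by simp [hX]
      have hXlt : ∀ τ, 0 < τ → τ < 1 → ‖X τ‖ < ‖x1‖ := by
        intro τ h0 h1
        apply lt_of_pow_lt_pow_left₀ 2 (norm_nonneg _)
        rw [← hX0, hXn, hXn]
        have h2 : 0 < ‖x1 - f‖ ^ 2 := by positivity
        have h3 : (1 - τ) ^ 2 < (1 - 0) ^ 2 := by nlinarith
        nlinarith
      have hXin : ∀ τ, ⟪p.1, X τ⟫ = p.2 := by
        intro τ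
        simp only [hX, seg, inner_add_right, real_inner_smul_right, hpx, hpf]
        ring
      have hXne : ∀ τ, X τ ≠ 0 := by
        intro τ h0
        have := hXin τ
        rw [h0, inner_zero_right] at this
        linarith
      have hXg : ∀ τ, 1 ≤ gauge (Poly s) (X τ) := by
        intro τ
        have hg := b.gauge_pos (hXne τ)
        have h1 := b.frontier_subset (b.exists_frontier (hXne τ)) p hp
        rw [real_inner_smul_right, hXin, inv_mul_le_iff₀ hg] at h1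
        by_contra hcon
        rw [not_le] at hcon
        nlinarith
      have hYc : ContinuousAt (fun τ => (gauge (Poly s) (X τ))⁻¹ • X τ) 0 := by
        have h1 : ContinuousAt (fun τ => (gauge (Poly s) (X τ))⁻¹) 0 :=
          ((b.continuous_gauge.comp hXc).continuousAt).inv₀ (b.gauge_pos (hXne 0)).ne'
        exact h1.smul hXc.continuousAt
      have hY0 : (gauge (Poly s) (X 0))⁻¹ • X 0 = x1 := by
        rw [hX0, b.mem_frontier_iff.1 hx1, inv_one, one_smul]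
      rw [ContinuousAt, hY0] at hYc
      have hev := hYc.eventually hmin
      rw [Metric.eventually_nhds_iff] at hev
      obtain ⟨ε, hε, hev⟩ := hev
      set τ : ℝ := min (ε / 2) (1 / 2) with hτ
      have hτ0 : 0 < τ := lt_min (by linarith) (by norm_num)
      have hτ1 : τ < 1 := (min_le_right _ _).trans_lt (by norm_num)
      have hτε : τ ≤ ε / 2 := min_le_left _ _
      have h1 := hev (y := τ) (by rw [Real.dist_eq, sub_zero, abs_of_pos hτ0]; linarith)
        (b.exists_frontier (hXne τ))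
      have hg := b.gauge_pos (hXne τ)
      rw [norm_smul, norm_inv, Real.norm_eq_abs, abs_of_pos hg] at h1
      have h2 : (gauge (Poly s) (X τ))⁻¹ ≤ 1 := inv_le_one_of_one_le₀ (hXg τ)
      have h3 : (gauge (Poly s) (X τ))⁻¹ * ‖X τ‖ ≤ 1 * ‖X τ‖ :=
        mul_le_mul_of_nonneg_right h2 (norm_nonneg _)
      have h4 := hXlt τ hτ0 hτ1
      linarith
  -- existence of an active constraint
  have hex : ∃ p ∈ s, ⟪p.1, x1⟫ = p.2 ∧ p.1 ≠ 0 := by
    by_contra hcon
    push Not at hcon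
    have h1 : ∀ p ∈ s.filter (fun p => p.1 ≠ 0), ⟪p.1, x1⟫ < p.2 := by
      intro p hp
      rw [Finset.mem_filter] at hp
      refine lt_of_le_of_ne (hx1P p hp.1) fun heq => hp.2 (hcon p hp.1 heq)
    have h2 := strict_mem_nhds h1
    have h3 : Poly (s.filter (fun p => p.1 ≠ 0)) ⊆ Poly s := by
      intro y hy p hp
      by_cases h0 : p.1 = 0
      · have := hx1P p hp
        rw [h0, inner_zero_left] at this ⊢
        exact this
      · exact hy p (Finset.mem_filter.2 ⟨hp, h0⟩)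
    have h4 : x1 ∈ interior (Poly s) :=
      mem_interior_iff_mem_nhds.2 (Filter.mem_of_superset h2 h3)
    exact hx1.2 h4
  have hnx : ‖x1‖ • nrm x1 = x1 := smul_nrm x1
  constructor
  · intro x hx
    obtain ⟨p, hp, hpx, hp0⟩ := hex
    obtain ⟨lam, hlam, hpl⟩ := hact p hp hpx hp0
    have h1 := hx p hp
    rw [← hpx, hpl, real_inner_smul_left, real_inner_smul_left,
      real_inner_self_eq_norm_sq] at h1
    have h2 := le_of_mul_le_mul_left h1 hlam
    rw [nrm, real_inner_smul_left, inv_mul_le_iff₀ hx1p]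
    linarith
  · rw [hnx]
    have h1 : ∀ p ∈ s.filter (fun p => ⟪p.1, x1⟫ ≠ p.2), ⟪p.1, x1⟫ < p.2 := by
      intro p hp
      rw [Finset.mem_filter] at hp
      exact lt_of_le_of_ne (hx1P p hp.1) hp.2
    have h2 := strict_mem_nhds h1
    rw [Metric.mem_nhds_iff] at h2
    obtain ⟨δ, hδ, hball⟩ := h2
    refine ⟨δ, hδ, fun y hy hyd p hp => ?_⟩
    by_cases hpx : ⟪p.1, x1⟫ = p.2
    · by_cases hp0 : p.1 = 0
      · have := hx1P p hp
        rw [hp0, inner_zero_left] at this ⊢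
        exact this
      · obtain ⟨lam, hlam, hpl⟩ := hact p hp hpx hp0
        rw [nrm, real_inner_smul_left, inv_mul_eq_iff_eq_mul₀ hx1p.ne'] at hy
        rw [← hpx, hpl, real_inner_smul_left, real_inner_smul_left,
          real_inner_self_eq_norm_sq, hy]
        apply le_of_eq; ring
    · exact hball (by rw [mem_ball, dist_eq_norm]; exact hyd) p
        (Finset.mem_filter.2 ⟨hp, hpx⟩)

/-- A minimizer of the norm over a relatively clopen part of a sublevel set. -/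
lemma exists_part_min {P : Set E3} (hP : IsCompact (frontier P)) {t : ℝ} {U V : Set E3}
    (hU : IsOpen U) (hV : IsOpen V) (hcov : {x | x ∈ frontier P ∧ ‖x‖ < t} ⊆ U ∪ V)
    (hdisj : {x | x ∈ frontier P ∧ ‖x‖ < t} ∩ (U ∩ V) = ∅) {a : E3}
    (ha : a ∈ frontier P) (hat : ‖a‖ < t) (haU : a ∈ U) :
    ∃ x1 ∈ frontier P, ‖x1‖ < t ∧ x1 ∈ U ∧ ∀ᶠ y in 𝓝 x1, y ∈ frontier P → ‖x1‖ ≤ ‖y‖ := by
  have haV : a ∉ V := fun h => by
    have : a ∈ {x | x ∈ frontier P ∧ ‖x‖ < t} ∩ (U ∩ V) := ⟨⟨ha, hat⟩, haU, h⟩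
    rw [hdisj] at this
    exact this
  set C : Set E3 := (frontier P ∩ closedBall 0 ‖a‖) ∩ Vᶜ with hC
  have hCc : IsCompact C := (hP.inter_right isClosed_closedBall).inter_right hV.isClosed_compl
  have haC : a ∈ C := ⟨⟨ha, by simp⟩, haV⟩
  obtain ⟨x1, hx1, hmin⟩ := hCc.exists_isMinOn ⟨a, haC⟩ (f := fun x => ‖x‖) (by fun_prop)
  have hx1a : ‖x1‖ ≤ ‖a‖ := by simpa using hx1.1.2
  have hx1t : ‖x1‖ < t := hx1a.trans_lt hat
  have hx1U : x1 ∈ U := by
    rcases hcov ⟨hx1.1.1, hx1t⟩ with h | h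
    · exact h
    · exact absurd h hx1.2
  refine ⟨x1, hx1.1.1, hx1t, hx1U, ?_⟩
  filter_upwards [hU.mem_nhds hx1U] with y hyU hyF
  by_contra hcon
  rw [not_le] at hcon
  have hyV : y ∉ V := fun h => by
    have : y ∈ {x | x ∈ frontier P ∧ ‖x‖ < t} ∩ (U ∩ V) := ⟨⟨hyF, hcon.trans hx1t⟩, hyU, h⟩
    rw [hdisj] at this
    exact this
  have hyC : y ∈ C := ⟨⟨hyF, by simpa using hcon.le.trans hx1a⟩, hyV⟩
  have : ‖x1‖ ≤ ‖y‖ := hmin hyC
  linarith

/-- Monostable polyhedra with centroid at the origin satisfy the connectivity condition. -/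
theorem cc_of_monostable {s : Finset (E3 × ℝ)} {r R : ℝ} (b : Body (Poly s) r R)
    (hc : centroid (Poly s) = 0) (hm : Monostable (Poly s)) : CC (Poly s) := by
  intro t
  rw [isPreconnected_iff_subset_of_disjoint]
  intro U V hU hV hcov hdisj
  by_contra hcon
  push Not at hcon
  obtain ⟨hnU, hnV⟩ := hcon
  rw [not_subset] at hnU hnV
  obtain ⟨v, hv, hvU⟩ := hnU
  obtain ⟨u, hu, huV⟩ := hnV
  have hvV : v ∈ V := (hcov hv).resolve_left hvU
  have huU : u ∈ U := (hcov hu).resolve_right huV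
  have hfc : IsCompact (frontier (Poly s)) :=
    b.compact.of_isClosed_subset isClosed_frontier b.frontier_subset
  obtain ⟨x1, hx1, hx1t, hx1U, hx1m⟩ :=
    exists_part_min hfc hU hV hcov hdisj hu.1 hu.2 huU
  obtain ⟨x2, hx2, hx2t, hx2V, hx2m⟩ :=
    exists_part_min hfc hV hU (by rwa [union_comm]) (by rwa [inter_comm V U]) hv.1 hv.2 hvV
  have hpos : ∀ x ∈ frontier (Poly s), 0 < ‖x‖ := fun x hx =>
    b.rpos.trans_le (b.norm_frontier_ge hx)
  have h1 := local_min_disc b hx1 hx1m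
  have h2 := local_min_disc b hx2 hx2m
  obtain ⟨δ1, hδ1, hd1⟩ := h1.2
  obtain ⟨δ2, hδ2, hd2⟩ := h2.2
  have hn1 : x1 ≠ 0 := norm_pos_iff.1 (hpos x1 hx1)
  have hn2 : x2 ≠ 0 := norm_pos_iff.1 (hpos x2 hx2)
  have f1 := disc_face (norm_nrm hn1) h1.1 hδ1 hd1 hc
  have f2 := disc_face (norm_nrm hn2) h2.1 hδ2 hd2 hc
  have heq := hm.unique f1 f2
  have hin : ∀ x : E3, x ≠ 0 → ⟪nrm x, x⟫ = ‖x‖ := by
    intro x hx
    have : 0 < ‖x‖ := norm_pos_iff.2 hx
    rw [nrm, real_inner_smul_left, real_inner_self_eq_norm_sq]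
    field_simp
  have hx1F : x1 ∈ {x ∈ Poly s | ⟪nrm x2, x⟫ = ‖x2‖} := by
    rw [← heq]; exact ⟨b.frontier_subset hx1, hin x1 hn1⟩
  have hx2F : x2 ∈ {x ∈ Poly s | ⟪nrm x1, x⟫ = ‖x1‖} := by
    rw [heq]; exact ⟨b.frontier_subset hx2, hin x2 hn2⟩
  have e1 : ⟪nrm x2, x1⟫ = ‖x2‖ := hx1F.2
  have e2 : ⟪nrm x1, x2⟫ = ‖x1‖ := hx2F.2
  have p1 := hpos x1 hx1
  have p2 := hpos x2 hx2
  rw [nrm, real_inner_smul_left, inv_mul_eq_iff_eq_mul₀ p2.ne'] at e1
  rw [nrm, real_inner_smul_left, inv_mul_eq_iff_eq_mul₀ p1.ne', real_inner_comm] at e2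
  have hxx : x1 = x2 := by
    have h5 : ‖x1 - x2‖ ^ 2 = 0 := by
      rw [norm_sub_sq_real, real_inner_comm]
      nlinarith
    have h6 : ‖x1 - x2‖ = 0 := by
      exact pow_eq_zero_iff (two_ne_zero) |>.1 h5
    exact sub_eq_zero.1 (norm_eq_zero.1 h6)
  have : x1 ∈ {x | x ∈ frontier (Poly s) ∧ ‖x‖ < t} ∩ (U ∩ V) :=
    ⟨⟨hx1, hx1t⟩, hx1U, by rw [hxx]; exact hx2V⟩
  rw [hdisj] at this
  exact this

end MP2b501e
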