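import Pool.Agent.Lib_2b501e.Lower

open MeasureTheory Metric Set
open scoped RealInnerProductSpace Topology Pointwise

namespace MP2b501e

/-- reflection in the plane orthogonal to `e` -/
noncomputable def rfx (e : E3) : E3 ≃ₗᵢ[ℝ] E3 := (Submodule.span ℝ {e})ᗮ.reflection

lemma rfx_apply {e : E3} (he : ‖e‖ = 1) (x : E3) : rfx e x = x - (2 * ⟪x, e⟫) • e := by
  rw [rfx, Submodule.reflection_orthogonal_apply, Submodule.reflection_singleton_apply, he,
    real_inner_comm]
  simp only [RCLike.ofReal_real_eq_id, id_eq, one_pow, div_one]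
  module

lemma inner_rfx {e : E3} (he : ‖e‖ = 1) (x : E3) : ⟪rfx e x, e⟫ = -⟪x, e⟫ := by
  rw [rfx_apply he, inner_sub_left, real_inner_smul_left, real_inner_self_eq_norm_sq, he]
  ring

lemma rfx_rfx {e : E3} (he : ‖e‖ = 1) (x : E3) : rfx e (rfx e x) = x := by
  rw [rfx_apply he (rfx e x), inner_rfx he, rfx_apply he]
  module

lemma null_of_integral {S : Set E3} (hS : MeasurableSet S) (hb : Bornology.IsBounded S) {e : E3}
    (hpos : ∀ x ∈ S, 0 < ⟪x, e⟫) (h0 : ∫ x in S, ⟪x, e⟫ = 0) : (volume : Measure E3) S = 0 := by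
  have hint : IntegrableOn (fun x : E3 => ⟪x, e⟫) S volume :=
    integrableOn_of_cont (by fun_prop) hb
  have hnn : 0 ≤ᵐ[volume.restrict S] fun x : E3 => ⟪x, e⟫ := by
    rw [Filter.EventuallyLE, ae_restrict_iff' hS]
    filter_upwards with x hx
    exact (hpos x hx).le
  have h1 := (setIntegral_eq_zero_iff_of_nonneg_ae hnn hint).1 h0
  rw [Filter.EventuallyEq, ae_restrict_iff' hS] at h1
  have h2 : ∀ᵐ x : E3, x ∉ S := by
    filter_upwards [h1] with x hx hxS
    have := hx hxS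
    exact (hpos x hxS).ne' this
  rw [ae_iff] at h2
  simpa using h2

namespace Body

variable {K : Set E3} {r R : ℝ}

/-- `K` is the convex join of a ball and its upper part. -/
lemma exists_join (b : Body K r R) {e : E3} (he : Miss K e) (hen : ‖e‖ = 1)
    (hball : closedBall (0 : E3) (hs K (-e)) ⊆ K) {x : E3} (hx : x ∈ K) :
    ∃ a ∈ closedBall (0 : E3) (hs K (-e)), ∃ p ∈ K, 0 ≤ ⟪p, e⟫ ∧
      ∃ l ∈ Icc (0:ℝ) 1, x = seg a p l := by
  set ρ := hs K (-e) with hρ
  have hρ0 : 0 < ρ := b.hs_pos (by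
    intro h0; rw [neg_eq_zero] at h0; rw [h0] at hen; simp at hen)
  set A : Set E3 := closedBall 0 ρ with hA
  set B : Set E3 := K ∩ {x | 0 ≤ ⟪x, e⟫} with hB
  have hclB : IsClosed {x : E3 | 0 ≤ ⟪x, e⟫} := isClosed_le continuous_const (by fun_prop)
  have hBcomp : IsCompact B := b.compact.inter_right hclB
  have hBconv : Convex ℝ B := by
    apply b.convex.inter
    intro y hy z hz s t hs' ht _
    change 0 ≤ ⟪s • y + t • z, e⟫
    rw [inner_add_left, real_inner_smul_left, real_inner_smul_left]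
    exact add_nonneg (mul_nonneg hs' hy) (mul_nonneg ht hz)
  set F : E3 × E3 × ℝ → E3 := fun p => seg p.1 p.2.1 p.2.2 with hF
  have hFc : Continuous F := by
    simp only [hF, seg]
    fun_prop
  set L : Set E3 := F '' (A ×ˢ (B ×ˢ Icc (0:ℝ) 1)) with hL
  have hLcomp : IsCompact L :=
    ((isCompact_closedBall _ _).prod (hBcomp.prod isCompact_Icc)).image hFc
  have hLjoin : L = convexJoin ℝ A B := by
    ext y
    rw [mem_convexJoin]
    constructor
    · rintro ⟨⟨a, p, l⟩, ⟨ha, hp, hl⟩, rfl⟩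
      refine ⟨a, ha, p, hp, ?_⟩
      rw [segment_eq_image]
      exact ⟨l, hl, rfl⟩
    · rintro ⟨a, ha, p, hp, hy⟩
      rw [segment_eq_image] at hy
      obtain ⟨l, hl, rfl⟩ := hy
      exact ⟨(a, p, l), ⟨ha, hp, hl⟩, rfl⟩
  have hLconv : Convex ℝ L := by
    rw [hLjoin]
    exact (convex_closedBall _ _).convexJoin hBconv
  have h0B : (0 : E3) ∈ B := ⟨b.zero_mem, by simp⟩
  have hAL : A ⊆ L := fun a ha => ⟨(a, 0, 0), ⟨ha, h0B, by simp⟩, by simp [hF]⟩
  have h0A : (0 : E3) ∈ A := by simp [hA, hρ0.le]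
  have hBL : B ⊆ L := fun p hp => ⟨(0, p, 1), ⟨h0A, hp, by simp⟩, by simp [hF]⟩
  have hLK : L ⊆ K := by
    rintro _ ⟨⟨a, p, l⟩, ⟨ha, hp, hl⟩, rfl⟩
    exact b.convex (hball ha) hp.1 (sub_nonneg.2 hl.2) hl.1 (by simp)
  have bL : Body L ρ R := ⟨hLcomp, hLconv, hρ0, hAL, hLK.trans b.sub_ball⟩
  have hxL : x ∈ L := by
    by_contra hcon
    obtain ⟨u, hu, hlt⟩ := bL.exists_sep hcon
    have hxu := inner_le_hs b.compact hx u
    by_cases hlow : Low K e u
    · have h1 := b.hs_eq_of_low he hen hu hlow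
      have h2 : ρ • u ∈ L := hAL (by
        rw [hA, mem_closedBall_zero_iff, norm_smul, hu, mul_one, Real.norm_eq_abs,
          abs_of_pos hρ0])
      have h3 := inner_le_hs bL.compact h2 u
      rw [real_inner_smul_left, real_inner_self_eq_norm_sq, hu] at h3
      rw [h1] at hxu
      linarith
    · unfold Low at hlow
      push Not at hlow
      obtain ⟨p, hp, hpu, hpe⟩ := hlow
      have h3 := inner_le_hs bL.compact (hBL ⟨hp, hpe⟩) u
      linarith
  obtain ⟨⟨a, p, l⟩, ⟨ha, hp, hl⟩, hxeq⟩ := hxL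
  exact ⟨a, ha, p, hp.1, hp.2, l, hl, hxeq.symm⟩

lemma rfx_lower (b : Body K r R) {e : E3} (he : Miss K e) (hen : ‖e‖ = 1)
    (hball : closedBall (0 : E3) (hs K (-e)) ⊆ K) {x : E3} (hx : x ∈ K) (hxe : ⟪x, e⟫ < 0) :
    rfx e x ∈ K := by
  obtain ⟨a, ha, p, hp, hpe, l, hl, rfl⟩ := b.exists_join he hen hball hx
  have h1 : ⟪seg a p l, e⟫ = (1 - l) * ⟪a, e⟫ + l * ⟪p, e⟫ := by
    simp only [seg, inner_add_left, real_inner_smul_left]
  rw [h1] at hxe
  have h2 : 0 ≤ l * ⟪p, e⟫ := mul_nonneg hl.1 hpe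
  have hae : ⟪a, e⟫ < 0 := by
    by_contra hcon
    have := mul_nonneg (sub_nonneg.2 hl.2) (not_lt.1 hcon)
    linarith
  set α := ⟪a, e⟫ with hα
  set β := ⟪p, e⟫ with hβ
  have hβα : 0 < β - α := by linarith
  set m : ℝ := -α / (β - α) with hm
  have hm0 : 0 < m := div_pos (by linarith) hβα
  have hm1 : m ≤ 1 := by rw [hm, div_le_one hβα]; linarith
  have hlm : l ≤ m := by
    rw [hm, le_div_iff₀ hβα]; nlinarith
  set p' : E3 := seg a p m with hp'
  have hp'e : ⟪p', e⟫ = 0 := by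
    rw [hp']
    simp only [seg, inner_add_left, real_inner_smul_left]
    rw [← hα, ← hβ, hm]
    field_simp
    ring
  have hp'K : p' ∈ K := b.convex (hball ha) hp (sub_nonneg.2 hm1) hm0.le (by ring)
  have hxeq : seg a p l = seg a p' (l / m) := by
    simp only [seg, hp']
    rw [smul_add, smul_smul, smul_smul, ← add_assoc, ← add_smul]
    have e1 : 1 - l / m + l / m * (1 - m) = 1 - l := by field_simp; ring
    have e2 : l / m * m = l := by field_simp
    rw [e1, e2]
  rw [hxeq]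
  simp only [seg]
  rw [map_add, map_smul, map_smul]
  have hrp' : rfx e p' = p' := by rw [rfx_apply hen, hp'e]; simp
  rw [hrp']
  have hra : rfx e a ∈ K := by
    apply hball
    rw [mem_closedBall_zero_iff] at ha ⊢
    rwa [LinearIsometryEquiv.norm_map]
  have hlm' : l / m ≤ 1 := (div_le_one hm0).2 hlm
  exact b.convex hra hp'K (sub_nonneg.2 hlm') (div_nonneg hl.1 hm0.le) (by ring)

/-- Reflection symmetry forced by the vanishing first moment. -/
theorem rfx_mem (b : Body K r R) {e : E3} (he : Miss K e) (hen : ‖e‖ = 1)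
    (hball : closedBall (0 : E3) (hs K (-e)) ⊆ K) (hm : mom K = 0) :
    ∀ x ∈ K, rfx e x ∈ K := by
  set Km : Set E3 := K ∩ {x | ⟪x, e⟫ < 0} with hKm
  set Kp : Set E3 := K ∩ {x | 0 < ⟪x, e⟫} with hKp
  have hmm : MeasurableSet {x : E3 | ⟪x, e⟫ < 0} := measurableSet_lt (by fun_prop) (by fun_prop)
  have hmp : MeasurableSet {x : E3 | 0 < ⟪x, e⟫} := measurableSet_lt (by fun_prop) (by fun_prop)
  have hKmm : MeasurableSet Km := b.measurableSet.inter hmm
  have hKpm : MeasurableSet Kp := b.measurableSet.inter hmp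
  have hintK : IntegrableOn (fun x : E3 => ⟪x, e⟫) K volume :=
    integrableOn_of_cont (by fun_prop) b.bounded
  -- total integral
  have htot : ∫ x in K, ⟪x, e⟫ = 0 := by
    rw [← inner_mom b.bounded, hm, inner_zero_left]
  have hsplit : ∫ x in K, ⟪x, e⟫ = (∫ x in Km, ⟪x, e⟫) + ∫ x in Kp, ⟪x, e⟫ := by
    have h1 := integral_inter_add_sdiff (f := fun x : E3 => ⟪x, e⟫) (μ := volume) hmp
      (hintK.mono_set (sdiff_subset (s := K) (t := {x : E3 | ⟪x, e⟫ < 0})))
    have h2 : (K \ {x : E3 | ⟪x, e⟫ < 0}) ∩ {x : E3 | 0 < ⟪x, e⟫} = Kp := by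
      ext x
      simp only [hKp, mem_inter_iff, mem_sdiff, Set.mem_ofPred_eq, not_lt]
      constructor
      · rintro ⟨⟨h1, _⟩, h3⟩; exact ⟨h1, h3⟩
      · rintro ⟨h1, h3⟩; exact ⟨⟨h1, h3.le⟩, h3⟩
    have h3 : ∫ x in (K \ {x : E3 | ⟪x, e⟫ < 0}) \ {x : E3 | 0 < ⟪x, e⟫}, ⟪x, e⟫ = 0 := by
      apply setIntegral_eq_zero_of_forall_eq_zero
      intro x hx
      simp only [mem_sdiff, Set.mem_ofPred_eq, not_lt] at hx
      exact le_antisymm hx.2 hx.1.2
    rw [h2, h3, add_zero] at h1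
    have h4 := integral_inter_add_sdiff (f := fun x : E3 => ⟪x, e⟫) (μ := volume) hmm hintK
    rw [← h4, ← h1]
  -- change of variables
  have himg : ∫ x in rfx e '' Km, ⟪x, e⟫ = -(∫ x in Km, ⟪x, e⟫) := by
    rw [(rfx e).measurePreserving.setIntegral_image_emb (rfx e).toHomeomorph.measurableEmbedding]
    rw [← integral_neg]
    apply integral_congr_ae
    filter_upwards with x
    rw [inner_rfx hen]
  have hsub : rfx e '' Km ⊆ Kp := by
    rintro _ ⟨x, hx, rfl⟩
    refine ⟨b.rfx_lower he hen hball hx.1 hx.2, ?_⟩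
    change 0 < ⟪rfx e x, e⟫
    rw [inner_rfx hen]
    have : ⟪x, e⟫ < 0 := hx.2
    linarith
  have himgm : MeasurableSet (rfx e '' Km) :=
    (rfx e).toHomeomorph.measurableEmbedding.measurableSet_image.2 hKmm
  have hKpb : Bornology.IsBounded Kp := b.bounded.subset inter_subset_left
  have hdiff : ∫ x in Kp \ rfx e '' Km, ⟪x, e⟫ = 0 := by
    have e1 : ∫ x in Kp \ rfx e '' Km, ⟪x, e⟫ =
        (∫ x in Kp, ⟪x, e⟫) - ∫ x in rfx e '' Km, ⟪x, e⟫ :=
      setIntegral_sdiff himgm (hintK.mono_set (inter_subset_left : Kp ⊆ K)) hsub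
    rw [e1, himg]
    linarith
  have hnull := null_of_integral (hKpm.diff himgm) (hKpb.subset sdiff_subset) (e := e)
    (fun x hx => hx.1.2) hdiff
  intro y hy
  rcases lt_trichotomy (⟪y, e⟫) 0 with h | h | h
  · exact b.rfx_lower he hen hball hy h
  · rw [rfx_apply hen, h]; simpa using hy
  · by_contra hcon
    set O : Set E3 := interior K ∩ ({z | 0 < ⟪z, e⟫} ∩ (rfx e) ⁻¹' Kᶜ) with hO
    have hopen1 : IsOpen ({z : E3 | 0 < ⟪z, e⟫} ∩ (rfx e) ⁻¹' Kᶜ) :=
      (isOpen_lt continuous_const (by fun_prop)).inter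
        (b.closed.isOpen_compl.preimage (rfx e).continuous)
    have hopen : IsOpen O := isOpen_interior.inter hopen1
    have hne : O.Nonempty := by
      have hyc : y ∈ closure (interior K) := by rw [b.closure_interior]; exact hy
      have := mem_closure_iff.1 hyc _ hopen1 ⟨h, hcon⟩
      rwa [inter_comm] at this
    have hsubO : O ⊆ Kp \ rfx e '' Km := by
      rintro z ⟨hz1, hz2, hz3⟩
      refine ⟨⟨interior_subset hz1, hz2⟩, ?_⟩
      rintro ⟨w, hw, rfl⟩
      apply hz3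
      rw [rfx_rfx hen]
      exact hw.1
    have := hopen.measure_pos volume hne
    exact absurd (measure_mono_null hsubO hnull) this.ne'

lemma hs_rfx (b : Body K r R) {e : E3} (hen : ‖e‖ = 1) (h : ∀ x ∈ K, rfx e x ∈ K) (u : E3) :
    hs K (rfx e u) = hs K u := by
  have key : ∀ v : E3, hs K (rfx e v) ≤ hs K v := by
    intro v
    apply hs_le b.nonempty
    intro x hx
    have h1 : ⟪x, rfx e v⟫ = ⟪rfx e x, v⟫ := by
      have := (rfx e).inner_map_map x (rfx e v)
      rw [rfx_rfx hen] at this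
      exact this.symm
    rw [h1]
    exact inner_le_hs b.compact (h x hx) v
  apply le_antisymm (key u)
  have := key (rfx e u)
  rwa [rfx_rfx hen] at this

end Body

end MP2b501e
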