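import Pool.Agent.Lib_2b501e.Reflect

open MeasureTheory Metric Set
open scoped RealInnerProductSpace Topology Pointwise

namespace MP2b501e

/-- The approximation property with centroid at the origin. -/
def ApproxZero (K : Set E3) : Prop := ∀ ε : ℝ, 0 < ε → ε < 1 →
  ∃ (T : Finset (E3 × ℝ)) (root : E3 × ℝ), MonoSys T root ∧ mom (Poly T) = 0 ∧
      (1 - ε) • K ⊆ Poly T ∧ Poly T ⊆ (1 + ε) • K

/-- Finitely many exposed non-equilibrium points serve a compact set of directions. -/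
lemma exists_select {K : Set E3} {Q : Set E3} (hQ : IsCompact Q) (h : ∀ e ∈ Q, ¬ Miss K e) :
    ∃ X : Finset E3, (∀ x ∈ X, ∃ u, Exp K u x) ∧ ∃ c0 > 0, ∀ e ∈ Q, ∃ x ∈ X, ⟪x, e⟫ ≤ -c0 := by
  classical
  refine hQ.induction_on (p := fun S => ∃ X : Finset E3, (∀ x ∈ X, ∃ u, Exp K u x) ∧
    ∃ c0 > 0, ∀ e ∈ S, ∃ x ∈ X, ⟪x, e⟫ ≤ -c0) ?_ ?_ ?_ ?_
  · exact ⟨∅, by simp, 1, one_pos, by simp⟩
  · rintro S T hST ⟨X, hX, c0, hc0, hT⟩
    exact ⟨X, hX, c0, hc0, fun e he => hT e (hST he)⟩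
  · rintro S T ⟨X, hX, c0, hc0, hS⟩ ⟨Y, hY, c1, hc1, hT⟩
    refine ⟨X ∪ Y, ?_, min c0 c1, lt_min hc0 hc1, ?_⟩
    · intro x hx
      rcases Finset.mem_union.1 hx with h | h
      · exact hX x h
      · exact hY x h
    · rintro e (he | he)
      · obtain ⟨x, hx, hxe⟩ := hS e he
        exact ⟨x, Finset.mem_union_left _ hx, by have := min_le_left c0 c1; linarith⟩
      · obtain ⟨x, hx, hxe⟩ := hT e he
        exact ⟨x, Finset.mem_union_right _ hx, by have := min_le_right c0 c1; linarith⟩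
  · intro e he
    have h1 := h e he
    unfold Miss at h1
    push Not at h1
    obtain ⟨u, x, hexp, hneg⟩ := h1
    have hopen : IsOpen {f : E3 | ⟪x, f⟫ < ⟪x, e⟫ / 2} :=
      isOpen_lt (by fun_prop) continuous_const
    refine ⟨{f : E3 | ⟪x, f⟫ < ⟪x, e⟫ / 2}, mem_nhdsWithin_of_mem_nhds (hopen.mem_nhds ?_),
      {x}, ?_, -(⟪x, e⟫ / 2), by linarith, ?_⟩
    · change ⟪x, e⟫ < ⟪x, e⟫ / 2
      linarith
    · intro y hy
      rw [Finset.mem_singleton] at hy
      subst hy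
      exact ⟨u, hexp⟩
    · intro f hf
      refine ⟨x, by simp, ?_⟩
      have : ⟪x, f⟫ < ⟪x, e⟫ / 2 := hf
      linarith

/-- All directions are served by cuts. -/
theorem approxZero_of_no_miss {K : Set E3} {r R : ℝ} (b : Body K r R) (hC : CH K)
    (hm : mom K = 0) (h : ∀ e : E3, ‖e‖ = 1 → ¬ Miss K e) : ApproxZero K := by
  classical
  obtain ⟨X, hX, c0, hc0, hsel⟩ := exists_select (isCompact_sphere (0 : E3) 1)
    (fun e he => h e (by simpa using he))
  choose! U hU using hX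
  set ι := {x // x ∈ X} with hι
  set τ : ℝ := c0 / (2 * (1 + 2 * Fintype.card ι)) with hτ
  have hτ0 : 0 < τ := by positivity
  have hτ1 : τ + 2 * τ * Fintype.card ι ≤ c0 / 2 := by
    have : τ * (2 * (1 + 2 * Fintype.card ι)) = c0 := by rw [hτ]; field_simp
    linarith
  intro ε hε hε1
  refine approx_core b (ι := ι) (fun i => U i.1) (fun i => i.1) (fun i => hU i.1 i.2)
    Subtype.val_injective hτ0 hτ1 ?_ hε hε1
  intro κ hκ
  obtain ⟨T, root, h1, h2, h3, h4⟩ := b.baseline_mom hC adm_id (κ := min κ (κ * (c0 / 2)))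
    (by positivity)
  rw [b.wf_id] at h2 h3 h4
  refine ⟨T, root, h1, h2, h3.trans (b.smul_mono (by positivity)
    (by have := min_le_left κ (κ * (c0 / 2)); linarith)), κ, hκ, le_rfl, ?_, ?_⟩
  · rw [hm, sub_zero] at h4
    exact h4.trans (min_le_right _ _)
  · intro e he
    left
    obtain ⟨x, hx, hxe⟩ := hsel e (by simpa using he)
    exact ⟨⟨x, hx⟩, hxe⟩

end MP2b501e
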