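import Pool.Agent.Lib_2b501e.Bump2

open MeasureTheory Metric Set
open scoped RealInnerProductSpace Topology Pointwise

namespace MP2b501e

lemma ApproxZero.of_close {K : Set E3} {r R : ℝ} (b : Body K r R)
    (h : ∀ δ : ℝ, 0 < δ → ∃ K1, ApproxZero K1 ∧ K ⊆ K1 ∧ K1 ⊆ (1 + δ) • K) : ApproxZero K := by
  intro ε hε hε1
  obtain ⟨K1, h1, h2, h3⟩ := h (ε / 3) (by positivity)
  obtain ⟨T, root, h4, h5, h6, h7⟩ := h1 (ε / 3) (by positivity) (by linarith)
  refine ⟨T, root, h4, h5, ?_, ?_⟩
  · refine (b.smul_mono (d := 1 - ε / 3) (by linarith) (by linarith)).trans ?_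
    exact (smul_set_mono h2).trans h6
  · refine h7.trans ((smul_set_mono h3).trans ?_)
    rw [smul_smul]
    apply b.smul_mono (by positivity)
    nlinarith

lemma patch_of_tangential {K : Set E3} {r R : ℝ} (b : Body K r R) (hm : mom K = 0) {e : E3}
    (he : Miss K e) (hen : ‖e‖ = 1)
    (h : ∀ x ∈ frontier K, ∃ v : E3, ‖v‖ = 1 ∧ hs K v = ⟪x, v⟫ ∧ hs K v = hs K (-e)) :
    ∃ κ, Patch K r R (hs K (-e)) κ e := by
  have hR := b.R_pos
  have hr := b.rpos
  set ρ := hs K (-e) with hρ
  have hρ0 : 0 < ρ := hr.trans_le (b.le_hs_unit (by rw [norm_neg]; exact hen))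
  have hball : closedBall (0 : E3) ρ ⊆ K := by
    intro y hy
    rw [mem_closedBall_zero_iff] at hy
    by_contra hcon
    obtain ⟨c, hc0, hc1, hc⟩ := b.not_mem_exists hcon
    obtain ⟨v, hv, hn, hl⟩ := h _ hc
    rw [hl] at hn
    have h1 := real_inner_le_norm (c • y) v
    rw [hv, mul_one, norm_smul, Real.norm_eq_abs, abs_of_pos hc0] at h1
    have h2 : c * ‖y‖ ≤ c * ρ := mul_le_mul_of_nonneg_left hy hc0.le
    nlinarith
  have hsymm := b.rfx_mem he hen hball hm
  set κ : ℝ := (r / R) ^ 2 / 2 with hκ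
  have hκ0 : 0 < κ := by positivity
  have hrR : r / R ≤ 1 := (div_le_one hR).2 b.r_le_R
  have hκ1 : κ ≤ 1 := by
    have h0 : 0 ≤ r / R := by positivity
    nlinarith
  have hneg : ∀ u : E3, ‖u‖ = 1 → 1 - κ < -⟪u, e⟫ → hs K u = ρ := by
    intro u hu h1
    have h2 : ‖e - (-u)‖ < r / R := by
      have h3 : ‖e - (-u)‖ ^ 2 = 2 + 2 * ⟪u, e⟫ := by
        rw [sub_neg_eq_add, norm_add_sq_real, hen, hu, real_inner_comm]; ring
      have h4 : ‖e - (-u)‖ ^ 2 < (r / R) ^ 2 := by
        rw [h3]
        have : (r / R) ^ 2 = 2 * κ := by rw [hκ]; ring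
        linarith
      exact lt_of_pow_lt_pow_left₀ 2 (by positivity) h4
    have h5 := b.level_near he hen (f := -u) (by rw [norm_neg]; exact hu) h2
    rwa [neg_neg] at h5
  refine ⟨κ, b, hen, hρ0, hball, hκ0, hκ1, fun u hu h1 => ?_⟩
  rcases le_total 0 (⟪u, e⟫) with h0 | h0
  · rw [abs_of_nonneg h0] at h1
    rw [← b.hs_rfx hen hsymm u]
    apply hneg
    · rw [LinearIsometryEquiv.norm_map]; exact hu
    · rw [inner_rfx hen]; linarith
  · rw [abs_of_nonpos h0] at h1
    exact hneg u hu h1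

/-- Sufficiency, centroid at the origin. -/
theorem approxZero_of_CH {K : Set E3} {r R : ℝ} (b : Body K r R) (hC : CH K)
    (hm : mom K = 0) : ApproxZero K := by
  induction hn : Module.finrank ℝ (Submodule.span ℝ {f : E3 | Miss K f}) using
    Nat.strong_induction_on generalizing K R with
  | _ n ih =>
  by_cases hmiss : ∃ e : E3, ‖e‖ = 1 ∧ Miss K e
  · obtain ⟨e, hen, he⟩ := hmiss
    by_cases hT : ∀ x ∈ frontier K, ∃ v : E3, ‖v‖ = 1 ∧ hs K v = ⟪x, v⟫ ∧ hs K v = hs K (-e)
    · obtain ⟨κ, p⟩ := patch_of_tangential b hm he hen hT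
      apply ApproxZero.of_close b
      intro δ hδ
      set c : ℝ := max (1 - κ / 2) (1 / (1 + δ)) with hc
      have hκ := p.κpos
      have hc1 : c < 1 := by
        rw [hc]
        apply max_lt (by linarith)
        rw [div_lt_one (by linarith)]; linarith
      have hcκ : 1 - κ < c := by
        have := le_max_left (1 - κ / 2) (1 / (1 + δ))
        rw [← hc] at this
        linarith
      have hc0 := p.cpos hcκ
      have hcδ : c⁻¹ ≤ 1 + δ := by
        have h1 := le_max_right (1 - κ / 2) (1 / (1 + δ))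
        rw [← hc] at h1
        rw [inv_le_comm₀ hc0 (by linarith), ← one_div]
        exact h1
      refine ⟨Bump K e c, ?_, p.sub_bump, (p.bump_sub hcκ hc1).trans
        (b.smul_mono (by positivity) hcδ)⟩
      refine ih _ ?_ (p.body_bump hcκ hc1) (p.CH_bump hC hcκ hc1) (p.mom_bump hm hcκ hc1) rfl
      rw [← hn]
      apply Submodule.finrank_lt_finrank_of_lt
      apply lt_of_le_of_ne
      · apply Submodule.span_mono
        intro f hf
        exact (p.miss_bump hcκ hc1 hf).1
      · intro heq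
        have h1 : e ∈ Submodule.span ℝ {f : E3 | Miss (Bump K e c) f} := by
          rw [heq]; exact Submodule.subset_span he
        have h2 : Submodule.span ℝ {f : E3 | Miss (Bump K e c) f} ≤
            (Submodule.span ℝ {e})ᗮ := by
          rw [Submodule.span_le]
          intro f hf
          rw [SetLike.mem_coe, Submodule.mem_orthogonal_singleton_iff_inner_left]
          exact (p.miss_bump hcκ hc1 hf).2
        have h3 := h2 h1
        rw [Submodule.mem_orthogonal_singleton_iff_inner_left, real_inner_self_eq_norm_sq,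
          hen] at h3
        norm_num at h3
    · push Not at hT
      obtain ⟨x1, hx1, hx1'⟩ := hT
      exact b.approxZero_nt hC hm he hen hx1 hx1'
  · push Not at hmiss
    exact approxZero_of_no_miss b hC hm hmiss

/-- From the origin-centred approximation property to approximability. -/
theorem approximable_of_approxZero {K : Set E3} {r R : ℝ} (b : Body K r R) (h : ApproxZero K) :
    Approximable K := by
  intro ε hε
  have hR := b.R_pos
  set ε' : ℝ := min (1 / 2) (ε / (2 * R)) with hε'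
  have hε'0 : 0 < ε' := lt_min (by norm_num) (by positivity)
  have hε'1 : ε' < 1 := (min_le_left _ _).trans_lt (by norm_num)
  have hε'2 : ε' * R ≤ ε / 2 := by
    have : ε' ≤ ε / (2 * R) := min_le_right _ _
    rw [le_div_iff₀ (by positivity)] at this
    linarith
  obtain ⟨T, root, hmono, hmom, h1, h2⟩ := h ε' hε'0 hε'1
  have hnhds : Poly T ∈ 𝓝 (0 : E3) := by
    apply strict_mem_nhds
    intro p hp
    rw [inner_zero_right]
    exact hmono.pos p hp
  refine ⟨Poly T, ⟨⟨T, rfl⟩, (b.bounded.smul₀ (1 + ε')).subset h2,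
    ⟨0, mem_interior_iff_mem_nhds.2 hnhds⟩⟩, hmono.monostable (centroid_eq_zero hmom), ?_⟩
  refine lt_of_le_of_lt (hausdorffDist_le_of_mem_dist (r := ε / 2) (by positivity) ?_ ?_)
    (by linarith)
  · intro x hx
    refine ⟨(1 - ε') • x, h1 ⟨x, hx, rfl⟩, ?_⟩
    have h3 : x - (1 - ε') • x = ε' • x := by module
    rw [dist_eq_norm, h3, norm_smul, Real.norm_eq_abs, abs_of_pos hε'0]
    exact (mul_le_mul_of_nonneg_left (b.norm_le hx) hε'0.le).trans hε'2
  · intro y hy
    obtain ⟨z, hz, rfl⟩ := h2 hy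
    refine ⟨z, hz, ?_⟩
    have h3 : (1 + ε') • z - z = ε' • z := by module
    simp only
    rw [dist_eq_norm, h3, norm_smul, Real.norm_eq_abs, abs_of_pos hε'0]
    exact (mul_le_mul_of_nonneg_left (b.norm_le hz) hε'0.le).trans hε'2

end MP2b501e
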