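import Pool.Agent.Lib_2b501e.Defs

open MeasureTheory Metric Set
open scoped RealInnerProductSpace Topology

namespace MP2b501e

/-- Support function. -/
noncomputable def hs (K : Set E3) (u : E3) : ℝ := sSup ((fun x => ⟪x, u⟫) '' K)

section basic

variable {K L : Set E3}

lemma hs_bddAbove (hK : IsCompact K) (u : E3) : BddAbove ((fun x => ⟪x, u⟫) '' K) :=
  (hK.image (by fun_prop)).bddAbove

lemma inner_le_hs (hK : IsCompact K) {x : E3} (hx : x ∈ K) (u : E3) : ⟪x, u⟫ ≤ hs K u :=
  le_csSup (hs_bddAbove hK u) ⟨x, hx, rfl⟩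

lemma exists_eq_hs (hK : IsCompact K) (hne : K.Nonempty) (u : E3) : ∃ x ∈ K, ⟪x, u⟫ = hs K u := by
  have h := (hK.image (f := fun x => ⟪x, u⟫) (by fun_prop)).sSup_mem (hne.image _)
  obtain ⟨x, hx, h⟩ := h
  exact ⟨x, hx, h⟩

lemma hs_le (hne : K.Nonempty) {u : E3} {c : ℝ} (h : ∀ x ∈ K, ⟪x, u⟫ ≤ c) : hs K u ≤ c := by
  apply csSup_le (hne.image _)
  rintro _ ⟨x, hx, rfl⟩
  exact h x hx

lemma hs_mono (hL : IsCompact L) (hne : K.Nonempty) (h : K ⊆ L) (u : E3) : hs K u ≤ hs L u :=
  hs_le hne fun _ hx => inner_le_hs hL (h hx) u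

lemma hs_smul (hK : IsCompact K) (hne : K.Nonempty) {c : ℝ} (hc : 0 ≤ c) (u : E3) :
    hs K (c • u) = c * hs K u := by
  apply le_antisymm
  · apply hs_le hne
    intro x hx
    rw [real_inner_smul_right]
    exact mul_le_mul_of_nonneg_left (inner_le_hs hK hx u) hc
  · obtain ⟨x, hx, h⟩ := exists_eq_hs hK hne u
    rw [← h, ← real_inner_smul_right]
    exact inner_le_hs hK hx _

lemma hs_add_le (hK : IsCompact K) (hne : K.Nonempty) (u v : E3) :
    hs K (u + v) ≤ hs K u + hs K v := by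
  apply hs_le hne
  intro x hx
  rw [inner_add_right]
  exact add_le_add (inner_le_hs hK hx u) (inner_le_hs hK hx v)

end basic

/-- `K` is a compact convex set with `closedBall 0 r ⊆ K ⊆ closedBall 0 R`. -/
structure Body (K : Set E3) (r R : ℝ) : Prop where
  compact : IsCompact K
  convex : Convex ℝ K
  rpos : 0 < r
  ball_sub : closedBall (0 : E3) r ⊆ K
  sub_ball : K ⊆ closedBall (0 : E3) R

namespace Body

variable {K : Set E3} {r R : ℝ}

lemma zero_mem (b : Body K r R) : (0 : E3) ∈ K :=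
  b.ball_sub (by simp [b.rpos.le])

lemma nonempty (b : Body K r R) : K.Nonempty := ⟨0, b.zero_mem⟩

lemma norm_le (b : Body K r R) {x : E3} (hx : x ∈ K) : ‖x‖ ≤ R := by
  simpa using b.sub_ball hx

lemma nhds (b : Body K r R) : K ∈ 𝓝 (0 : E3) :=
  Filter.mem_of_superset (closedBall_mem_nhds _ b.rpos) b.ball_sub

lemma closed (b : Body K r R) : IsClosed K := b.compact.isClosed

lemma bounded (b : Body K r R) : Bornology.IsBounded K := b.compact.isBounded

lemma exists_unit : ∃ u : E3, ‖u‖ = 1 := by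
  refine ⟨EuclideanSpace.single 0 1, ?_⟩
  simp

lemma le_hs (b : Body K r R) (u : E3) : r * ‖u‖ ≤ hs K u := by
  rcases eq_or_ne u 0 with rfl | hu
  · simpa using inner_le_hs b.compact b.zero_mem 0
  · have hn : ‖u‖ ≠ 0 := by simpa using hu
    have hmem : (r * ‖u‖⁻¹) • u ∈ K := by
      apply b.ball_sub
      rw [mem_closedBall_zero_iff, norm_smul, Real.norm_eq_abs, abs_mul, abs_of_pos b.rpos,
        abs_inv, abs_norm, mul_assoc, inv_mul_cancel₀ hn, mul_one]
    have := inner_le_hs b.compact hmem u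
    rw [real_inner_smul_left, real_inner_self_eq_norm_sq] at this
    calc r * ‖u‖ = r * ‖u‖⁻¹ * ‖u‖ ^ 2 := by field_simp
      _ ≤ _ := this

lemma hs_le_mul (b : Body K r R) (u : E3) : hs K u ≤ R * ‖u‖ := by
  apply hs_le b.nonempty
  intro x hx
  exact (real_inner_le_norm x u).trans (mul_le_mul_of_nonneg_right (b.norm_le hx) (norm_nonneg _))

lemma r_le_R (b : Body K r R) : r ≤ R := by
  obtain ⟨u, hu⟩ := exists_unit
  have h1 := b.le_hs u
  have h2 := b.hs_le_mul u
  rw [hu, mul_one] at h1 h2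
  linarith

lemma R_pos (b : Body K r R) : 0 < R := b.rpos.trans_le b.r_le_R

lemma hs_sub_le (b : Body K r R) (u v : E3) : hs K u ≤ hs K v + R * ‖u - v‖ := by
  have h := hs_add_le b.compact b.nonempty v (u - v)
  rw [add_sub_cancel] at h
  have := b.hs_le_mul (u - v)
  linarith

lemma lipschitz (b : Body K r R) (u v : E3) : |hs K u - hs K v| ≤ R * ‖u - v‖ := by
  rw [abs_le]
  have h1 := b.hs_sub_le u v
  have h2 := b.hs_sub_le v u
  rw [norm_sub_rev] at h2
  constructor <;> linarith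

lemma continuous_hs (b : Body K r R) : Continuous (hs K) := by
  have : LipschitzWith (Real.toNNReal R) (hs K) := by
    apply LipschitzWith.of_dist_le_mul
    intro u v
    rw [Real.dist_eq, dist_eq_norm, Real.coe_toNNReal _ b.R_pos.le]
    exact b.lipschitz u v
  exact this.continuous

lemma hs_pos (b : Body K r R) {u : E3} (hu : u ≠ 0) : 0 < hs K u :=
  lt_of_lt_of_le (mul_pos b.rpos (norm_pos_iff.2 hu)) (b.le_hs u)

/-- Existence of a unit normal separating a point outside. -/
lemma exists_sep (b : Body K r R) {x : E3} (hx : x ∉ K) :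
    ∃ u : E3, ‖u‖ = 1 ∧ hs K u < ⟪x, u⟫ := by
  obtain ⟨f, c, h1, h2⟩ := geometric_hahn_banach_closed_point b.convex b.closed hx
  obtain ⟨u, hu⟩ : ∃ u : E3, ∀ y, f y = ⟪y, u⟫ :=
    ⟨(InnerProductSpace.toDual ℝ E3).symm f, fun y => by
      rw [real_inner_comm, InnerProductSpace.toDual_symm_apply]⟩
  have hlt : hs K u < ⟪x, u⟫ := by
    refine lt_of_le_of_lt (hs_le b.nonempty (c := c) ?_) (by rw [← hu]; exact h2)
    intro y hy
    rw [← hu]
    exact (h1 y hy).le
  have hu0 : u ≠ 0 := by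
    rintro rfl
    have h0 : hs K 0 = 0 := by
      have := hs_smul b.compact b.nonempty (le_refl (0:ℝ)) (0 : E3)
      simpa using this
    simp [h0] at hlt
  have hn : 0 < ‖u‖ := norm_pos_iff.2 hu0
  refine ⟨‖u‖⁻¹ • u, ?_, ?_⟩
  · rw [norm_smul, norm_inv, norm_norm, inv_mul_cancel₀ hn.ne']
  · rw [hs_smul b.compact b.nonempty (by positivity), real_inner_smul_right]
    exact mul_lt_mul_of_pos_left hlt (by positivity)

lemma mem_iff (b : Body K r R) {x : E3} : x ∈ K ↔ ∀ u : E3, ‖u‖ = 1 → ⟪x, u⟫ ≤ hs K u := by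
  constructor
  · intro hx u _
    exact inner_le_hs b.compact hx u
  · intro h
    by_contra hx
    obtain ⟨u, hu, hlt⟩ := b.exists_sep hx
    exact absurd (h u hu) (not_le.2 hlt)

lemma smul_mem (b : Body K r R) {x : E3} (hx : x ∈ K) {c : ℝ} (h0 : 0 ≤ c) (h1 : c ≤ 1) :
    c • x ∈ K := by
  have := b.convex b.zero_mem hx (sub_nonneg.2 h1) h0 (by ring)
  simpa using this

lemma mem_frontier_iff (b : Body K r R) {x : E3} : x ∈ frontier K ↔ gauge K x = 1 :=
  (gauge_eq_one_iff_mem_frontier b.convex b.nhds).symm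

lemma frontier_subset (b : Body K r R) : frontier K ⊆ K := b.closed.frontier_subset

lemma mem_iff_gauge (b : Body K r R) {x : E3} : x ∈ K ↔ gauge K x ≤ 1 := by
  rw [gauge_le_one_iff_mem_closure b.convex b.nhds, b.closed.closure_eq]

lemma continuous_gauge (b : Body K r R) : Continuous (gauge K) :=
  _root_.continuous_gauge b.convex b.nhds

lemma gauge_smul (b : Body K r R) {c : ℝ} (hc : 0 ≤ c) (x : E3) :
    gauge K (c • x) = c * gauge K x := by
  rw [gauge_smul_of_nonneg hc, smul_eq_mul]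

lemma gauge_pos (b : Body K r R) {x : E3} (hx : x ≠ 0) : 0 < gauge K x := by
  rw [_root_.gauge_pos (absorbent_nhds_zero b.nhds)]
  · exact hx
  · exact (NormedSpace.isVonNBounded_iff ℝ).2 b.bounded

lemma gauge_ge (b : Body K r R) (x : E3) : ‖x‖ / R ≤ gauge K x := by
  rcases eq_or_ne x 0 with rfl | hx
  · simp
  · have hg := b.gauge_pos hx
    have hmem : (gauge K x)⁻¹ • x ∈ K := by
      rw [b.mem_iff_gauge, b.gauge_smul (by positivity), inv_mul_cancel₀ hg.ne']
    have := b.norm_le hmem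
    rw [norm_smul, norm_inv, Real.norm_eq_abs, abs_of_pos hg, inv_mul_le_iff₀ hg] at this
    rwa [div_le_iff₀ b.R_pos]

lemma gauge_le (b : Body K r R) (x : E3) : gauge K x ≤ ‖x‖ / r := by
  rcases eq_or_ne x 0 with rfl | hx
  · simp
  · have hn : 0 < ‖x‖ := norm_pos_iff.2 hx
    have hmem : (r / ‖x‖) • x ∈ K := by
      apply b.ball_sub
      rw [mem_closedBall_zero_iff, norm_smul, Real.norm_eq_abs, abs_of_pos (div_pos b.rpos hn),
        div_mul_cancel₀ _ hn.ne']
    rw [b.mem_iff_gauge, b.gauge_smul (div_pos b.rpos hn).le] at hmem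
    rw [le_div_iff₀ b.rpos]
    have := b.rpos
    calc gauge K x * r = (r / ‖x‖ * gauge K x) * ‖x‖ := by field_simp
      _ ≤ 1 * ‖x‖ := by gcongr
      _ = ‖x‖ := one_mul _

/-- radial projection -/
lemma exists_frontier (b : Body K r R) {x : E3} (hx : x ≠ 0) :
    (gauge K x)⁻¹ • x ∈ frontier K := by
  rw [b.mem_frontier_iff, b.gauge_smul (by have := b.gauge_pos hx; positivity),
    inv_mul_cancel₀ (b.gauge_pos hx).ne']

lemma not_mem_exists (b : Body K r R) {x : E3} (hx : x ∉ K) :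
    ∃ c : ℝ, 0 < c ∧ c < 1 ∧ c • x ∈ frontier K := by
  have hx0 : x ≠ 0 := by rintro rfl; exact hx b.zero_mem
  have hg : 1 < gauge K x := by
    rw [b.mem_iff_gauge] at hx; exact not_le.1 hx
  exact ⟨(gauge K x)⁻¹, by positivity, inv_lt_one_of_one_lt₀ hg, b.exists_frontier hx0⟩

lemma norm_frontier_ge (b : Body K r R) {x : E3} (hx : x ∈ frontier K) : r ≤ ‖x‖ := by
  have h1 := b.mem_frontier_iff.1 hx
  have h2 := b.gauge_le x
  rw [h1, le_div_iff₀ b.rpos] at h2
  linarith

lemma exists_normal (b : Body K r R) {x : E3} (hx : x ∈ frontier K) :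
    ∃ u : E3, ‖u‖ = 1 ∧ hs K u = ⟪x, u⟫ := by
  -- points (1 + 1/(n+1)) x are outside; take limits of separating normals
  have hg := b.mem_frontier_iff.1 hx
  have hx0 : x ≠ 0 := by rintro rfl; simp at hg
  have hout : ∀ n : ℕ, (1 + 1 / ((n : ℝ) + 1)) • x ∉ K := by
    intro n
    rw [b.mem_iff_gauge, b.gauge_smul (by positivity), hg, mul_one, not_le]
    have : (0:ℝ) < 1 / ((n : ℝ) + 1) := by positivity
    linarith
  choose u hu hlt using fun n => b.exists_sep (hout n)
  have hcomp : IsCompact (sphere (0 : E3) 1) := isCompact_sphere _ _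
  obtain ⟨v, hv, φ, hφ, hlim⟩ := hcomp.tendsto_subseq (x := u) (fun n => by simp [hu n])
  refine ⟨v, by simpa using hv, ?_⟩
  apply le_antisymm
  · have t1 : Filter.Tendsto (fun n => hs K (u (φ n))) Filter.atTop (𝓝 (hs K v)) :=
      (b.continuous_hs.tendsto v).comp hlim
    have t2 : Filter.Tendsto (fun n => ⟪(1 + 1 / (((φ n : ℕ) : ℝ) + 1)) • x, u (φ n)⟫)
        Filter.atTop (𝓝 ⟪(1 + (0:ℝ)) • x, v⟫) := by
      apply Filter.Tendsto.inner _ hlim
      apply Filter.Tendsto.smul_const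
      apply Filter.Tendsto.const_add
      exact (tendsto_one_div_add_atTop_nhds_zero_nat).comp hφ.tendsto_atTop
    have := le_of_tendsto_of_tendsto' t1 t2 (fun n => (hlt (φ n)).le)
    simpa using this
  · exact inner_le_hs b.compact (b.frontier_subset hx) v

/-- a point of `K` lying on a supporting plane is on the frontier -/
lemma mem_frontier_of_eq (b : Body K r R) {x u : E3} (hx : x ∈ K) (hu : u ≠ 0)
    (h : ⟪x, u⟫ = hs K u) : x ∈ frontier K := by
  rw [b.mem_frontier_iff]
  apply le_antisymm (b.mem_iff_gauge.1 hx)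
  by_contra hlt
  rw [not_le] at hlt
  have hpos := b.hs_pos hu
  have hx0 : x ≠ 0 := by rintro rfl; rw [inner_zero_left] at h; linarith
  have hg := b.gauge_pos hx0
  have hmem : (gauge K x)⁻¹ • x ∈ K := b.frontier_subset (b.exists_frontier hx0)
  have := inner_le_hs b.compact hmem u
  rw [real_inner_smul_left, h] at this
  have h1 : 1 < (gauge K x)⁻¹ := (one_lt_inv₀ hg).2 hlt
  nlinarith

lemma measurableSet (b : Body K r R) : MeasurableSet K := b.closed.measurableSet

lemma closure_interior (b : Body K r R) : closure (interior K) = K := by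
  rw [b.convex.closure_interior_eq_closure_of_nonempty_interior]
  · exact b.closed.closure_eq
  · exact ⟨0, mem_interior_iff_mem_nhds.2 b.nhds⟩

end Body

lemma exists_body {K : Set E3} (hK : IsCompact K) (hc : Convex ℝ K) (h0 : (0 : E3) ∈ interior K) :
    ∃ r R : ℝ, Body K r R := by
  obtain ⟨r, hr, hsub⟩ := nhds_basis_closedBall.mem_iff.1 (mem_interior_iff_mem_nhds.1 h0)
  obtain ⟨R, hR⟩ := hK.isBounded.subset_closedBall (0 : E3)
  exact ⟨r, R, hK, hc, hr, hsub, hR⟩

end MP2b501e
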