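import Pool.Agent.Lib_2b501e.Suff

open MeasureTheory Metric Set
open scoped RealInnerProductSpace Topology Pointwise

namespace MP2b501e

/-- translate of a set -/
def tr (v : E3) (s : Set E3) : Set E3 := (fun x => v + x) '' s

lemma mem_tr {v x : E3} {s : Set E3} : x ∈ tr v s ↔ x - v ∈ s := by
  constructor
  · rintro ⟨y, hy, rfl⟩; simpa using hy
  · intro h; exact ⟨x - v, h, by simp⟩

lemma add_mem_tr {v x : E3} {s : Set E3} (h : x ∈ s) : v + x ∈ tr v s := ⟨x, h, rfl⟩

@[simp] lemma tr_tr (v : E3) (s : Set E3) : tr (-v) (tr v s) = s := by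
  ext x; simp [mem_tr]

@[simp] lemma tr_tr' (v : E3) (s : Set E3) : tr v (tr (-v) s) = s := by
  ext x; simp [mem_tr]

lemma measurePreserving_tr (v : E3) :
    MeasurePreserving (fun x : E3 => v + x) volume volume := measurePreserving_add_left volume v

lemma measurableEmbedding_tr (v : E3) : MeasurableEmbedding (fun x : E3 => v + x) :=
  (Homeomorph.addLeft v).measurableEmbedding

lemma vol_tr (v : E3) (s : Set E3) : vol (tr v s) = vol s := by
  unfold vol tr
  rw [measureReal_def, measureReal_def]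
  congr 1
  have := (measurePreserving_tr v).measure_preimage_emb (measurableEmbedding_tr v)
    ((fun x => v + x) '' s)
  rw [preimage_image_eq _ (add_right_injective v)] at this
  exact this.symm

lemma mom_tr (v : E3) {s : Set E3} (hb : Bornology.IsBounded s) :
    mom (tr v s) = vol s • v + mom s := by
  unfold tr
  rw [mom, (measurePreserving_tr v).setIntegral_image_emb (measurableEmbedding_tr v),
    integral_add (integrableOn_of_cont continuous_const hb) (integrableOn_id' hb),
    setIntegral_const]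
  rfl

lemma centroid_tr (v : E3) {s : Set E3} (hb : Bornology.IsBounded s) (hv : vol s ≠ 0) :
    centroid (tr v s) = v + centroid s := by
  rw [centroid_eq, centroid_eq, vol_tr, mom_tr v hb, smul_add, smul_smul, inv_mul_cancel₀ hv,
    one_smul]

lemma vol_pos_of_interior {s : Set E3} (hb : Bornology.IsBounded s) (h : (interior s).Nonempty) :
    0 < vol s := by
  have h1 := isOpen_interior.measure_pos volume h
  unfold vol
  rw [measureReal_def]
  exact ENNReal.toReal_pos (h1.trans_le (measure_mono interior_subset)).ne' (volume_lt_top hb).ne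

lemma IsFace.tr {P F : Set E3} (h : IsFace P F) (v : E3) :
    IsFace (tr v P) (MP2b501e.tr v F) := by
  obtain ⟨⟨u, g, h1, h2⟩, h3⟩ := h
  refine ⟨⟨u, g + ⟪u, v⟫, ?_, ?_⟩, ?_⟩
  · rintro _ ⟨x, hx, rfl⟩
    simp only [inner_add_right]
    linarith [h1 x hx]
  · ext x
    rw [mem_tr, h2]
    simp only [Set.mem_ofPred_eq, mem_tr, inner_sub_right]
    constructor
    · rintro ⟨a, b⟩; exact ⟨a, by linarith⟩
    · rintro ⟨a, b⟩; exact ⟨a, by linarith⟩
  · have : MP2b501e.tr v F = v +ᵥ F := rfl
    rw [this, vectorSpan_vadd]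
    exact h3

lemma intrinsicInterior_tr (v : E3) (F : Set E3) :
    intrinsicInterior ℝ (tr v F) = tr v (intrinsicInterior ℝ F) :=
  AffineIsometry.intrinsicInterior_image
    (AffineIsometryEquiv.constVAdd ℝ E3 v).toAffineIsometry F

lemma IsStable.tr {P F : Set E3} (h : IsStable P F) (v : E3) (hb : Bornology.IsBounded P)
    (hv : vol P ≠ 0) : IsStable (tr v P) (MP2b501e.tr v F) := by
  obtain ⟨p, hp, h1⟩ := h
  refine ⟨v + p, ?_, ?_⟩
  · rw [intrinsicInterior_tr]; exact add_mem_tr hp
  · rintro _ ⟨y, hy, rfl⟩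
    rw [centroid_tr v hb hv]
    simpa using h1 y hy

lemma Monostable.tr {P : Set E3} (h : Monostable P) (v : E3) (hb : Bornology.IsBounded P)
    (hv : vol P ≠ 0) : Monostable (tr v P) := by
  obtain ⟨F, ⟨h1, h2⟩, h3⟩ := h
  refine ⟨MP2b501e.tr v F, ⟨h1.tr v, h2.tr v hb hv⟩, ?_⟩
  rintro G ⟨g1, g2⟩
  have hb' : Bornology.IsBounded (MP2b501e.tr v P) := by
    obtain ⟨R, hR⟩ := hb.subset_closedBall (0 : E3)
    apply (isBounded_closedBall (x := v) (r := R)).subset
    rintro _ ⟨x, hx, rfl⟩
    have := hR hx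
    simpa [dist_eq_norm] using this
  have k1 := g1.tr (-v)
  have k2 := g2.tr (-v) hb' (by rw [vol_tr]; exact hv)
  rw [tr_tr] at k1 k2
  have := h3 _ ⟨k1, k2⟩
  rw [← this, tr_tr']

lemma isBounded_tr {P : Set E3} (hb : Bornology.IsBounded P) (v : E3) :
    Bornology.IsBounded (tr v P) := by
  obtain ⟨R, hR⟩ := hb.subset_closedBall (0 : E3)
  apply (isBounded_closedBall (x := v) (r := R)).subset
  rintro _ ⟨x, hx, rfl⟩
  have := hR hx
  simpa [dist_eq_norm] using this

lemma interior_tr (v : E3) (s : Set E3) : interior (tr v s) = tr v (interior s) :=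
  ((Homeomorph.addLeft v).image_interior s).symm

lemma frontier_tr (v : E3) (s : Set E3) : frontier (tr v s) = tr v (frontier s) :=
  ((Homeomorph.addLeft v).image_frontier s).symm

lemma IsPolyhedron.tr {P : Set E3} (h : IsPolyhedron P) (v : E3) : IsPolyhedron (tr v P) := by
  classical
  obtain ⟨⟨s, hs'⟩, hb, hi⟩ := h
  refine ⟨⟨s.image fun p => (p.1, p.2 + ⟪p.1, v⟫), ?_⟩, isBounded_tr hb v, ?_⟩
  · ext x
    rw [mem_tr, hs']
    simp only [Set.mem_ofPred_eq, Finset.mem_image]
    constructor
    · rintro h _ ⟨p, hp, rfl⟩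
      have := h p hp
      rw [inner_sub_right] at this
      simp only
      linarith
    · intro h p hp
      have := h _ ⟨p, hp, rfl⟩
      simp only at this
      rw [inner_sub_right]
      linarith
  · rw [interior_tr]
    obtain ⟨x, hx⟩ := hi
    exact ⟨v + x, add_mem_tr hx⟩

lemma hausdorffDist_tr (v : E3) (s t : Set E3) :
    hausdorffDist (tr v s) (tr v t) = hausdorffDist s t :=
  hausdorffDist_image (isometry_add_left v)

theorem Approximable.tr {K : Set E3} (h : Approximable K) (v : E3) :
    Approximable (tr v K) := by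
  intro ε hε
  obtain ⟨P, h1, h2, h3⟩ := h ε hε
  have hv := (vol_pos_of_interior h1.isBounded h1.interior_nonempty).ne'
  exact ⟨MP2b501e.tr v P, h1.tr v, h2.tr v h1.isBounded hv, by rwa [hausdorffDist_tr]⟩

end MP2b501e
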